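import Mathlib

section DpPart

/-! # The dynamic programme: definitions

Vertices are natural numbers below `N`, `A` is the adjacency relation. -/

namespace Pool.Agent.Lib.MP_37c7bf_co_h26tw

open Function

/-- Pebble and coordinate. -/
abbrev KI (k : ℕ) : Type := Fin k × Fin 3

/-- `y` lies in the component of `z` in the graph without the pebbled vertices. -/
def Comp (N : ℕ) (A : ℕ → ℕ → Prop) {k : ℕ} (T : Fin k → ℕ) (z y : ℕ) : Prop :=
  z < N ∧ (∀ l, z ≠ T l) ∧ Relation.ReflTransGen (fun a b => A a b ∧ ∀ l, b ≠ T l) z y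

/-- The union of the components adjacent to `v` that contain a vertex below `J`. -/
def Reg (N : ℕ) (A : ℕ → ℕ → Prop) {k : ℕ} (T : Fin k → ℕ) (v J : ℕ) : Set ℕ :=
  {y | (∃ y1, Comp N A T y y1 ∧ A v y1) ∧ ∃ z < J, Comp N A T y z}

/-- `j` is the least vertex of a component adjacent to `v`. -/
def IsNew (N : ℕ) (A : ℕ → ℕ → Prop) {k : ℕ} (T : Fin k → ℕ) (v j : ℕ) : Prop :=
  (∃ y, Comp N A T j y ∧ A v y) ∧ ∀ z < j, ¬ Comp N A T j z

/-- The matrix `K` kills the vector `x`. -/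
def Kills {m k : ℕ} (K : KI k × KI k → ZMod m) (x : KI k → ZMod m) : Prop :=
  ∀ r, ∑ c, K (r, c) * x c = 0

/-- The vector `x` has equal entries at pebbles on the same vertex. -/
def Cons {m k : ℕ} (T : Fin k → ℕ) (x : KI k → ZMod m) : Prop :=
  ∀ l l', T l = T l' → ∀ c, x (l, c) = x (l', c)

/-- The pinned coordinates: all three of vertex `0`, the first two of vertex `1` and the first
of vertex `2`. -/
def pin (c : Fin 3) (v : ℕ) : Prop := v = 0 ∨ (v = 1 ∧ c ≠ 2) ∨ (v = 2 ∧ c = 0)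

/-- The velocity `y` of vertex `v` respects the pins. -/
def Pins {m : ℕ} (v : ℕ) (y : Fin 3 → ZMod m) : Prop := ∀ c, pin c v → y c = 0

/-- The matrix `K` follows from the matrix `K'` after moving pebble `i` to vertex `v`, for the
velocities `xy.1` of the pebbles and `xy.2` of `v`. -/
def ProjAt {m k : ℕ} (A : ℕ → ℕ → Prop) (T : Fin k → ℕ) (i : Fin k) (v : ℕ)
    (α : KI k → ZMod m) (β : Fin 3 → ZMod m) (K K' : KI k × KI k → ZMod m)
    (x : KI k → ZMod m) (y : Fin 3 → ZMod m) : Prop :=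
  Cons T x →
  (∀ l, l ≠ i → A v (T l) → ∑ c, (β c - α (l, c)) * (y c - x (l, c)) = 0) →
  Pins v y →
  Kills K' (fun lc => if lc.1 = i then y lc.2 else x lc) →
    Kills K x ∧ ((∀ lc, x lc = 0) → ∀ c, y c = 0)

/-- Relations on states: modulus minus one, two numbers, pebbles, coordinates, matrix. -/
abbrev StRel (k : ℕ) : Type :=
  ℕ → ℕ → ℕ → (Fin k → ℕ) → (KI k → ℕ) → (KI k × KI k → ℕ) → Prop

/-- Auxiliary variables of the first rule. -/
abbrev L1 (k : ℕ) : Type := Fin 2 ⊕ (Fin 3 ⊕ (KI k × KI k))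

/-- Auxiliary variables of the second rule. -/
abbrev L2 (k : ℕ) : Type := (KI k × KI k) ⊕ (KI k × KI k)

instance (priority := 2000) decKI (k : ℕ) : DecidableEq (KI k) := inferInstance
instance (priority := 2000) decL1 (k : ℕ) : DecidableEq (L1 k) := inferInstance
instance (priority := 2000) decL2 (k : ℕ) : DecidableEq (L2 k) := inferInstance
instance (priority := 2000) decSum {α β : Type} [DecidableEq α] [DecidableEq β] :
    DecidableEq (α ⊕ β) := instDecidableEqSum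
instance (priority := 2000) finKI (k : ℕ) : Fintype (KI k) := inferInstance
instance (priority := 2000) finL1 (k : ℕ) : Fintype (L1 k) := inferInstance
instance (priority := 2000) finL2 (k : ℕ) : Fintype (L2 k) := inferInstance

/-- Rule for one component: move a pebble into it. -/
def R1 (k D N : ℕ) (A : ℕ → ℕ → Prop) (XX : StRel k) (q z : ℕ) (T : Fin k → ℕ)
    (α : KI k → ℕ) (K : KI k × KI k → ℕ) : Prop :=
  ∃ i : Fin k, ((∃ l, l ≠ i ∧ T l = T i) ∨ ∀ y, Comp N A T z y → ¬ A y (T i)) ∧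
    ∃ t : L1 k → ℕ, (∀ l, t l < N ^ D) ∧
      (Comp N A T z (t (.inl 0)) ∧ t (.inl 1) + 1 = N ∧
      XX q (t (.inl 0)) (t (.inl 1)) (fun l => if l = i then t (.inl 0) else T l)
        (fun lc => if lc.1 = i then t (.inr (.inl lc.2)) else α lc)
        (fun x => t (.inr (.inr x))) ∧
      ∀ xy : KI k ⊕ Fin 3 → ZMod (q + 1), ProjAt A T i (t (.inl 0))
        (fun x => (α x : ZMod (q + 1))) (fun c => (t (.inr (.inl c)) : ZMod (q + 1)))
        (fun x => (K x : ZMod (q + 1))) (fun x => (t (.inr (.inr x)) : ZMod (q + 1)))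
        (fun x => xy (.inl x)) (fun c => xy (.inr c)))

/-- Rule for the union of components. -/
def RX (k D N : ℕ) (A : ℕ → ℕ → Prop) (XX : StRel k) (q v j : ℕ) (T : Fin k → ℕ)
    (α : KI k → ℕ) (K : KI k × KI k → ℕ) : Prop :=
  (q + 1).Prime ∧ Cons T (fun x => (α x : ZMod (q + 1))) ∧
  ∃ t : L2 k → ℕ, (∀ l, t l < N ^ D) ∧
    (((j = 0 ∧ ∀ x, (t (.inl x) : ZMod (q + 1)) = 0) ∨
      ∃ j' < N ^ D, j = j' + 1 ∧ XX q v j' T α (fun x => t (.inl x))) ∧
    ((¬ IsNew N A T v j ∧ ∀ x, (t (.inr x) : ZMod (q + 1)) = 0) ∨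
      (IsNew N A T v j ∧ R1 k D N A XX q j T α (fun x => t (.inr x)))) ∧
    ∀ x : KI k → ZMod (q + 1), Cons T x → Kills (fun x => (t (.inl x) : ZMod (q + 1))) x →
      Kills (fun x => (t (.inr x) : ZMod (q + 1))) x → Kills (fun x => (K x : ZMod (q + 1))) x)

/-- Acceptance. -/
def Acc (k D N : ℕ) (A : ℕ → ℕ → Prop) (XX : StRel k) : Prop :=
  (∃ (q v j : ℕ) (T : Fin k → ℕ) (α : KI k → ℕ) (K : KI k × KI k → ℕ),
    (q < N ^ D ∧ v < N ^ D ∧ j < N ^ D ∧ (∀ l, T l < N ^ D) ∧ (∀ x, α x < N ^ D) ∧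
      ∀ x, K x < N ^ D) ∧ (v = 0 ∧ j + 1 = N ∧ (∀ l, T l = 0) ∧ XX q v j T α K)) ∧
  ∀ (T : Fin k → ℕ), (∀ l, T l = 0) → ∀ y < N, y ≠ 0 → ∃ y1, Comp N A T y y1 ∧ A 0 y1

/-- Closure under the rule. -/
def Closed (k D N : ℕ) (A : ℕ → ℕ → Prop) (XX : StRel k) : Prop :=
  ∀ q v j T α K, q < N ^ D → v < N ^ D → j < N ^ D → (∀ l, T l < N ^ D) →
    (∀ x, α x < N ^ D) → (∀ x, K x < N ^ D) → RX k D N A XX q v j T α K → XX q v j T α K

/-- Induction along the rule. -/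
def Inductive (k D N : ℕ) (A : ℕ → ℕ → Prop) (XX : StRel k) : Prop :=
  ∀ P : StRel k, (∀ XX' : StRel k,
    (∀ q v j T α K, q < N ^ D → v < N ^ D → j < N ^ D → (∀ l, T l < N ^ D) →
      (∀ x, α x < N ^ D) → (∀ x, K x < N ^ D) → XX' q v j T α K → P q v j T α K) →
    (∀ q v j T α K, q < N ^ D → v < N ^ D → j < N ^ D → (∀ l, T l < N ^ D) →
      (∀ x, α x < N ^ D) → (∀ x, K x < N ^ D) → RX k D N A XX' q v j T α K → P q v j T α K)) →
  ∀ q v j T α K, q < N ^ D → v < N ^ D → j < N ^ D → (∀ l, T l < N ^ D) →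
      (∀ x, α x < N ^ D) → (∀ x, K x < N ^ D) → XX q v j T α K → P q v j T α K

end Pool.Agent.Lib.MP_37c7bf_co_h26tw

end DpPart

section SemPart

/-! # Components and the meaning of the states -/

namespace Pool.Agent.Lib.MP_37c7bf_co_h26tw

open Function

set_option linter.unusedSectionVars false

section Comp

variable {N : ℕ} {A : ℕ → ℕ → Prop} {k : ℕ} {T : Fin k → ℕ} {x y z v : ℕ}

theorem Comp.refl (h1 : z < N) (h2 : ∀ l, z ≠ T l) : Comp N A T z z :=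
  ⟨h1, h2, Relation.ReflTransGen.refl⟩

theorem Comp.tail (h : Comp N A T z y) (h1 : A y x) (h2 : ∀ l, x ≠ T l) : Comp N A T z x :=
  ⟨h.1, h.2.1, h.2.2.tail ⟨h1, h2⟩⟩

theorem Comp.notT (h : Comp N A T z y) : ∀ l, y ≠ T l := by
  rcases Relation.ReflTransGen.cases_tail h.2.2 with h' | ⟨b, _, _, hb⟩
  · exact h' ▸ h.2.1
  · exact hb

theorem Comp.lt' (hA : ∀ x y, A x y → y < N) (h : Comp N A T z y) : y < N := by
  rcases Relation.ReflTransGen.cases_tail h.2.2 with h' | ⟨b, _, hb, _⟩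
  · exact h' ▸ h.1
  · exact hA _ _ hb

theorem Comp.trans (h : Comp N A T z y) (h' : Comp N A T y x) : Comp N A T z x :=
  ⟨h.1, h.2.1, h.2.2.trans h'.2.2⟩

theorem Comp.symm (hs : ∀ x y, A x y → A y x) (hA : ∀ x y, A x y → y < N)
    (h : Comp N A T z y) : Comp N A T y z := by
  obtain ⟨h1, h2, h3⟩ := h
  induction h3 with
  | refl => exact Comp.refl h1 h2
  | tail hb hbc ih =>
    rename_i b c
    refine Comp.trans (y := b) ?_ ih
    exact (Comp.refl (hA _ _ hbc.1) hbc.2).tail (hs _ _ hbc.1)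
      (Comp.notT ⟨h1, h2, hb⟩)

/-- Induction along a component. -/
theorem Comp.ind {P : ℕ → Prop} (h : Comp N A T z y) (h0 : P z)
    (hP : ∀ a b, Comp N A T z a → P a → A a b → (∀ l, b ≠ T l) → P b) : P y := by
  obtain ⟨h1, h2, h3⟩ := h
  induction h3 with
  | refl => exact h0
  | tail hb hbc ih => exact hP _ _ ⟨h1, h2, hb⟩ ih hbc.1 hbc.2

theorem Reg.zero : Reg N A T v 0 = ∅ := by
  ext y
  simp [Reg]

theorem Reg.lt (hA : ∀ x y, A x y → y < N) {J : ℕ} (h : y ∈ Reg N A T v J) : y < N := h.1.choose_spec.1.1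

theorem Reg.notT {J : ℕ} (h : y ∈ Reg N A T v J) : ∀ l, y ≠ T l := h.1.choose_spec.1.2.1

theorem Reg.closed (hs : ∀ x y, A x y → A y x) (hA : ∀ x y, A x y → y < N) {J : ℕ}
    (h : y ∈ Reg N A T v J) (h1 : A y x) (h2 : ∀ l, x ≠ T l) : x ∈ Reg N A T v J := by
  obtain ⟨⟨y1, g1, g2⟩, z, hz, g3⟩ := h
  have : Comp N A T x y := (Comp.refl (hA _ _ h1) h2).tail (hs _ _ h1) g1.2.1
  exact ⟨⟨y1, this.trans g1, g2⟩, z, hz, this.trans g3⟩

theorem Reg.succ_of_new (hs : ∀ x y, A x y → A y x) (hA : ∀ x y, A x y → y < N) {j : ℕ}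
    (h : IsNew N A T v j) : Reg N A T v (j + 1) = Reg N A T v j ∪ {y | Comp N A T j y} := by
  ext y
  constructor
  · rintro ⟨g1, z, hz, g3⟩
    rcases Nat.lt_succ_iff_lt_or_eq.1 hz with hz | rfl
    · exact Or.inl ⟨g1, z, hz, g3⟩
    · exact Or.inr (g3.symm hs hA)
  · rintro (⟨g1, z, hz, g3⟩ | hy)
    · exact ⟨g1, z, by omega, g3⟩
    · obtain ⟨⟨y1, h1, h2⟩, _⟩ := h
      exact ⟨⟨y1, (hy.symm hs hA).trans h1, h2⟩, j, by omega, hy.symm hs hA⟩

theorem Reg.succ_of_not_new (hs : ∀ x y, A x y → A y x) (hA : ∀ x y, A x y → y < N) {j : ℕ}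
    (h : ¬ IsNew N A T v j) : Reg N A T v (j + 1) = Reg N A T v j := by
  ext y
  constructor
  · rintro ⟨⟨y1, g1, g2⟩, z, hz, g3⟩
    rcases Nat.lt_succ_iff_lt_or_eq.1 hz with hz | rfl
    · exact ⟨⟨y1, g1, g2⟩, z, hz, g3⟩
    · have h1 : ∃ z' < z, Comp N A T z z' := by
        by_contra hc
        push Not at hc
        exact h ⟨⟨y1, (g3.symm hs hA).trans g1, g2⟩, hc⟩
      obtain ⟨z', hz', h2⟩ := h1
      exact ⟨⟨y1, g1, g2⟩, z', hz', g3.trans h2⟩
  · rintro ⟨g1, z, hz, g3⟩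
    exact ⟨g1, z, by omega, g3⟩

theorem new_disj (hs : ∀ x y, A x y → A y x) (hA : ∀ x y, A x y → y < N) {j : ℕ}
    (h : IsNew N A T v j) (hy : Comp N A T j y) : y ∉ Reg N A T v j := by
  rintro ⟨_, z, hz, g3⟩
  exact h.2 z hz (hy.trans g3)

/-- Moving pebble `i`. -/
def mv (T : Fin k → ℕ) (i : Fin k) (v : ℕ) : Fin k → ℕ := fun l => if l = i then v else T l

theorem mv_self {i : Fin k} : mv T i v i = v := by simp [mv]

theorem mv_of_ne {i l : Fin k} (h : l ≠ i) : mv T i v l = T l := by simp [mv, h]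

/-- Pebble `i` is not needed to separate the component of `z`. -/
def Free (N : ℕ) (A : ℕ → ℕ → Prop) (T : Fin k → ℕ) (i : Fin k) (z : ℕ) : Prop :=
  (∃ l, l ≠ i ∧ T l = T i) ∨ ∀ y, Comp N A T z y → ¬ A y (T i)

/-- Neighbours of the component are in it or under another pebble. -/
theorem Free.nbr {i : Fin k} (hf : Free N A T i z) (hy : Comp N A T z y) (h : A y x) :
    Comp N A T z x ∨ ∃ l, l ≠ i ∧ x = T l := by
  by_cases hx : ∀ l, x ≠ T l
  · exact Or.inl (hy.tail h hx)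
  · right
    push Not at hx
    obtain ⟨l, rfl⟩ := hx
    by_cases hl : l = i
    · subst hl
      rcases hf with ⟨l', h1, h2⟩ | hf
      · exact ⟨l', h1, h2.symm⟩
      · exact absurd h (hf y hy)
    · exact ⟨l, hl, rfl⟩

theorem reg_mv (hs : ∀ x y, A x y → A y x) (hA : ∀ x y, A x y → y < N) {i : Fin k}
    (hf : Free N A T i z) (hv : Comp N A T z v) :
    Reg N A (mv T i v) v N = {y | Comp N A T z y} \ {v} := by
  have hstay : ∀ {a b}, Comp N A T z a → A a b → (∀ l, b ≠ mv T i v l) → Comp N A T z b := by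
    intro a b ha hab hb
    rcases hf.nbr ha hab with h | ⟨l, hl, rfl⟩
    · exact h
    · exact absurd (mv_of_ne hl).symm (hb l)
  ext y
  constructor
  · rintro ⟨⟨y1, g1, g2⟩, -⟩
    have hy1 : Comp N A T z y1 := hstay hv g2 g1.notT
    refine ⟨?_, ?_⟩
    · exact (g1.symm hs hA).ind hy1 (fun a b _ ha hab hb => hstay ha hab hb)
    · intro hc
      have := g1.2.1 i
      rw [mv_self] at this
      exact this hc
  · rintro ⟨hy, hyv⟩
    have hyv : y ≠ v := hyv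
    have key : ∀ y, Comp N A T v y → y ≠ v →
        ∃ y1, A v y1 ∧ Comp N A (mv T i v) y1 y := by
      intro y hy
      refine hy.ind (P := fun y => y ≠ v → ∃ y1, A v y1 ∧ Comp N A (mv T i v) y1 y)
        (fun h => absurd rfl h) ?_
      intro a b ha ih hab hb hbv
      have hb' : ∀ l, b ≠ mv T i v l := by
        intro l
        by_cases hl : l = i
        · subst hl; rw [mv_self]; exact hbv
        · rw [mv_of_ne hl]; exact hb l
      by_cases hav : a = v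
      · subst hav
        exact ⟨b, hab, Comp.refl (hA _ _ hab) hb'⟩
      · obtain ⟨y1, h1, h2⟩ := ih hav
        exact ⟨y1, h1, h2.tail hab hb'⟩
    obtain ⟨y1, h1, h2⟩ := key y ((hv.symm hs hA).trans hy) hyv
    have h3 := h2.symm hs hA
    exact ⟨⟨y1, h3, h1⟩, y, h3.1, Comp.refl h3.1 h3.2.1⟩

end Comp

variable {m : ℕ} {N : ℕ} {A : ℕ → ℕ → Prop} {k : ℕ} {T : Fin k → ℕ}

/-- The velocities `u` satisfy all conditions touching `S`. -/
def SatS (A : ℕ → ℕ → Prop) (S : Set ℕ) (p u : ℕ → Fin 3 → ZMod m) : Prop :=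
  (∀ x ∈ S, ∀ y, A x y → ∑ c, (p x c - p y c) * (u x c - u y c) = 0) ∧ ∀ x ∈ S, Pins x (u x)

/-- The meaning of a matrix. -/
def Sem (A : ℕ → ℕ → Prop) (S : Set ℕ) (T : Fin k → ℕ) (α : KI k → ZMod m)
    (K : KI k × KI k → ZMod m) : Prop :=
  ∃ p : ℕ → Fin 3 → ZMod m, (∀ l c, p (T l) c = α (l, c)) ∧ ∀ u, SatS A S p u →
    Kills K (fun lc => u (T lc.1) lc.2) ∧
      ((∀ l c, u (T l) c = 0) → ∀ x ∈ S, ∀ c, u x c = 0)

/-- Pinned rigidity. -/
def PR (N : ℕ) (A : ℕ → ℕ → Prop) (p : ℕ → Fin 3 → ZMod m) : Prop :=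
  ∀ u : ℕ → Fin 3 → ZMod m, (∀ x y, A x y → ∑ c, (p x c - p y c) * (u x c - u y c) = 0) →
    (∀ x < N, Pins x (u x)) → ∀ x < N, ∀ c, u x c = 0

end Pool.Agent.Lib.MP_37c7bf_co_h26tw

end SemPart
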