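import Pool.Agent.Lib.MP_35885f_co.Tree
import Pool.Agent.Lib.MP_37c7bf_co_h26tw.Dp

section ComplPart

/-! # Completeness of the dynamic programme -/

namespace Pool.Agent.Lib.MP_37c7bf_co_h26tw

open Function

set_option linter.unusedSectionVars false

variable {N : ℕ} {A : ℕ → ℕ → Prop} {k : ℕ}

/-- A square matrix with a given kernel. -/
theorem exists_matrix {q : ℕ} (hq : (q + 1).Prime) (W : Submodule (ZMod (q + 1)) (KI k → ZMod (q + 1))) :
    ∃ K : KI k × KI k → ZMod (q + 1), ∀ x, Kills K x ↔ x ∈ W := by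
  classical
  have : Fact (q + 1).Prime := ⟨hq⟩
  obtain ⟨W', hW⟩ := W.exists_isCompl
  set f : (KI k → ZMod (q + 1)) →ₗ[ZMod (q + 1)] (KI k → ZMod (q + 1)) :=
    Submodule.projection W' W hW.symm with hf
  refine ⟨fun rc => LinearMap.toMatrix' f rc.1 rc.2, fun x => ?_⟩
  have h1 : ∀ r, ∑ c, LinearMap.toMatrix' f r c * x c = f x r := by
    intro r
    have := congrFun (congrArg (fun g => g x) (Matrix.toLin'_toMatrix' f)) r
    rw [← this]
    rfl
  have h2 : f x = 0 ↔ x ∈ W := by
    rw [← LinearMap.mem_ker, hf, Submodule.ker_projection]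
  rw [← h2]
  unfold Kills
  simp only [h1]
  exact funext_iff.symm

/-- The velocities of the pebbles extendable to `S`, as the kernel of a matrix of numbers. -/
theorem exists_exact {q M : ℕ} (hq : (q + 1).Prime) (hM : q < M) (S : Set ℕ) (T : Fin k → ℕ)
    (p : ℕ → Fin 3 → ZMod (q + 1)) :
    ∃ K : KI k × KI k → ℕ, (∀ x, K x < M) ∧ ∀ x : KI k → ZMod (q + 1),
      Kills (fun x => ((K x : ℕ) : ZMod (q + 1))) x ↔
        ∃ u, SatS A S p u ∧ ∀ l c, u (T l) c = x (l, c) := by
  set W : Submodule (ZMod (q + 1)) (KI k → ZMod (q + 1)) :=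
    { carrier := {x | ∃ u, SatS A S p u ∧ ∀ l c, u (T l) c = x (l, c)}
      zero_mem' := ⟨0, ⟨by simp, by intro x _ c _; rfl⟩, by intro l c; rfl⟩
      add_mem' := by
        rintro x y ⟨u, ⟨hu1, hu2⟩, hu3⟩ ⟨w, ⟨hw1, hw2⟩, hw3⟩
        refine ⟨u + w, ⟨fun a ha b hab => ?_, fun a ha c hc => ?_⟩, fun l c => ?_⟩
        · have h3 : ∑ c, (p a c - p b c) * ((u + w) a c - (u + w) b c) =
              ∑ c, (p a c - p b c) * (u a c - u b c) +
                ∑ c, (p a c - p b c) * (w a c - w b c) := by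
            rw [← Finset.sum_add_distrib]
            refine Finset.sum_congr rfl fun c _ => ?_
            simp only [Pi.add_apply]
            ring
          rw [h3, hu1 a ha b hab, hw1 a ha b hab, add_zero]
        · simp [hu2 a ha c hc, hw2 a ha c hc]
        · simp [hu3, hw3]
      smul_mem' := by
        rintro s x ⟨u, ⟨hu1, hu2⟩, hu3⟩
        refine ⟨s • u, ⟨fun a ha b hab => ?_, fun a ha c hc => ?_⟩, fun l c => ?_⟩
        · have h3 : ∑ c, (p a c - p b c) * ((s • u) a c - (s • u) b c) =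
              s * ∑ c, (p a c - p b c) * (u a c - u b c) := by
            rw [Finset.mul_sum]
            refine Finset.sum_congr rfl fun c _ => ?_
            simp only [Pi.smul_apply, smul_eq_mul]
            ring
          rw [h3, hu1 a ha b hab, mul_zero]
        · simp [hu2 a ha c hc]
        · simp [hu3] } with hW
  obtain ⟨K, hK⟩ := exists_matrix hq W
  refine ⟨fun x => (K x).val, fun x => ?_, fun x => ?_⟩
  · have h1 : (K x).val < q + 1 := ZMod.val_lt (K x)
    have h2 : (fun x => (K x).val) x = (K x).val := rfl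
    omega
  · have e : (fun x => (((K x).val : ℕ) : ZMod (q + 1))) = K := by
      funext x
      exact ZMod.natCast_zmod_val _
    rw [e, hK]
    rfl

/-- Gluing velocities. -/
theorem glue {q : ℕ} {p : ℕ → Fin 3 → ZMod (q + 1)} {T : Fin k → ℕ} (S1 S2 : Set ℕ)
    (hd : ∀ x ∈ S2, x ∉ S1) (hT2 : ∀ x ∈ S2, ∀ l, x ≠ T l)
    (hn1 : ∀ x ∈ S1, ∀ y, A x y → y ∈ S1 ∨ ∃ l, y = T l)
    (hn2 : ∀ x ∈ S2, ∀ y, A x y → y ∈ S2 ∨ ∃ l, y = T l) {x : KI k → ZMod (q + 1)}
    (h1 : ∃ u, SatS A S1 p u ∧ ∀ l c, u (T l) c = x (l, c))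
    (h2 : ∃ u, SatS A S2 p u ∧ ∀ l c, u (T l) c = x (l, c)) :
    ∃ u, SatS A (S1 ∪ S2) p u ∧ ∀ l c, u (T l) c = x (l, c) := by
  classical
  obtain ⟨u1, s1, r1⟩ := h1
  obtain ⟨u2, s2, r2⟩ := h2
  set u : ℕ → Fin 3 → ZMod (q + 1) := fun x => if x ∈ S2 then u2 x else u1 x with hu
  have e2 : ∀ x ∈ S2, u x = u2 x := fun x hx => by simp [hu, hx]
  have e1 : ∀ x ∈ S1, u x = u1 x := fun x hx => by
    have : x ∉ S2 := fun h => hd x h hx
    simp [hu, this]
  have eT1 : ∀ l, u (T l) = u1 (T l) := fun l => by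
    have : T l ∉ S2 := fun h => hT2 _ h l rfl
    simp [hu, this]
  have eT2 : ∀ l, u (T l) = u2 (T l) := fun l => by
    rw [eT1]
    funext c
    rw [r1, r2]
  refine ⟨u, ⟨?_, ?_⟩, fun l c => by rw [eT1, r1]⟩
  · rintro a (ha | ha) b hab
    · have eb : u b = u1 b := by
        rcases hn1 a ha b hab with h | ⟨l, rfl⟩
        · exact e1 b h
        · exact eT1 l
      rw [e1 a ha, eb]
      exact s1.1 a ha b hab
    · have eb : u b = u2 b := by
        rcases hn2 a ha b hab with h | ⟨l, rfl⟩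
        · exact e2 b h
        · exact eT2 l
      rw [e2 a ha, eb]
      exact s2.1 a ha b hab
  · rintro a (ha | ha)
    · rw [e1 a ha]; exact s1.2 a ha
    · rw [e2 a ha]; exact s2.2 a ha

/-- The coordinates of the pebbles. -/
def cf {q : ℕ} (p : ℕ → Fin 3 → ZMod (q + 1)) (T : Fin k → ℕ) : KI k → ℕ :=
  fun lc => (p (T lc.1) lc.2).val

theorem cf_lt {q M : ℕ} (hM : q < M) (p : ℕ → Fin 3 → ZMod (q + 1)) (T : Fin k → ℕ) (x) :
    cf p T x < M := by
  have h1 : (p (T x.1) x.2).val < q + 1 := ZMod.val_lt _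
  unfold cf
  omega

theorem cast_cf {q : ℕ} (p : ℕ → Fin 3 → ZMod (q + 1)) (T : Fin k → ℕ) :
    (fun x => ((cf p T x : ℕ) : ZMod (q + 1))) = fun lc : KI k => p (T lc.1) lc.2 := by
  funext x
  exact ZMod.natCast_zmod_val _

/-- The velocities of the pebbles extendable to `S` are killed. -/
def Implied {q : ℕ} (A : ℕ → ℕ → Prop) (S : Set ℕ) (T : Fin k → ℕ)
    (p : ℕ → Fin 3 → ZMod (q + 1)) (K : KI k × KI k → ℕ) : Prop :=
  ∀ u, SatS A S p u → Kills (fun x => ((K x : ℕ) : ZMod (q + 1))) (fun lc => u (T lc.1) lc.2)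

/-- Invariant: neighbours of the component come later in the order than the component. -/
def Inv (N : ℕ) (A : ℕ → ℕ → Prop) (τ : ℕ → ℕ) (T : Fin k → ℕ) (z : ℕ) : Prop :=
  ∀ y y' l, Comp N A T z y → A y (T l) → Comp N A T z y' → τ y' < τ (T l)

/-- The statement about components proved by induction. -/
def ClaimC {q : ℕ} (k D N : ℕ) (A : ℕ → ℕ → Prop) (XX : StRel k) (τ : ℕ → ℕ)
    (p : ℕ → Fin 3 → ZMod (q + 1)) (M : ℕ) : Prop :=
  ∀ (T : Fin k → ℕ) (z : ℕ) (K : KI k × KI k → ℕ), (∀ l, T l < N ^ D) → (∀ x, K x < N ^ D) →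
    Comp N A T z z → (∀ y, Comp N A T z y → τ y < M) → Inv N A τ T z →
    Implied A {y | Comp N A T z y} T p K → R1 k D N A XX q z T (cf p T) K

section

variable {q D : ℕ} {XX : StRel k} {τ : ℕ → ℕ} {p : ℕ → Fin 3 → ZMod (q + 1)}

theorem exists_ext {m : ℕ} {T : Fin k → ℕ} {x : KI k → ZMod m} (hx : Cons T x) :
    ∃ u : ℕ → Fin 3 → ZMod m, ∀ l c, u (T l) c = x (l, c) := by
  classical
  refine ⟨fun a c => if h : ∃ l, T l = a then x (h.choose, c) else 0, ?_⟩
  intro l c
  have h : ∃ l', T l' = T l := ⟨l, rfl⟩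
  simp only [dif_pos h]
  exact hx _ _ h.choose_spec c

theorem compl_step (hs : ∀ x y, A x y → A y x) (hA : ∀ x y, A x y → y < N)
    (hN : N ≤ N ^ D) (hq : (q + 1).Prime) (hqD : q < N ^ D) (hcl : Closed k D N A XX) {M : ℕ}
    (hC : ClaimC k D N A XX τ p M) {T : Fin k → ℕ} {v : ℕ} (hT : ∀ l, T l < N ^ D)
    (hv : v < N ^ D) {j : ℕ} (hj : j < N)
    (hcomp : IsNew N A T v j → (∀ y, Comp N A T j y → τ y < M) ∧ Inv N A τ T j)
    (hK1 : ∃ K1 : KI k × KI k → ℕ, (∀ x, K1 x < N ^ D) ∧
      ((j = 0 ∧ ∀ x, ((K1 x : ℕ) : ZMod (q + 1)) = 0) ∨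
        ∃ j' < N ^ D, j = j' + 1 ∧ XX q v j' T (cf p T) K1) ∧
      ∀ x, Cons T x → Kills (fun x => ((K1 x : ℕ) : ZMod (q + 1))) x →
        ∃ u, SatS A (Reg N A T v j) p u ∧ ∀ l c, u (T l) c = x (l, c))
    {K : KI k × KI k → ℕ} (hK : ∀ x, K x < N ^ D)
    (hKi : Implied A (Reg N A T v (j + 1)) T p K) : XX q v j T (cf p T) K := by
  obtain ⟨K1, hK1a, hK1b, hK1c⟩ := hK1
  have hpos : 0 < N ^ D := lt_of_le_of_lt (Nat.zero_le _) hv
  have hK2 : ∃ K2 : KI k × KI k → ℕ, (∀ x, K2 x < N ^ D) ∧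
      ((¬ IsNew N A T v j ∧ ∀ x, ((K2 x : ℕ) : ZMod (q + 1)) = 0) ∨
        (IsNew N A T v j ∧ R1 k D N A XX q j T (cf p T) K2)) ∧
      ∀ x, Cons T x → (∃ u, SatS A (Reg N A T v j) p u ∧ ∀ l c, u (T l) c = x (l, c)) →
        Kills (fun x => ((K2 x : ℕ) : ZMod (q + 1))) x →
        ∃ u, SatS A (Reg N A T v (j + 1)) p u ∧ ∀ l c, u (T l) c = x (l, c) := by
    by_cases hnew : IsNew N A T v j
    · obtain ⟨K2, hK2a, hK2b⟩ := exists_exact (A := A) hq hqD {y | Comp N A T j y} T p
      obtain ⟨hc1, hc2⟩ := hcomp hnew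
      refine ⟨K2, hK2a, Or.inr ⟨hnew, ?_⟩, fun x hx h1 h2 => ?_⟩
      · refine hC T j K2 hT hK2a ?_ hc1 hc2 ?_
        · obtain ⟨y, hy, _⟩ := hnew.1
          exact Comp.refl hy.1 hy.2.1
        · intro u hu
          exact (hK2b _).2 ⟨u, hu, fun l c => rfl⟩
      · rw [Reg.succ_of_new hs hA hnew]
        refine glue _ _ (fun x hx => new_disj hs hA hnew hx) (fun x hx => Comp.notT hx) ?_ ?_ h1
          ((hK2b x).1 h2)
        · intro x hx y hxy
          by_cases hy : ∀ l, y ≠ T l
          · exact Or.inl (Reg.closed hs hA hx hxy hy)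
          · push Not at hy; exact Or.inr hy
        · intro x hx y hxy
          by_cases hy : ∀ l, y ≠ T l
          · exact Or.inl (Comp.tail hx hxy hy)
          · push Not at hy; exact Or.inr hy
    · refine ⟨fun _ => 0, fun _ => hpos, Or.inl ⟨hnew, by simp⟩, fun x _ h1 _ => ?_⟩
      rw [Reg.succ_of_not_new hs hA hnew]
      exact h1
  obtain ⟨K2, hK2a, hK2b, hK2c⟩ := hK2
  refine hcl q v j T (cf p T) K hqD hv (lt_of_lt_of_le hj hN) hT (cf_lt hqD p T) hK
    ⟨hq, ?_, Sum.elim K1 K2, ?_, hK1b, hK2b, ?_⟩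
  · rw [cast_cf]
    intro l l' h c
    simp [h]
  · rintro (x | x)
    · exact hK1a x
    · exact hK2a x
  · intro x hx h1 h2
    obtain ⟨u, hu1, hu2⟩ := hK2c x hx (hK1c x hx h1) h2
    have := hKi u hu1
    have e : (fun lc : KI k => u (T lc.1) lc.2) = x := by
      funext lc
      exact hu2 lc.1 lc.2
    rwa [e] at this

theorem compl_xx (hs : ∀ x y, A x y → A y x) (hA : ∀ x y, A x y → y < N)
    (hN : N ≤ N ^ D) (hq : (q + 1).Prime) (hqD : q < N ^ D) (hcl : Closed k D N A XX) {M : ℕ}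
    (hC : ClaimC k D N A XX τ p M) {T : Fin k → ℕ} {v : ℕ} (hT : ∀ l, T l < N ^ D)
    (hv : v < N ^ D)
    (hcomp : ∀ j, IsNew N A T v j → (∀ y, Comp N A T j y → τ y < M) ∧ Inv N A τ T j) :
    ∀ j < N, ∀ K : KI k × KI k → ℕ, (∀ x, K x < N ^ D) →
      Implied A (Reg N A T v (j + 1)) T p K → XX q v j T (cf p T) K := by
  have hpos : 0 < N ^ D := lt_of_le_of_lt (Nat.zero_le _) hv
  intro j
  induction j with
  | zero =>
    intro hj K hK hKi
    refine compl_step hs hA hN hq hqD hcl hC hT hv hj (hcomp 0) ?_ hK hKi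
    refine ⟨fun _ => 0, fun _ => hpos, Or.inl ⟨rfl, by simp⟩, fun x hx _ => ?_⟩
    obtain ⟨u, hu⟩ := exists_ext hx
    rw [Reg.zero]
    exact ⟨u, ⟨by simp, by simp⟩, hu⟩
  | succ j ih =>
    intro hj K hK hKi
    refine compl_step hs hA hN hq hqD hcl hC hT hv hj (hcomp _) ?_ hK hKi
    obtain ⟨K1, hK1a, hK1b⟩ := exists_exact (A := A) hq hqD (Reg N A T v (j + 1)) T p
    refine ⟨K1, hK1a, Or.inr ⟨j, by omega, rfl, ih (by omega) K1 hK1a ?_⟩,
      fun x _ hx => (hK1b x).1 hx⟩
    intro u hu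
    exact (hK1b _).2 ⟨u, hu, fun l c => rfl⟩

/-- The order separates: not all pebbles can be needed. -/
def Sep (k N : ℕ) (A : ℕ → ℕ → Prop) (τ : ℕ → ℕ) : Prop :=
  ∀ (T : Fin k → ℕ) (z v : ℕ), Comp N A T z v → (∀ y, Comp N A T z y → τ y ≤ τ v) →
    ¬ (Injective T ∧ ∀ l, (∃ y, Comp N A T z y ∧ A y (T l)) ∧ τ v < τ (T l))

theorem claimC (hs : ∀ x y, A x y → A y x) (hA : ∀ x y, A x y → y < N)
    (hirr : ∀ x, ¬ A x x)
    (hN : N ≤ N ^ D) (hq : (q + 1).Prime) (hqD : q < N ^ D) (hcl : Closed k D N A XX)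
    (hinj : ∀ x < N, ∀ y < N, τ x = τ y → x = y) (hsep : Sep k N A τ) (hPR : PR N A p)
    (M : ℕ) : ClaimC k D N A XX τ p M := by
  classical
  induction M using Nat.strong_induction_on with
  | _ M ihM =>
  intro T z K hT hK hz hM hinv hKi
  -- the last vertex of the component
  obtain ⟨v, hv, hmax⟩ : ∃ v, Comp N A T z v ∧ ∀ y, Comp N A T z y → τ y ≤ τ v := by
    obtain ⟨v, hv, hmax⟩ := Finset.exists_max_image
      ((Finset.range N).filter fun y => Comp N A T z y) τ
      ⟨z, Finset.mem_filter.2 ⟨Finset.mem_range.2 hz.1, hz⟩⟩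
    refine ⟨v, (Finset.mem_filter.1 hv).2, fun y hy => hmax y ?_⟩
    exact Finset.mem_filter.2 ⟨Finset.mem_range.2 (hy.lt' hA), hy⟩
  have hvN : v < N := hv.lt' hA
  have hvD : v < N ^ D := lt_of_lt_of_le hvN hN
  obtain ⟨i, hf⟩ : ∃ i, Free N A T i z := by
    by_contra hc
    push Not at hc
    apply hsep T z v hv hmax
    refine ⟨?_, fun l => ?_⟩
    · intro a b hab
      by_contra hne
      exact hc b (Or.inl ⟨a, hne, hab⟩)
    · have h1 : ¬ ∀ y, Comp N A T z y → ¬ A y (T l) := fun h => hc l (Or.inr h)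
      push Not at h1
      obtain ⟨y, hy1, hy2⟩ := h1
      exact ⟨⟨y, hy1, hy2⟩, hinv y v l hy1 hy2 hv⟩
  set T' : Fin k → ℕ := mv T i v with hT'
  have hT'D : ∀ l, T' l < N ^ D := by
    intro l
    by_cases hl : l = i
    · rw [hl, hT', mv_self]; exact hvD
    · rw [hT', mv_of_ne hl]; exact hT l
  obtain ⟨K', hK'a, hK'b⟩ := exists_exact (A := A) hq hqD (Reg N A T' v N) T' p
  have hreg := reg_mv hs hA hf hv
  have hxx : XX q v (N - 1) T' (cf p T') K' := by
    have hcomp : ∀ j, IsNew N A T' v j →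
        (∀ y, Comp N A T' j y → τ y < τ v) ∧ Inv N A τ T' j := by
      intro j hj
      have hin : ∀ y, Comp N A T' j y → Comp N A T z y ∧ y ≠ v := by
        intro y hy
        obtain ⟨y1, hy1, hy2⟩ := hj.1
        have : y ∈ Reg N A T' v N :=
          ⟨⟨y1, (hy.symm hs hA).trans hy1, hy2⟩, j, hy.1, hy.symm hs hA⟩
        rw [hreg] at this
        exact ⟨this.1, this.2⟩
      have hlt : ∀ y, Comp N A T' j y → τ y < τ v := by
        intro y hy
        obtain ⟨h1, h2⟩ := hin y hy
        have h3 := hmax y h1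
        have h4 : τ y ≠ τ v := fun h => h2 (hinj y (h1.lt' hA) v hvN h)
        omega
      refine ⟨hlt, ?_⟩
      intro y y' l hy hyl hy'
      by_cases hl : l = i
      · rw [hl, hT', mv_self]; exact hlt y' hy'
      · rw [hT', mv_of_ne hl] at hyl ⊢
        exact hinv y y' l (hin y hy).1 hyl (hin y' hy').1
    have hNpos : 0 < N := by omega
    have := compl_xx hs hA hN hq hqD hcl (ihM (τ v) (hM v hv)) hT'D hvD hcomp (N - 1) (by omega)
      K' hK'a ?_
    · exact this
    · rw [Nat.sub_add_cancel hNpos]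
      intro u hu
      exact (hK'b _).2 ⟨u, hu, fun l c => rfl⟩
  have hNpos : 0 < N := by omega
  refine ⟨i, hf, Sum.elim ![v, N - 1] (Sum.elim (fun c => (p v c).val) K'), ?_, hv, ?_, ?_, ?_⟩
  · rintro (l | l | l)
    · fin_cases l
      · exact hvD
      · change N - 1 < N ^ D; omega
    · have h1 : (p v l).val < q + 1 := ZMod.val_lt _
      change (p v l).val < N ^ D
      omega
    · exact hK'a l
  · change N - 1 + 1 = N; omega
  · have e : (fun lc : KI k => if lc.1 = i then (p v lc.2).val else cf p T lc) = cf p T' := by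
      funext lc
      by_cases hl : lc.1 = i
      · simp [cf, hT', hl, mv]
      · simp [cf, hT', hl, mv]
    change XX q v (N - 1) T' (fun lc : KI k => if lc.1 = i then (p v lc.2).val else cf p T lc) K'
    rw [e]
    exact hxx
  · intro xy
    change ProjAt A T i v (fun x => ((cf p T x : ℕ) : ZMod (q + 1)))
      (fun c => (((p v c).val : ℕ) : ZMod (q + 1))) (fun x => (K x : ZMod (q + 1)))
      (fun x => (K' x : ZMod (q + 1))) (fun x => xy (.inl x)) (fun c => xy (.inr c))
    have ev : (fun c => (((p v c).val : ℕ) : ZMod (q + 1))) = p v := by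
      funext c
      exact ZMod.natCast_zmod_val _
    rw [cast_cf, ev]
    intro hcons hloc hpins hkill
    set x : KI k → ZMod (q + 1) := fun x => xy (.inl x) with hx
    set y : Fin 3 → ZMod (q + 1) := fun c => xy (.inr c) with hy
    obtain ⟨u', hu', hu'T⟩ := (hK'b _).1 hkill
    rw [hreg] at hu'
    have hu1 : ∀ l, l ≠ i → ∀ c, u' (T l) c = x (l, c) := by
      intro l hl c
      have := hu'T l c
      rw [hT', mv_of_ne hl] at this
      simpa [hl] using this
    have hu2 : ∀ c, u' v c = y c := by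
      intro c
      have := hu'T i c
      rw [hT', mv_self] at this
      simpa using this
    set u : ℕ → Fin 3 → ZMod (q + 1) := update u' (T i) (fun c => x (i, c)) with hu
    have e1 : ∀ a, Comp N A T z a → u a = u' a := by
      intro a ha
      rw [hu, update_of_ne (ha.notT i)]
    have e2 : ∀ l c, u (T l) c = x (l, c) := by
      intro l c
      by_cases hli : T l = T i
      · rw [hu, hli, update_self]
        exact hcons i l hli.symm c
      · rw [hu, update_of_ne hli]
        exact hu1 l (fun h => hli (by rw [h])) c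
    have e3 : ∀ a b, Comp N A T z a → A a b → u b = u' b := by
      intro a b ha hab
      rcases hf.nbr ha hab with h | ⟨l, hl, rfl⟩
      · exact e1 b h
      · funext c
        rw [e2, hu1 l hl]
    have huS : SatS A {y | Comp N A T z y} p u := by
      constructor
      · intro a ha b hab
        have ha : Comp N A T z a := ha
        by_cases hav : a = v
        · subst hav
          rcases hf.nbr ha hab with h | ⟨l, hl, rfl⟩
          · have hba : b ≠ a := fun h => hirr a (h ▸ hab)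
            have := hu'.1 b ⟨h, hba⟩ a (hs _ _ hab)
            rw [e1 a ha, e1 b h, ← this]
            refine Finset.sum_congr rfl fun c _ => ?_
            ring
          · have := hloc l hl hab
            rw [← this]
            refine Finset.sum_congr rfl fun c _ => ?_
            rw [e2, e1 a ha, hu2]
        · have := hu'.1 a ⟨ha, hav⟩ b hab
          rw [e1 a ha, e3 a b ha hab]
          exact this
      · intro a ha
        have ha : Comp N A T z a := ha
        by_cases hav : a = v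
        · subst hav
          rw [e1 a ha]
          intro c hc
          rw [hu2]
          exact hpins c hc
        · rw [e1 a ha]
          exact hu'.2 a ⟨ha, hav⟩
    have euT : (fun lc : KI k => u (T lc.1) lc.2) = x := by
      funext lc
      exact e2 lc.1 lc.2
    refine ⟨?_, fun hx0 c => ?_⟩
    · have := hKi u huS
      rwa [euT] at this
    · set w : ℕ → Fin 3 → ZMod (q + 1) := fun a => if Comp N A T z a then u a else 0 with hw
      have hwin : ∀ a, Comp N A T z a → w a = u a := fun a ha => by simp [hw, ha]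
      have hwout : ∀ a, ¬ Comp N A T z a → w a = 0 := fun a ha => by simp [hw, ha]
      have hwnb : ∀ a b, Comp N A T z a → A a b → w b = u b := by
        intro a b ha hab
        by_cases hb : Comp N A T z b
        · exact hwin b hb
        · rcases hf.nbr ha hab with h | ⟨l, hl, rfl⟩
          · exact absurd h hb
          · rw [hwout _ hb]
            funext c
            rw [e2, hx0]
            rfl
      have hw0 := hPR w ?_ ?_ v hvN c
      · rw [hwin v hv, e1 v hv, hu2] at hw0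
        exact hw0
      · intro a b hab
        by_cases ha : Comp N A T z a
        · rw [hwin a ha, hwnb a b ha hab]
          exact huS.1 a ha b hab
        · by_cases hb : Comp N A T z b
          · have := huS.1 b hb a (hs _ _ hab)
            rw [hwin b hb, hwnb b a hb (hs _ _ hab), ← this]
            refine Finset.sum_congr rfl fun c _ => ?_
            ring
          · rw [hwout a ha, hwout b hb]
            simp
      · intro a _
        by_cases ha : Comp N A T z a
        · rw [hwin a ha]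
          exact huS.2 a ha
        · rw [hwout a ha]
          intro c _
          rfl

/-- **Completeness.** -/
theorem complete (hs : ∀ x y, A x y → A y x) (hA : ∀ x y, A x y → y < N)
    (hirr : ∀ x, ¬ A x x) (hk : 0 < k) (hN0 : 0 < N)
    (hN : N ≤ N ^ D) (hq : (q + 1).Prime) (hqD : q < N ^ D) (hcl : Closed k D N A XX)
    (hinj : ∀ x < N, ∀ y < N, τ x = τ y → x = y) (h0 : ∀ x < N, x ≠ 0 → τ x < τ 0)
    (hsep : Sep k N A τ) (hPR : PR N A p) : Acc k D N A XX := by
  classical
  have hpos : 0 < N ^ D := by omega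
  have hTz : ∀ (T : Fin k → ℕ), (∀ l, T l = 0) → ∀ z y, Comp N A T z y → y ≠ 0 := by
    intro T hT z y hy
    have := hy.notT ⟨0, hk⟩
    rwa [hT] at this
  constructor
  · obtain ⟨K, hKa, hKb⟩ := exists_exact (A := A) (k := k) hq hqD
      (Reg N A (fun _ => 0) 0 (N - 1 + 1)) (fun _ => 0) p
    refine ⟨q, 0, N - 1, fun _ => 0, cf p (fun _ => 0), K,
      ⟨hqD, hpos, by omega, fun _ => hpos, cf_lt hqD p _, hKa⟩, rfl, by omega, fun _ => rfl, ?_⟩
    refine compl_xx hs hA hN hq hqD hcl
      (claimC hs hA hirr hN hq hqD hcl hinj hsep hPR (τ 0)) (fun _ => hpos) hpos ?_ (N - 1)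
      (by omega) K hKa ?_
    · intro j _
      refine ⟨fun y hy => h0 y (hy.lt' hA) (hTz _ (fun _ => rfl) _ _ hy), ?_⟩
      intro y y' l _ _ hy'
      exact h0 y' (hy'.lt' hA) (hTz _ (fun _ => rfl) _ _ hy')
    · intro u hu
      exact (hKb _).2 ⟨u, hu, fun l c => rfl⟩
  · intro T hT y hy hy0
    by_contra hc
    push Not at hc
    have hyy : Comp N A T y y := Comp.refl hy (fun l => by rw [hT]; exact hy0)
    set w : ℕ → Fin 3 → ZMod (q + 1) := fun a => if Comp N A T y a then ![0, 0, 1] else 0 with hw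
    have hwin : ∀ a, Comp N A T y a → w a = ![0, 0, 1] := fun a ha => by simp [hw, ha]
    have hwout : ∀ a, ¬ Comp N A T y a → w a = 0 := fun a ha => by simp [hw, ha]
    have hnb : ∀ a b, Comp N A T y a → A a b → Comp N A T y b := by
      intro a b ha hab
      by_cases hb : ∀ l, b ≠ T l
      · exact ha.tail hab hb
      · push Not at hb
        obtain ⟨l, rfl⟩ := hb
        rw [hT] at hab
        exact absurd (hs _ _ hab) (hc a ha)
    have h1 := hPR w ?_ ?_ y hy 2
    · rw [hwin y hyy] at h1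
      have : Fact (q + 1).Prime := ⟨hq⟩
      exact one_ne_zero (α := ZMod (q + 1)) h1
    · intro a b hab
      by_cases ha : Comp N A T y a
      · rw [hwin a ha, hwin b (hnb a b ha hab)]
        simp
      · have hb : ¬ Comp N A T y b := fun hb => ha (hnb b a hb (hs _ _ hab))
        rw [hwout a ha, hwout b hb]
        simp
    · intro a _
      by_cases ha : Comp N A T y a
      · rw [hwin a ha]
        intro c hcp
        rcases hcp with h | ⟨_, h⟩ | ⟨_, h⟩
        · exact absurd h (hTz T hT _ _ ha)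
        · fin_cases c
          · rfl
          · rfl
          · exact absurd rfl h
        · rw [h]; rfl
      · rw [hwout a ha]
        intro c _
        rfl

end

end Pool.Agent.Lib.MP_37c7bf_co_h26tw

end ComplPart

section TwPart

/-! # An elimination order from a tree decomposition -/

namespace Pool.Agent.Lib.MP_37c7bf_co_h26tw

open Function Pool.MP_35885f

set_option linter.unusedSectionVars false

section

variable {ι V : Type} {par : ι → ι} {ρ : ι → ℕ} {bag : ι → Finset V} {top : V → ι}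

theorem rho_iter (hpar : ∀ s, par s ≠ s → ρ s < ρ (par s)) (j : ℕ) (s : ι) :
    ρ s ≤ ρ (par^[j] s) := by
  induction j with
  | zero => exact le_rfl
  | succ j ih =>
    rw [Function.iterate_succ_apply']
    by_cases h : par (par^[j] s) = par^[j] s
    · rw [h]; exact ih
    · exact ih.trans (hpar _ h).le

theorem up (hρ : Injective ρ) (hpar : ∀ s, par s ≠ s → ρ s < ρ (par s))
    (hbag : ∀ v s s', v ∈ bag s → v ∈ bag s' → ρ s < ρ s' → v ∈ bag (par s) ∧ par s ≠ s)
    (htop : ∀ v, v ∈ bag (top v)) (hmax : ∀ v s, v ∈ bag s → ρ s ≤ ρ (top v)) (v : V) (s : ι)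
    (hs : v ∈ bag s) : ∃ j, par^[j] s = top v ∧ ∀ i ≤ j, v ∈ bag (par^[i] s) := by
  obtain ⟨n, hn⟩ : ∃ n, n = ρ (top v) - ρ s := ⟨_, rfl⟩
  induction n using Nat.strong_induction_on generalizing s with
  | _ n ih =>
  by_cases h : s = top v
  · refine ⟨0, h, fun i hi => ?_⟩
    have : i = 0 := by omega
    subst this; exact hs
  · have h1 : ρ s < ρ (top v) :=
      lt_of_le_of_ne (hmax v s hs) (fun hc => h (hρ hc))
    obtain ⟨h2, h3⟩ := hbag v s (top v) hs (htop v) h1
    have h4 := hpar s h3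
    have h5 := hmax v _ h2
    obtain ⟨j, hj1, hj2⟩ := ih (ρ (top v) - ρ (par s)) (by omega) (par s) h2 rfl
    refine ⟨j + 1, by rw [Function.iterate_succ_apply]; exact hj1, fun i hi => ?_⟩
    rcases Nat.eq_zero_or_pos i with hi0 | hi0
    · subst hi0; exact hs
    · obtain ⟨i, rfl⟩ : ∃ i', i = i' + 1 := ⟨i - 1, by omega⟩
      rw [Function.iterate_succ_apply]
      exact hj2 i (by omega)

end

/-- Adjacency on natural numbers. -/
def adjF {n : ℕ} (G : SimpleGraph (Fin n)) (x y : ℕ) : Prop :=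
  ∃ (hx : x < n) (hy : y < n), G.Adj ⟨x, hx⟩ ⟨y, hy⟩

theorem exists_order {n : ℕ} (G : SimpleGraph (Fin n)) (D : TreeDecomp G) (w : ℕ)
    (hw : ∀ x, (D.bag x).card ≤ w + 1) :
    ∃ τ : ℕ → ℕ, (∀ x < n, ∀ y < n, τ x = τ y → x = y) ∧ (∀ x < n, x ≠ 0 → τ x < τ 0) ∧
      Sep (w + 2) n (adjF G) τ := by
  classical
  have hfin := D.fin
  have : Fintype D.ι := Fintype.ofFinite _
  obtain ⟨par, ρ, hρ, hpar, hbag⟩ := exists_rooting D
  have htop : ∀ v : Fin n, ∃ s, v ∈ D.bag s ∧ ∀ s', v ∈ D.bag s' → ρ s' ≤ ρ s := by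
    intro v
    obtain ⟨s0, hs0⟩ := (D.conn v).nonempty
    obtain ⟨s, hs, hmax⟩ := Finset.exists_max_image (Finset.univ.filter fun s => v ∈ D.bag s) ρ
      ⟨s0, by simpa using hs0⟩
    exact ⟨s, (Finset.mem_filter.1 hs).2, fun s' hs' => hmax s' (by simpa using hs')⟩
  choose top htop1 htop2 using htop
  obtain ⟨R, hR⟩ : ∃ R, ∀ s, ρ s ≤ R := by
    refine ⟨Finset.univ.sup ρ, fun s => Finset.le_sup (f := ρ) (Finset.mem_univ s)⟩
  set τ : ℕ → ℕ := fun x => if h : x < n ∧ x ≠ 0 then ρ (top ⟨x, h.1⟩) * n + x else (R + 1) * n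
    with hτ
  have τ1 : ∀ (x : ℕ) (h : x < n) (h0 : x ≠ 0), τ x = ρ (top ⟨x, h⟩) * n + x := by
    intro x h h0
    simp [hτ, h, h0]
  have τ0 : τ 0 = (R + 1) * n := by simp [hτ]
  have τlt : ∀ (x : ℕ) (h : x < n) (h0 : x ≠ 0), τ x < τ 0 := by
    intro x h h0
    rw [τ1 x h h0, τ0]
    have := hR (top ⟨x, h⟩)
    nlinarith
  refine ⟨τ, ?_, τlt, ?_⟩
  · intro x hx y hy hxy
    by_cases h0 : x = 0
    · by_cases h1 : y = 0
      · rw [h0, h1]
      · have := τlt y hy h1
        rw [h0] at hxy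
        omega
    · by_cases h1 : y = 0
      · have := τlt x hx h0
        rw [h1] at hxy
        omega
      · rw [τ1 x hx h0, τ1 y hy h1] at hxy
        have := congrArg (· % n) hxy
        simpa [Nat.mod_eq_of_lt hx, Nat.mod_eq_of_lt hy] using this
  · rintro T z v hv hmax ⟨hinj, hT⟩
    have hA : ∀ x y, adjF G x y → y < n := fun x y h => h.2.1
    have hT0 : τ v < τ 0 := by
      have h1 := (hT 0).2
      obtain ⟨y, -, -, hy, -⟩ := (hT 0).1
      by_cases h0 : T 0 = 0
      · rwa [h0] at h1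
      · exact h1.trans (τlt _ hy h0)
    have hvn : v < n := hv.lt' hA
    have hv0 : v ≠ 0 := by rintro rfl; omega
    have hC0 : ∀ y, Comp n (adjF G) T z y → y ≠ 0 := by
      rintro y hy rfl
      have := hmax 0 hy
      omega
    set s := top ⟨v, hvn⟩ with hs
    have hle : ∀ (y : ℕ) (hy : y < n), Comp n (adjF G) T z y → ρ (top ⟨y, hy⟩) ≤ ρ s := by
      intro y hy hyC
      have h1 := hmax y hyC
      rw [τ1 y hy (hC0 y hyC), τ1 v hvn hv0] at h1
      by_contra hc
      push Not at hc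
      have : (ρ s + 1) * n ≤ ρ (top ⟨y, hy⟩) * n := Nat.mul_le_mul_right _ hc
      nlinarith
    -- all bags of the component are below `s`
    have hbelow : ∀ y, Comp n (adjF G) T v y → ∀ hy : y < n, ∀ s', (⟨y, hy⟩ : Fin n) ∈ D.bag s' →
        ∃ j, par^[j] s' = s := by
      intro y hy
      refine hy.ind (P := fun y => ∀ hy : y < n, ∀ s', (⟨y, hy⟩ : Fin n) ∈ D.bag s' →
        ∃ j, par^[j] s' = s) ?_ ?_
      · intro hv' s' hs'
        obtain ⟨j, hj, _⟩ := up hρ hpar hbag htop1 htop2 _ s' hs'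
        exact ⟨j, hj⟩
      · intro a b ha ih hab hb hbn s' hs'
        obtain ⟨han, hbn', hadj⟩ := hab
        obtain ⟨s1, ha1, hb1⟩ := D.edge _ _ hadj
        obtain ⟨j1, hj1⟩ := ih han s1 ha1
        obtain ⟨j2, hj2, _⟩ := up hρ hpar hbag htop1 htop2 _ s1 hb1
        have hbC : Comp n (adjF G) T z b := hv.trans (ha.tail ⟨han, hbn', hadj⟩ hb)
        have htb : ∃ j, par^[j] (top ⟨b, hbn⟩) = s := by
          rcases Nat.lt_or_ge j1 j2 with h | h
          · refine ⟨0, hρ (le_antisymm (hle b hbn hbC) ?_)⟩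
            have e : par^[j2 - j1] s = top ⟨b, hbn⟩ := by
              rw [← hj1, ← Function.iterate_add_apply, Nat.sub_add_cancel h.le, hj2]
            change ρ s ≤ ρ (top ⟨b, hbn⟩)
            rw [← e]
            exact rho_iter hpar _ _
          · refine ⟨j1 - j2, ?_⟩
            rw [← hj2, ← Function.iterate_add_apply, Nat.sub_add_cancel h, hj1]
        obtain ⟨j3, hj3⟩ := htb
        obtain ⟨j4, hj4, _⟩ := up hρ hpar hbag htop1 htop2 _ s' hs'
        exact ⟨j3 + j4, by rw [Function.iterate_add_apply, hj4, hj3]⟩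
    have hsymm : ∀ x y, adjF G x y → adjF G y x := fun x y ⟨h1, h2, h3⟩ => ⟨h2, h1, h3.symm⟩
    -- the pebbles other than `0` are in the bag of `s`
    have hin : ∀ l, T l ≠ 0 → ∃ h : T l < n, (⟨T l, h⟩ : Fin n) ∈ D.bag s := by
      intro l hl0
      obtain ⟨⟨y, hyC, hyn, hln, hadj⟩, hlt⟩ := hT l
      refine ⟨hln, ?_⟩
      obtain ⟨s1, hy1, hx1⟩ := D.edge _ _ hadj
      obtain ⟨j1, hj1⟩ := hbelow y ((hv.symm hsymm hA).trans hyC) hyn s1 hy1
      obtain ⟨j2, hj2, hj2'⟩ := up hρ hpar hbag htop1 htop2 _ s1 hx1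
      have hge : ρ s ≤ ρ (top ⟨T l, hln⟩) := by
        rw [τ1 v hvn hv0, τ1 _ hln hl0] at hlt
        by_contra hc
        push Not at hc
        have : (ρ (top ⟨T l, hln⟩) + 1) * n ≤ ρ s * n := Nat.mul_le_mul_right _ hc
        nlinarith
      rcases Nat.lt_or_ge j2 j1 with h | h
      · have e : par^[j1 - j2] (top ⟨T l, hln⟩) = s := by
          rw [← hj2, ← Function.iterate_add_apply, Nat.sub_add_cancel h.le, hj1]
        have h1 : ρ (top ⟨T l, hln⟩) ≤ ρ s := by
          rw [← e]; exact rho_iter hpar _ _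
        have h2 : top ⟨T l, hln⟩ = s := hρ (le_antisymm h1 hge)
        rw [← h2]
        exact htop1 _
      · rw [← hj1]
        exact hj2' j1 h
    -- counting
    have hcard : w + 2 ≤ (D.bag s).card := by
      set S : Finset (Fin (w + 2)) := Finset.univ.filter fun l => T l ≠ 0 with hS
      have hS1 : w + 1 ≤ S.card := by
        have h1 : (Finset.univ.filter fun l : Fin (w + 2) => ¬ T l ≠ 0).card ≤ 1 := by
          rw [Finset.card_le_one]
          intro a ha b hb
          simp only [ne_eq, Decidable.not_not, Finset.mem_filter, Finset.mem_univ, true_and]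
            at ha hb
          exact hinj (ha.trans hb.symm)
        have h2 := Finset.card_filter_add_card_filter_not (s := (Finset.univ : Finset (Fin (w + 2))))
          (fun l => T l ≠ 0)
        simp only [Finset.card_univ, Fintype.card_fin] at h2
        have h3 : S.card = (Finset.filter (fun l => T l ≠ 0)
          (Finset.univ : Finset (Fin (w + 2)))).card := by
          rw [hS]
        rw [h3]
        omega
      set f : Fin (w + 2) → Fin n := fun l => if h : T l < n then ⟨T l, h⟩ else ⟨v, hvn⟩ with hf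
      have hfl : ∀ l, T l ≠ 0 → f l ∈ D.bag s ∧ (f l : ℕ) = T l := by
        intro l hl
        obtain ⟨h, hb⟩ := hin l hl
        simp only [hf, dif_pos h]
        exact ⟨hb, trivial⟩
      have hsub : insert (⟨v, hvn⟩ : Fin n) (S.image f) ⊆ D.bag s := by
        intro x hx
        rcases Finset.mem_insert.1 hx with rfl | hx
        · exact htop1 _
        · obtain ⟨l, hl, rfl⟩ := Finset.mem_image.1 hx
          exact (hfl l (Finset.mem_filter.1 hl).2).1
      have hni : (⟨v, hvn⟩ : Fin n) ∉ S.image f := by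
        intro hc
        obtain ⟨l, hl, hlv⟩ := Finset.mem_image.1 hc
        have h1 := (hfl l (Finset.mem_filter.1 hl).2).2
        rw [hlv] at h1
        exact hv.notT l h1
      have hci : (S.image f).card = S.card := by
        apply Finset.card_image_of_injOn
        intro a ha b hb hab
        have h1 := (hfl a (Finset.mem_filter.1 ha).2).2
        have h2 := (hfl b (Finset.mem_filter.1 hb).2).2
        rw [hab] at h1
        exact hinj (h1.symm.trans h2)
      have := Finset.card_le_card hsub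
      rw [Finset.card_insert_of_notMem hni, hci] at this
      omega
    have := hw s
    omega

end Pool.Agent.Lib.MP_37c7bf_co_h26tw

end TwPart
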