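import Pool.Agent.Lib.MP_37c7bf_co_helper26.Generic
import Pool.Agent.Lib.MP_37c7bf_co_h26tw.Dp

section PrimeBoundPart

/-! # A small prime not dividing a given number -/

namespace Pool.Agent.Lib.MP_37c7bf_co_h26tw

/-- If all primes up to `2 m` divide `d ≠ 0` and `d < 2 ^ b` then `4 ^ m < m (2 m) ^ b`. -/
theorem four_pow_lt {m d b : ℕ} (hm : 4 ≤ m) (hd : d ≠ 0) (hdb : d < 2 ^ b)
    (h : ∀ r ≤ 2 * m, r.Prime → r ∣ d) : 4 ^ m < m * (2 * m) ^ b := by
  have h1 := Nat.four_pow_lt_mul_centralBinom m hm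
  refine h1.trans_le (Nat.mul_le_mul_left m ?_)
  set S := (Finset.range (2 * m + 1)).filter Nat.Prime with hS
  have hcard : S.card ≤ b := by
    have h2 : ∏ r ∈ S, r ∣ d := by
      apply Finset.prod_primes_dvd
      · intro r hr
        exact (Finset.mem_filter.1 hr).2.prime
      · intro r hr
        obtain ⟨h3, h4⟩ := Finset.mem_filter.1 hr
        exact h r (by have := Finset.mem_range.1 h3; omega) h4
    have h3 : 2 ^ S.card ≤ ∏ r ∈ S, r := by
      apply Finset.pow_card_le_prod
      intro r hr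
      exact (Finset.mem_filter.1 hr).2.two_le
    have h4 : 2 ^ S.card < 2 ^ b := (h3.trans (Nat.le_of_dvd (Nat.pos_of_ne_zero hd) h2)).trans_lt hdb
    exact ((Nat.pow_lt_pow_iff_right (by norm_num)).1 h4).le
  rw [← Nat.prod_pow_factorization_centralBinom m]
  calc ∏ p ∈ Finset.range (2 * m + 1), p ^ (Nat.centralBinom m).factorization p
      = ∏ p ∈ S, p ^ (Nat.centralBinom m).factorization p := by
        rw [hS, Finset.prod_filter]
        refine Finset.prod_congr rfl fun p _ => ?_
        split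
        · rfl
        · rename_i hp
          rw [Nat.factorization_eq_zero_of_not_prime _ hp, pow_zero]
    _ ≤ ∏ p ∈ S, (2 * m) := by
        apply Finset.prod_le_prod'
        intro p _
        rw [Nat.centralBinom]
        exact Nat.pow_factorization_choose_le (by omega)
    _ = (2 * m) ^ S.card := by simp
    _ ≤ (2 * m) ^ b := Nat.pow_le_pow_right (by omega) hcard

theorem exists_small_prime {n d : ℕ} (hn : 4 ≤ n) (hd : d ≠ 0)
    (hdn : d ≤ (3 * n) ^ (6 * n)) : ∃ r, r.Prime ∧ r ≤ n ^ 8 ∧ ¬ r ∣ d := by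
  by_contra hc
  push Not at hc
  have h2n : n < 2 ^ n := Nat.lt_two_pow_self
  have hm : 4 ≤ n ^ 7 := le_trans hn (Nat.le_self_pow (by norm_num) n)
  have hle : 2 * n ^ 7 ≤ n ^ 8 := by
    rw [pow_succ n 7, mul_comm]
    exact Nat.mul_le_mul_left _ (by omega)
  have hd1 : d < 2 ^ (12 * n ^ 2) := by
    calc d ≤ (3 * n) ^ (6 * n) := hdn
      _ ≤ (n ^ 2) ^ (6 * n) := Nat.pow_le_pow_left (by nlinarith) _
      _ = n ^ (12 * n) := by rw [← pow_mul]; ring_nf
      _ < (2 ^ n) ^ (12 * n) := Nat.pow_lt_pow_left h2n (by omega)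
      _ = 2 ^ (12 * n ^ 2) := by rw [← pow_mul]; ring_nf
  have h := four_pow_lt hm hd hd1 (fun r hr hp => hc r hp (hr.trans hle))
  have h1 : n ^ 7 * (2 * n ^ 7) ^ (12 * n ^ 2) ≤ 2 ^ (8 * n * (12 * n ^ 2 + 1)) := by
    calc n ^ 7 * (2 * n ^ 7) ^ (12 * n ^ 2) ≤ n ^ 8 * (n ^ 8) ^ (12 * n ^ 2) := by
          apply Nat.mul_le_mul
          · exact Nat.pow_le_pow_right (by omega) (by norm_num)
          · exact Nat.pow_le_pow_left hle _
      _ = (n ^ 8) ^ (12 * n ^ 2 + 1) := by rw [pow_succ (n ^ 8) (12 * n ^ 2), mul_comm]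
      _ ≤ ((2 ^ n) ^ 8) ^ (12 * n ^ 2 + 1) :=
          Nat.pow_le_pow_left (Nat.pow_le_pow_left h2n.le _) _
      _ = 2 ^ (8 * n * (12 * n ^ 2 + 1)) := by rw [← pow_mul, ← pow_mul]; ring_nf
  have h2 : (4 : ℕ) ^ n ^ 7 = 2 ^ (2 * n ^ 7) := by
    rw [pow_mul]; norm_num
  rw [h2] at h
  have h3 := (Nat.pow_lt_pow_iff_right (by norm_num)).1 (h.trans_le h1)
  have h4 : 256 * n ^ 3 ≤ n ^ 7 := by
    have : n ^ 7 = n ^ 4 * n ^ 3 := by ring
    rw [this]
    apply Nat.mul_le_mul_right
    calc 256 = 4 ^ 4 := by norm_num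
      _ ≤ n ^ 4 := Nat.pow_le_pow_left hn 4
  have h5 : n ≤ n ^ 3 := Nat.le_self_pow (by norm_num) n
  nlinarith

end Pool.Agent.Lib.MP_37c7bf_co_h26tw

end PrimeBoundPart

section AlgPart

/-! # The pinned rigidity matrix over different rings -/

namespace Pool.Agent.Lib.MP_37c7bf_co_h26tw

open Function

set_option linter.unusedSectionVars false

/-- Rows of the pinned rigidity matrix. -/
abbrev Rw (n : ℕ) : Type := (Fin n × Fin n) ⊕ (Fin n × Fin 3)

/-- Adjacency on natural numbers. -/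
def adjG {n : ℕ} (G : SimpleGraph (Fin n)) (x y : ℕ) : Prop :=
  ∃ (hx : x < n) (hy : y < n), G.Adj ⟨x, hx⟩ ⟨y, hy⟩

open Classical in
/-- The pinned rigidity matrix. -/
noncomputable def Mx {n : ℕ} (G : SimpleGraph (Fin n)) {R : Type*} [CommRing R]
    (P : Fin n → Fin 3 → R) : Matrix (Rw n) (Fin n × Fin 3) R :=
  Matrix.of fun r vc => match r with
    | .inl (a, b) => if G.Adj a b then
        (P a vc.2 - P b vc.2) * ((if vc.1 = a then 1 else 0) - (if vc.1 = b then 1 else 0)) else 0
    | .inr (v, c) => if pin c v ∧ vc = (v, c) then 1 else 0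

variable {n : ℕ} {G : SimpleGraph (Fin n)}

theorem Mx_map {R S : Type*} [CommRing R] [CommRing S] (f : R →+* S) (P : Fin n → Fin 3 → R) :
    (Mx G P).map f = Mx G (fun a c => f (P a c)) := by
  classical
  ext r vc
  rcases r with ⟨a, b⟩ | ⟨v, c⟩
  · simp only [Mx, Matrix.map_apply, Matrix.of_apply]
    split_ifs <;> simp
  · simp only [Mx, Matrix.map_apply, Matrix.of_apply]
    split_ifs <;> simp

theorem Mx_mulVec_inl {R : Type*} [CommRing R] (P : Fin n → Fin 3 → R)
    (u : Fin n × Fin 3 → R) {a b : Fin n} (hab : G.Adj a b) :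
    (Mx G P).mulVec u (.inl (a, b)) = ∑ c, (P a c - P b c) * (u (a, c) - u (b, c)) := by
  classical
  simp only [Matrix.mulVec, dotProduct, Mx, Matrix.of_apply, if_pos hab]
  rw [Fintype.sum_prod_type, Finset.sum_comm]
  refine Finset.sum_congr rfl fun c _ => ?_
  simp only [mul_sub, sub_mul, mul_ite, mul_one, mul_zero, ite_mul, zero_mul,
    Finset.sum_sub_distrib, Finset.sum_ite_eq', Finset.mem_univ, if_true]

theorem Mx_mulVec_inl' {R : Type*} [CommRing R] (P : Fin n → Fin 3 → R)
    (u : Fin n × Fin 3 → R) {a b : Fin n} (hab : ¬ G.Adj a b) :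
    (Mx G P).mulVec u (.inl (a, b)) = 0 := by
  classical
  simp [Matrix.mulVec, dotProduct, Mx, if_neg hab]

theorem Mx_mulVec_inr {R : Type*} [CommRing R] (P : Fin n → Fin 3 → R)
    (u : Fin n × Fin 3 → R) {v : Fin n} {c : Fin 3} (h : pin c v) :
    (Mx G P).mulVec u (.inr (v, c)) = u (v, c) := by
  classical
  simp [Matrix.mulVec, dotProduct, Mx, h]

theorem Mx_mulVec_inr' {R : Type*} [CommRing R] (P : Fin n → Fin 3 → R)
    (u : Fin n × Fin 3 → R) {v : Fin n} {c : Fin 3} (h : ¬ pin c v) :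
    (Mx G P).mulVec u (.inr (v, c)) = 0 := by
  classical
  simp [Matrix.mulVec, dotProduct, Mx, h]

/-- Pinned infinitesimal rigidity over a ring. -/
def PRR {n : ℕ} (G : SimpleGraph (Fin n)) {R : Type*} [CommRing R] (P : Fin n → Fin 3 → R) :
    Prop := ∀ u : Fin n × Fin 3 → R, (Mx G P).mulVec u = 0 → u = 0

theorem prr_iff {R : Type*} [CommRing R] (P : Fin n → Fin 3 → R) :
    PRR G P ↔ ∀ u : Fin n × Fin 3 → R,
      (∀ a b, G.Adj a b → ∑ c, (P a c - P b c) * (u (a, c) - u (b, c)) = 0) →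
      (∀ (v : Fin n) (c : Fin 3), pin c (v : ℕ) → u (v, c) = 0) → u = 0 := by
  constructor
  · intro h u h1 h2
    apply h
    funext r
    rcases r with ⟨a, b⟩ | ⟨v, c⟩
    · by_cases hab : G.Adj a b
      · rw [Mx_mulVec_inl P u hab]; exact h1 a b hab
      · exact Mx_mulVec_inl' P u hab
    · by_cases hp : pin c (v : ℕ)
      · rw [Mx_mulVec_inr P u hp]; exact h2 v c hp
      · exact Mx_mulVec_inr' P u hp
  · intro h u hu
    apply h
    · intro a b hab
      rw [← Mx_mulVec_inl P u hab, hu]; rfl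
    · intro v c hp
      rw [← Mx_mulVec_inr (G := G) P u hp, hu]; rfl

/-- Comparison with the formulation over natural numbers. -/
theorem pr_iff_prr {m : ℕ} (p : ℕ → Fin 3 → ZMod m) :
    PR n (adjG G) p ↔ PRR G (fun a c => p a c) := by
  rw [prr_iff]
  constructor
  · intro h u h1 h2
    set w : ℕ → Fin 3 → ZMod m := fun x c => if hx : x < n then u (⟨x, hx⟩, c) else 0 with hw
    have hwin : ∀ (x : Fin n) c, w x c = u (x, c) := by
      intro x c
      simp [hw, x.2]
    have := h w ?_ ?_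
    · funext vc
      obtain ⟨v, c⟩ := vc
      rw [← hwin]
      exact this v v.2 c
    · rintro x y ⟨hx, hy, hxy⟩
      have := h1 _ _ hxy
      rw [← this]
      refine Finset.sum_congr rfl fun c _ => ?_
      rw [← hwin ⟨x, hx⟩, ← hwin ⟨y, hy⟩]
    · intro x hx c hc
      have := hwin ⟨x, hx⟩ c
      rw [← h2 ⟨x, hx⟩ c hc, ← this]
  · intro h u h1 h2 x hx c
    have := h (fun vc => u vc.1 vc.2) ?_ ?_
    · exact congrFun this (⟨x, hx⟩, c)
    · intro a b hab
      exact h1 a b ⟨a.2, b.2, hab⟩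
    · intro v c hc
      exact h2 v v.2 c hc

/-- An injective matrix over a field has a nonsingular square submatrix of full width. -/
theorem exists_minor {K : Type*} [Field K] {ρ κ : Type*} [Fintype ρ] [Fintype κ] [DecidableEq κ]
    (M : Matrix ρ κ K) (h : ∀ u : κ → K, M.mulVec u = 0 → u = 0) :
    ∃ f : κ → ρ, (M.submatrix f id).det ≠ 0 := by
  classical
  have hinj : Injective M.mulVec := by
    intro u v huv
    have : M.mulVec (u - v) = 0 := by rw [Matrix.mulVec_sub, huv, sub_self]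
    exact sub_eq_zero.1 (h _ this)
  have hrank : M.rank = Fintype.card κ := by
    rw [Matrix.rank, LinearMap.finrank_range_of_inj hinj]
    simp
  have hspan : Submodule.span K (Set.range M.row) = ⊤ := by
    apply Submodule.eq_top_of_finrank_eq
    rw [← Matrix.rank_eq_finrank_span_row, hrank]
    simp
  obtain ⟨b, hb1, hb2, hb3⟩ := exists_linearIndependent K (Set.range M.row)
  rw [hspan] at hb2
  have hbfin : b.Finite := (Set.finite_range M.row).subset hb1
  have : Fintype b := hbfin.fintype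
  set B : Module.Basis b K (κ → K) := Module.Basis.mk hb3 (by rw [Subtype.range_coe, hb2]) with hB
  have hcard : Fintype.card b = Fintype.card κ := by
    have h1 := Module.finrank_eq_card_basis B
    simpa using h1.symm
  obtain ⟨e⟩ : Nonempty (κ ≃ b) := Fintype.card_eq.1 hcard.symm
  have hrow : ∀ x : b, ∃ r, M.row r = x := fun x => hb1 x.2
  choose g hg using hrow
  refine ⟨fun j => g (e j), ?_⟩
  have hli : LinearIndependent K (M.submatrix (fun j => g (e j)) id).row := by
    have h1 : (M.submatrix (fun j => g (e j)) id).row = (fun x : b => (x : κ → K)) ∘ e := by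
      funext j
      change M.row (g (e j)) = _
      rw [hg]
      rfl
    rw [h1]
    exact hb3.comp e e.injective
  have := Matrix.linearIndependent_rows_iff_isUnit.1 hli
  exact ((Matrix.isUnit_iff_isUnit_det _).1 this).ne_zero

/-- A nonsingular square submatrix of full width forces injectivity. -/
theorem inj_of_minor {R : Type*} [CommRing R] [IsDomain R] {ρ κ : Type*} [Fintype κ]
    [DecidableEq κ] (M : Matrix ρ κ R) (f : κ → ρ) (h : (M.submatrix f id).det ≠ 0)
    (u : κ → R) (hu : M.mulVec u = 0) : u = 0 := by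
  apply Matrix.eq_zero_of_mulVec_eq_zero h
  funext j
  exact congrFun hu (f j)

end Pool.Agent.Lib.MP_37c7bf_co_h26tw

end AlgPart

section Alg2Part

/-! # From real positions to positions over small prime fields and back -/

namespace Pool.Agent.Lib.MP_37c7bf_co_h26tw

open Function MvPolynomial

set_option linter.unusedSectionVars false

variable {n : ℕ} {G : SimpleGraph (Fin n)}

theorem totalDegree_det_le {σ κ : Type*} [Fintype κ] [DecidableEq κ]
    (M : Matrix κ κ (MvPolynomial σ ℤ)) (h : ∀ i j, (M i j).totalDegree ≤ 1) :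
    M.det.totalDegree ≤ Fintype.card κ := by
  rw [Matrix.det_apply]
  refine totalDegree_finsetSum_le fun σ' _ => ?_
  refine (totalDegree_smul_le _ _).trans ?_
  refine (totalDegree_finsetProd _ _).trans ?_
  calc ∑ i, (M (σ' i) i).totalDegree ≤ ∑ _i : κ, 1 := Finset.sum_le_sum fun i _ => h _ _
    _ = Fintype.card κ := by simp

theorem Mx_deg (r : Rw n) (vc : Fin n × Fin 3) :
    (Mx G (fun a c => (X (a, c) : MvPolynomial (Fin n × Fin 3) ℤ)) r vc).totalDegree ≤ 1 := by
  classical
  have h1 : ∀ a b : Fin n, (X (a, vc.2) - X (b, vc.2) :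
      MvPolynomial (Fin n × Fin 3) ℤ).totalDegree ≤ 1 := by
    intro a b
    refine (totalDegree_sub _ _).trans ?_
    simp [totalDegree_X]
  rcases r with ⟨a, b⟩ | ⟨v, c⟩
  · simp only [Mx, Matrix.of_apply]
    split_ifs
    · simp
    · simpa using h1 a b
    · have := h1 a b
      rw [zero_sub, mul_neg, mul_one, totalDegree_neg]
      exact this
    · simp
    · simp
  · simp only [Mx, Matrix.of_apply]
    split_ifs <;> simp

theorem int_of_real {P : Fin n → Fin 3 → ℝ} (h : PRR G P) :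
    ∃ (Z : Fin n → Fin 3 → ℤ) (f : Fin n × Fin 3 → Rw n),
      (∀ a c, 0 ≤ Z a c ∧ Z a c ≤ 3 * n) ∧ ((Mx G Z).submatrix f id).det ≠ 0 := by
  classical
  obtain ⟨f, hf⟩ := exists_minor (Mx G P) h
  set Q : Fin n → Fin 3 → MvPolynomial (Fin n × Fin 3) ℤ := fun a c => X (a, c) with hQ
  set Φ := ((Mx G Q).submatrix f id).det with hΦ
  have heval : ∀ {R : Type} [CommRing R] (g : MvPolynomial (Fin n × Fin 3) ℤ →+* R),
      g Φ = ((Mx G (fun a c => g (X (a, c)))).submatrix f id).det := by
    intro R _ g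
    rw [hΦ, RingHom.map_det, RingHom.mapMatrix_apply, ← Matrix.submatrix_map, Mx_map]
  have hΦ0 : Φ ≠ 0 := by
    intro h0
    apply hf
    have := heval (eval₂Hom (Int.castRingHom ℝ) (fun ac : Fin n × Fin 3 => P ac.1 ac.2))
    rw [h0, map_zero] at this
    simp only [eval₂Hom_X'] at this
    exact this.symm
  have hdeg : Φ.totalDegree ≤ 3 * n := by
    have := totalDegree_det_le ((Mx G Q).submatrix f id) (fun i j => Mx_deg _ _)
    refine this.trans ?_
    simp [mul_comm]
  by_contra hc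
  push Not at hc
  apply hΦ0
  refine eq_zero_of_eval_zero_at_prod_finset Φ (fun _ => Finset.Icc (0 : ℤ) (3 * n)) ?_ ?_
  · intro i
    have h1 := degreeOf_le_totalDegree Φ i
    rw [Int.card_Icc]
    omega
  · intro x hx
    have h1 := heval (eval x)
    rw [h1]
    have := hc (fun a c => x (a, c)) f (fun a c => by simpa using hx (a, c))
    simpa using this

/-- Bound on the determinant. -/
theorem det_bound (hn : 1 ≤ n) {Z : Fin n → Fin 3 → ℤ} (hZ : ∀ a c, 0 ≤ Z a c ∧ Z a c ≤ 3 * n)
    (f : Fin n × Fin 3 → Rw n) :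
    ((Mx G Z).submatrix f id).det.natAbs ≤ (3 * n) ^ (6 * n) := by
  classical
  have hent : ∀ i j, AbsoluteValue.abs (((Mx G Z).submatrix f id) i j) ≤ (3 * n : ℤ) := by
    intro i j
    rw [Matrix.submatrix_apply]
    simp only [AbsoluteValue.abs_apply, id]
    rcases f i with ⟨a, b⟩ | ⟨v, c⟩
    · simp only [Mx, Matrix.of_apply]
      have h1 := hZ a j.2
      have h2 := hZ b j.2
      split_ifs with h3 h4 h5
      · simp
      · rw [sub_zero, mul_one, abs_le]; constructor <;> linarith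
      · rw [zero_sub, mul_neg, mul_one, abs_neg, abs_le]; constructor <;> linarith
      · simp
      · simp
    · simp only [Mx, Matrix.of_apply]
      split_ifs
      · rw [abs_one]; omega
      · simp
  have h1 := Matrix.det_le hent
  have hcard : Fintype.card (Fin n × Fin 3) = 3 * n := by simp [mul_comm]
  rw [hcard] at h1
  have h2 : ((3 * n).factorial : ℤ) ≤ (3 * n : ℤ) ^ (3 * n) := by
    exact_mod_cast Nat.factorial_le_pow (3 * n)
  have h3 : |((Mx G Z).submatrix f id).det| ≤ (3 * n : ℤ) ^ (6 * n) := by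
    calc |((Mx G Z).submatrix f id).det| ≤ (3 * n).factorial • (3 * n : ℤ) ^ (3 * n) := h1
      _ = ((3 * n).factorial : ℤ) * (3 * n : ℤ) ^ (3 * n) := by rw [nsmul_eq_mul]
      _ ≤ (3 * n : ℤ) ^ (3 * n) * (3 * n : ℤ) ^ (3 * n) :=
          mul_le_mul_of_nonneg_right h2 (by positivity)
      _ = (3 * n : ℤ) ^ (6 * n) := by rw [← pow_add]; congr 1; ring
  have h4 : ((((Mx G Z).submatrix f id).det.natAbs : ℕ) : ℤ) ≤ (((3 * n) ^ (6 * n) : ℕ) : ℤ) := by
    rw [Int.natCast_natAbs]
    push_cast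
    exact h3
  exact_mod_cast h4

/-- Positions over a small prime field. -/
theorem mod_of_real (hn : 4 ≤ n) {P : Fin n → Fin 3 → ℝ} (h : PRR G P) :
    ∃ q, q < n ^ 8 ∧ (q + 1).Prime ∧ ∃ p : ℕ → Fin 3 → ZMod (q + 1), PR n (adjG G) p := by
  classical
  obtain ⟨Z, f, hZ, hdet⟩ := int_of_real h
  obtain ⟨r, hr, hrn, hrd⟩ := exists_small_prime (d := ((Mx G Z).submatrix f id).det.natAbs) hn
    (by simpa using hdet) (det_bound (by omega) hZ f)
  obtain ⟨q, rfl⟩ : ∃ q, r = q + 1 := ⟨r - 1, by have := hr.pos; omega⟩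
  refine ⟨q, by omega, hr, fun x c => if hx : x < n then ((Z ⟨x, hx⟩ c : ℤ) : ZMod (q + 1)) else 0,
    ?_⟩
  have : Fact (q + 1).Prime := ⟨hr⟩
  rw [pr_iff_prr]
  have e1 : (fun (a : Fin n) c => (fun (x : ℕ) c => if hx : x < n then
      ((Z ⟨x, hx⟩ c : ℤ) : ZMod (q + 1)) else 0) a c) =
      fun a c => (Int.castRingHom (ZMod (q + 1))) (Z a c) := by
    funext a c
    simp [a.2]
  rw [e1]
  intro u hu
  refine inj_of_minor _ f ?_ u hu
  rw [← Mx_map, Matrix.submatrix_map, ← RingHom.mapMatrix_apply, ← RingHom.map_det]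
  intro h0
  apply hrd
  rw [eq_intCast, ZMod.intCast_zmod_eq_zero_iff_dvd] at h0
  exact Int.natCast_dvd.1 h0

/-- Real positions from positions over a prime field. -/
theorem real_of_mod {m : ℕ} (hm : m.Prime) {p : ℕ → Fin 3 → ZMod m} (h : PR n (adjG G) p) :
    ∃ P : Fin n → Fin 3 → ℝ, PRR G P := by
  classical
  have : Fact m.Prime := ⟨hm⟩
  rw [pr_iff_prr] at h
  obtain ⟨f, hf⟩ := exists_minor _ h
  set Z : Fin n → Fin 3 → ℤ := fun a c => ((p a c).val : ℤ) with hZ
  have e1 : (fun (a : Fin n) c => p a c) = fun a c => (Int.castRingHom (ZMod m)) (Z a c) := by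
    funext a c
    simp [hZ]
  rw [e1, ← Mx_map, Matrix.submatrix_map, ← RingHom.mapMatrix_apply, ← RingHom.map_det] at hf
  have hf' : ((Mx G Z).submatrix f id).det ≠ 0 := by
    intro h0
    rw [h0, map_zero] at hf
    exact hf rfl
  refine ⟨fun a c => (Int.castRingHom ℝ) (Z a c), fun u hu => inj_of_minor _ f ?_ u hu⟩
  rw [← Mx_map, Matrix.submatrix_map, ← RingHom.mapMatrix_apply, ← RingHom.map_det]
  simpa using hf'

end Pool.Agent.Lib.MP_37c7bf_co_h26tw

end Alg2Part

section RealPart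

/-! # Generic rigidity and pinned rigidity -/

namespace Pool.Agent.Lib.MP_37c7bf_co_h26tw

open Function MeasureTheory Module Pool.Agent.H26R
open scoped RealInnerProductSpace

set_option linter.unusedSectionVars false

section

variable {V : Type*}

/-- Velocities at the pins of a rotation. -/
noncomputable def pinMap (a b c : V) : (V → E3) →ₗ[ℝ] E3 →ₗ[ℝ] (ℝ × ℝ × ℝ) :=
  LinearMap.mk₂ ℝ (fun p ω => (K ω (p b - p a) 0, K ω (p b - p a) 1, K ω (p c - p a) 0))
    (by
      intro p p' ω
      simp only [Pi.add_apply, Prod.mk_add_mk]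
      have e : ∀ i j : V, p i + p' i - (p j + p' j) = (p i - p j) + (p' i - p' j) := by
        intro i j; abel
      simp only [e, map_add, PiLp.add_apply])
    (by
      intro r p ω
      simp only [Pi.smul_apply, Prod.smul_mk, ← smul_sub, map_smul, PiLp.smul_apply])
    (by
      intro p ω ω'
      simp only [Prod.mk_add_mk, map_add, add_apply, PiLp.add_apply])
    (by
      intro r p ω
      simp only [Prod.smul_mk, map_smul, smul_apply, PiLp.smul_apply])

lemma pinMap_apply (a b c : V) (p : V → E3) (ω : E3) :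
    pinMap a b c p ω = (K ω (p b - p a) 0, K ω (p b - p a) 1, K ω (p c - p a) 0) := rfl

/-- Almost every realization is in general position with respect to the pins. -/
lemma ae_pins [Fintype V] {a b c : V} (hab : a ≠ b) (hac : a ≠ c) (hbc : b ≠ c) :
    ∀ᵐ p : V → E3 ∂volume, ∀ ω : E3, K ω (p b - p a) 0 = 0 → K ω (p b - p a) 1 = 0 →
      K ω (p c - p a) 0 = 0 → ω = 0 := by
  classical
  let p₀ : V → E3 := fun i => if i = b then EuclideanSpace.single 2 1 else
    if i = c then EuclideanSpace.single 1 1 else 0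
  have h0 : LinearMap.ker (pinMap a b c p₀) = ⊥ := by
    rw [LinearMap.ker_eq_bot']
    intro x hx
    rw [pinMap_apply] at hx
    simp only [Prod.mk_eq_zero] at hx
    obtain ⟨h1, h2, h3⟩ := hx
    have ea : p₀ a = 0 := by simp [p₀, hab, hac]
    have eb : p₀ b = EuclideanSpace.single 2 1 := by simp [p₀]
    have ec : p₀ c = EuclideanSpace.single 1 1 := by simp [p₀, hbc.symm]
    rw [ea, eb, sub_zero, K_apply] at h1 h2
    rw [ea, ec, sub_zero, K_apply] at h3
    simp [crossE] at h1 h2 h3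
    apply e3_ext
    intro k
    fin_cases k
    · simpa using h2
    · simpa using h1
    · simpa using h3
  have := ae_finrank_ker_le (volume : Measure (V → E3)) (pinMap a b c) p₀
  filter_upwards [this] with p hp
  rw [h0, finrank_bot, Nat.le_zero, Submodule.finrank_eq_zero] at hp
  intro x h1 h2 h3
  have : x ∈ LinearMap.ker (pinMap a b c p) := by
    rw [LinearMap.mem_ker, pinMap_apply, h1, h2, h3]; rfl
  rw [hp] at this
  simpa using this

end

variable {n : ℕ} {G : SimpleGraph (Fin n)}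

theorem generic_of_prr (hn : 4 ≤ n) {P : Fin n → Fin 3 → ℝ} (h : PRR G P) :
    GenericallyRigid G := by
  rw [prr_iff] at h
  apply genericallyRigid_of_exists (by simpa using hn)
  refine ⟨fun i => WithLp.toLp 2 (P i), ?_⟩
  refine finrank_Flex_le_six ![(⟨0, by omega⟩, 0), (⟨0, by omega⟩, 1), (⟨0, by omega⟩, 2),
    (⟨1, by omega⟩, 0), (⟨1, by omega⟩, 1), (⟨2, by omega⟩, 0)] ?_
  intro v hv h0
  rw [mem_Flex] at hv
  have := h (fun ac => v ac.1 ac.2) ?_ ?_
  · funext i
    apply e3_ext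
    intro k
    exact congrFun this (i, k)
  · intro a b hab
    have := hv a b hab
    rw [inner_E3] at this
    rw [Fin.sum_univ_three]
    simpa using this
  · intro i c hc
    rcases hc with hi | ⟨hi, hc⟩ | ⟨hi, hc⟩
    · have e : i = ⟨0, by omega⟩ := Fin.ext hi
      rw [e]
      fin_cases c
      · exact h0 0
      · exact h0 1
      · exact h0 2
    · have e : i = ⟨1, by omega⟩ := Fin.ext hi
      rw [e]
      fin_cases c
      · exact h0 3
      · exact h0 4
      · exact absurd rfl hc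
    · have e : i = ⟨2, by omega⟩ := Fin.ext hi
      rw [e, hc]
      exact h0 5

theorem prr_of_generic (hn : 4 ≤ n) (h : GenericallyRigid G) :
    ∃ P : Fin n → Fin 3 → ℝ, PRR G P := by
  classical
  obtain ⟨p₀, hp₀⟩ := exists_of_genericallyRigid (by simpa using hn) h
  set a : Fin n := ⟨0, by omega⟩ with ha
  set b : Fin n := ⟨1, by omega⟩ with hb
  set c : Fin n := ⟨2, by omega⟩ with hc
  set d : Fin n := ⟨3, by omega⟩ with hd
  have hab : a ≠ b := by simp [ha, hb]
  have hac : a ≠ c := by simp [ha, hc]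
  have had : a ≠ d := by simp [ha, hd]
  have hbc : b ≠ c := by simp [hb, hc]
  have hbd : b ≠ d := by simp [hb, hd]
  have hcd : c ≠ d := by simp [hc, hd]
  have h1 := ae_spans hab hac had hbc hbd hcd
  have h2 := ae_finrank_ker_le (volume : Measure (Fin n → E3)) (rig G) p₀
  have h3 := ae_pins hab hac hbc
  obtain ⟨p, ⟨g1, g2⟩, g3⟩ := ((h1.and h2).and h3).exists
  have hfl : finrank ℝ (Flex G p) ≤ 6 := g2.trans hp₀
  have hspan : Spans p := ⟨a, b, c, d, g1⟩
  refine ⟨fun i k => p i k, ?_⟩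
  rw [prr_iff]
  intro u hu hpin
  set v : Fin n → E3 := fun i => WithLp.toLp 2 (fun k => u (i, k)) with hv
  have hvk : ∀ i k, v i k = u (i, k) := fun i k => rfl
  have hvF : v ∈ Flex G p := by
    rw [mem_Flex]
    intro i j hij
    have := hu i j hij
    rw [Fin.sum_univ_three] at this
    rw [inner_E3]
    simpa [hvk] using this
  rw [Flex_eq_range_triv hspan hfl] at hvF
  obtain ⟨⟨ω, t⟩, ht⟩ := hvF
  have hvi : ∀ i, v i = K ω (p i) + t := fun i => by rw [← ht]; rfl
  have hva : v a = 0 := by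
    apply e3_ext
    intro k
    rw [hvk]
    exact hpin a k (Or.inl rfl)
  have hdiff : ∀ i, v i = K ω (p i - p a) := by
    intro i
    have h4 : K ω (p a) + t = 0 := by rw [← hvi, hva]
    rw [hvi, map_sub, eq_neg_of_add_eq_zero_right h4]
    abel
  have hω : ω = 0 := by
    apply g3
    · rw [← hdiff, hvk]
      exact hpin b 0 (Or.inr (Or.inl ⟨rfl, by decide⟩))
    · rw [← hdiff, hvk]
      exact hpin b 1 (Or.inr (Or.inl ⟨rfl, by decide⟩))
    · rw [← hdiff, hvk]
      exact hpin c 0 (Or.inr (Or.inr ⟨rfl, rfl⟩))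
  funext ik
  obtain ⟨i, k⟩ := ik
  rw [← hvk, hdiff, hω]
  simp

/-- **Generic rigidity over small prime fields.** -/
theorem generic_iff_mod (hn : 4 ≤ n) : GenericallyRigid G ↔
    ∃ q, q < n ^ 8 ∧ (q + 1).Prime ∧ ∃ p : ℕ → Fin 3 → ZMod (q + 1), PR n (adjG G) p := by
  constructor
  · intro h
    obtain ⟨P, hP⟩ := prr_of_generic hn h
    exact mod_of_real hn hP
  · rintro ⟨q, _, hq, p, hp⟩
    obtain ⟨P, hP⟩ := real_of_mod hq hp
    exact generic_of_prr hn hP

end Pool.Agent.Lib.MP_37c7bf_co_h26tw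

end RealPart
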