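import Pool.Agent.Lib.MP_37c7bf_co_h26tw.Machine
import Pool.Agent.Lib.MP_37c7bf_co_h26tw.Tw
import Pool.Agent.Lib.MP_37c7bf_co_h26tw.Real
import Pool.Agent.Lib.MP_37c7bf_co_h26tw.Dp

section DefsPart

/-! # Treewidth -/

namespace Pool.Agent.Lib.MP_37c7bf_co_h26tw

/-- `G` has treewidth at most `w`: it has a tree decomposition of width at most `w`, that is,
there are a finite tree `T` and a finite set `bag x` of vertices of `G` for every node `x` of `T`
such that the nodes whose bags contain a given vertex induce a nonempty connected subgraph of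
`T`, the two ends of every edge of `G` lie in a common bag, and every bag has at most `w + 1`
vertices. -/
def TreewidthLE {V : Type} (G : SimpleGraph V) (w : ℕ) : Prop :=
  ∃ (ι : Type) (_ : Finite ι) (T : SimpleGraph ι) (bag : ι → Finset V), T.IsTree ∧
    (∀ v, (T.induce {x | v ∈ bag x}).Connected) ∧
    (∀ u v, G.Adj u v → ∃ x, u ∈ bag x ∧ v ∈ bag x) ∧
    ∀ x, (bag x).card ≤ w + 1

end Pool.Agent.Lib.MP_37c7bf_co_h26tw

end DefsPart

section SoundPart

/-! # Soundness of the dynamic programme -/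

namespace Pool.Agent.Lib.MP_37c7bf_co_h26tw

open Function

set_option linter.unusedSectionVars false

variable {m : ℕ} {N : ℕ} {A : ℕ → ℕ → Prop} {k : ℕ} {T : Fin k → ℕ}

theorem cons_vel (u : ℕ → Fin 3 → ZMod m) : Cons T (fun lc : KI k => u (T lc.1) lc.2) := by
  intro l l' h c
  simp [h]

theorem sem_empty {α : KI k → ZMod m} (hα : Cons T α) {K : KI k × KI k → ZMod m}
    (hK : ∀ x, K x = 0) : Sem A ∅ T α K := by
  classical
  refine ⟨fun x c => if h : ∃ l, T l = x then α (h.choose, c) else 0, ?_, ?_⟩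
  · intro l c
    have h : ∃ l', T l' = T l := ⟨l, rfl⟩
    simp only [dif_pos h]
    exact hα _ _ h.choose_spec c
  · intro u _
    refine ⟨fun r => ?_, fun _ x hx => absurd hx (Set.notMem_empty x)⟩
    simp [hK]

theorem sem_union (S1 S2 : Set ℕ) {α : KI k → ZMod m}
    {K1 K2 K : KI k × KI k → ZMod m} (h1 : Sem A S1 T α K1) (h2 : Sem A S2 T α K2)
    (hd : ∀ x ∈ S2, x ∉ S1) (hT2 : ∀ x ∈ S2, ∀ l, x ≠ T l)
    (hn1 : ∀ x ∈ S1, ∀ y, A x y → y ∈ S1 ∨ ∃ l, y = T l)
    (hn2 : ∀ x ∈ S2, ∀ y, A x y → y ∈ S2 ∨ ∃ l, y = T l)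
    (hcomb : ∀ x, Cons T x → Kills K1 x → Kills K2 x → Kills K x) :
    Sem A (S1 ∪ S2) T α K := by
  classical
  obtain ⟨p1, a1, b1⟩ := h1
  obtain ⟨p2, a2, b2⟩ := h2
  set p : ℕ → Fin 3 → ZMod m := fun x => if x ∈ S2 then p2 x else p1 x with hp
  have e2 : ∀ x ∈ S2, p x = p2 x := fun x hx => by simp [hp, hx]
  have e1 : ∀ x ∈ S1, p x = p1 x := fun x hx => by
    have : x ∉ S2 := fun h => hd x h hx
    simp [hp, this]
  have eT1 : ∀ l, p (T l) = p1 (T l) := fun l => by
    have : T l ∉ S2 := fun h => hT2 _ h l rfl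
    simp [hp, this]
  have eT2 : ∀ l, p (T l) = p2 (T l) := fun l => by
    rw [eT1]
    funext c
    rw [a1, a2]
  refine ⟨p, fun l c => by rw [eT1, a1], fun u hu => ?_⟩
  have s1 : SatS A S1 p1 u := by
    refine ⟨fun x hx y hxy => ?_, fun x hx => hu.2 x (Or.inl hx)⟩
    have := hu.1 x (Or.inl hx) y hxy
    have ey : p y = p1 y := by
      rcases hn1 x hx y hxy with h | ⟨l, rfl⟩
      · exact e1 y h
      · exact eT1 l
    rwa [e1 x hx, ey] at this
  have s2 : SatS A S2 p2 u := by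
    refine ⟨fun x hx y hxy => ?_, fun x hx => hu.2 x (Or.inr hx)⟩
    have := hu.1 x (Or.inr hx) y hxy
    have ey : p y = p2 y := by
      rcases hn2 x hx y hxy with h | ⟨l, rfl⟩
      · exact e2 y h
      · exact eT2 l
    rwa [e2 x hx, ey] at this
  obtain ⟨c1, d1⟩ := b1 u s1
  obtain ⟨c2, d2⟩ := b2 u s2
  refine ⟨hcomb _ (cons_vel u) c1 c2, fun h0 x hx => ?_⟩
  rcases hx with hx | hx
  · exact d1 h0 x hx
  · exact d2 h0 x hx

theorem sem_r1 (hs : ∀ x y, A x y → A y x) (hA : ∀ x y, A x y → y < N) {i : Fin k} {z v : ℕ}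
    (hf : Free N A T i z) (hv : Comp N A T z v) {α : KI k → ZMod m} (hα : Cons T α)
    {β : Fin 3 → ZMod m} {K K' : KI k × KI k → ZMod m}
    (h : Sem A (Reg N A (mv T i v) v N) (mv T i v)
      (fun lc => if lc.1 = i then β lc.2 else α lc) K')
    (hproj : ∀ (x : KI k → ZMod m) (y : Fin 3 → ZMod m), ProjAt A T i v α β K K' x y) :
    Sem A {y | Comp N A T z y} T α K := by
  classical
  obtain ⟨p', a', b'⟩ := h
  rw [reg_mv hs hA hf hv] at b'
  have a1 : ∀ l, l ≠ i → ∀ c, p' (T l) c = α (l, c) := by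
    intro l hl c
    have := a' l c
    rw [mv_of_ne hl] at this
    simpa [hl] using this
  have a2 : ∀ c, p' v c = β c := by
    intro c
    have := a' i c
    rw [mv_self] at this
    simpa using this
  set p : ℕ → Fin 3 → ZMod m := update p' (T i) (fun c => α (i, c)) with hp
  have e1 : ∀ x, Comp N A T z x → p x = p' x := by
    intro x hx
    rw [hp, update_of_ne (hx.notT i)]
  have e2 : ∀ l, l ≠ i → p (T l) = p' (T l) := by
    intro l hl
    by_cases hli : T l = T i
    · rw [hp, hli, update_self, ← hli]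
      funext c
      rw [a1 l hl c]
      exact hα i l hli.symm c
    · rw [hp, update_of_ne hli]
  have e3 : ∀ l c, p (T l) c = α (l, c) := by
    intro l c
    by_cases hl : l = i
    · subst hl; rw [hp, update_self]
    · rw [e2 l hl, a1 l hl c]
  refine ⟨p, e3, fun u hu => ?_⟩
  have hnb : ∀ x y, Comp N A T z x → A x y → p y = p' y := by
    intro x y hx hxy
    rcases hf.nbr hx hxy with h | ⟨l, hl, rfl⟩
    · exact e1 y h
    · exact e2 l hl
  have s' : SatS A ({y | Comp N A T z y} \ {v}) p' u := by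
    refine ⟨fun x hx y hxy => ?_, fun x hx => hu.2 x hx.1⟩
    have := hu.1 x hx.1 y hxy
    rwa [e1 x hx.1, hnb x y hx.1 hxy] at this
  obtain ⟨c', d'⟩ := b' u s'
  have hK' : Kills K' (fun lc => if lc.1 = i then u v lc.2 else u (T lc.1) lc.2) := by
    have : (fun lc : KI k => u (mv T i v lc.1) lc.2) =
        fun lc => if lc.1 = i then u v lc.2 else u (T lc.1) lc.2 := by
      funext lc
      by_cases hl : lc.1 = i
      · simp [mv, hl]
      · simp [mv, hl]
    rwa [this] at c'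
  have hloc : ∀ l, l ≠ i → A v (T l) →
      ∑ c, (β c - α (l, c)) * (u v c - u (T l) c) = 0 := by
    intro l hl hvl
    have := hu.1 v hv (T l) hvl
    rw [e1 v hv] at this
    simpa only [a2, e3] using this
  obtain ⟨g1, g2⟩ := hproj (fun lc => u (T lc.1) lc.2) (u v) (cons_vel u) hloc (hu.2 v hv) hK'
  refine ⟨g1, fun h0 x hx c => ?_⟩
  have hv0 := g2 (fun lc => h0 lc.1 lc.2)
  by_cases hxv : x = v
  · rw [hxv]; exact hv0 c
  · refine d' ?_ x ⟨hx, hxv⟩ c
    intro l c
    by_cases hl : l = i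
    · subst hl; rw [mv_self]; exact hv0 c
    · rw [mv_of_ne hl]; exact h0 l c

/-- Soundness of the derived states. -/
theorem sem_of_xx (hs : ∀ x y, A x y → A y x) (hA : ∀ x y, A x y → y < N) {D : ℕ}
    {XX : StRel k} (hind : Inductive k D N A XX) {q v j : ℕ} {T : Fin k → ℕ} {α : KI k → ℕ}
    {K : KI k × KI k → ℕ} (b1 : q < N ^ D) (b2 : v < N ^ D) (b3 : j < N ^ D)
    (b4 : ∀ l, T l < N ^ D) (b5 : ∀ x, α x < N ^ D) (b6 : ∀ x, K x < N ^ D)
    (h : XX q v j T α K) : (q + 1).Prime ∧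
    Sem A (Reg N A T v (j + 1)) T (fun x => (α x : ZMod (q + 1)))
      (fun x => (K x : ZMod (q + 1))) := by
  refine hind (fun q v j T α K => (q + 1).Prime ∧
    Sem A (Reg N A T v (j + 1)) T (fun x => (α x : ZMod (q + 1)))
      (fun x => (K x : ZMod (q + 1)))) ?_ q v j T α K b1 b2 b3 b4 b5 b6 h
  clear b1 b2 b3 b4 b5 b6 h q v j T α K hind
  intro XX' hXX' q v j T α K b1 b2 b3 b4 b5 b6 hR
  obtain ⟨hprime, hα, t, ht, h1, h2, hcomb⟩ := hR
  refine ⟨hprime, ?_⟩
  have hS1 : Sem A (Reg N A T v j) T (fun x => (α x : ZMod (q + 1)))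
      (fun x => (t (.inl x) : ZMod (q + 1))) := by
    rcases h1 with ⟨rfl, h1⟩ | ⟨j', hj', rfl, h1⟩
    · rw [Reg.zero]
      exact sem_empty hα h1
    · exact (hXX' q v j' T α _ b1 b2 hj' b4 b5 (fun _ => ht _) h1).2
  rcases h2 with ⟨hnew, h2⟩ | ⟨hnew, h2⟩
  · rw [Reg.succ_of_not_new hs hA hnew]
    have := sem_union (A := A) (T := T) (Reg N A T v j) ∅ hS1
      (sem_empty hα h2) (by simp) (by simp)
      (fun x hx y hxy => by
        by_cases hy : ∀ l, y ≠ T l
        · exact Or.inl (Reg.closed hs hA hx hxy hy)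
        · push Not at hy; exact Or.inr hy)
      (by simp) hcomb
    simpa using this
  · rw [Reg.succ_of_new hs hA hnew]
    obtain ⟨i, hfree, t', ht', hc1, hc2, hc3, hc4⟩ := h2
    have hv : Comp N A T j (t' (.inl 0)) := hc1
    have hsem := (hXX' _ _ _ _ _ _ b1 (ht' _) (ht' _)
      (by
        intro l
        split
        · exact ht' _
        · exact b4 l)
      (by
        intro x
        split
        · exact ht' _
        · exact b5 x) (fun _ => ht' _) hc3).2
    rw [hc2] at hsem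
    have hsem2 : Sem A {y | Comp N A T j y} T (fun x => (α x : ZMod (q + 1)))
        (fun x => (t (.inr x) : ZMod (q + 1))) := by
      refine sem_r1 hs hA (i := i) hfree hv hα
        (β := fun c => ((t' (.inr (.inl c)) : ℕ) : ZMod (q + 1)))
        (K' := fun x => ((t' (.inr (.inr x)) : ℕ) : ZMod (q + 1))) ?_ ?_
      · have e : (fun x : KI k => (((if x.1 = i then t' (.inr (.inl x.2)) else α x : ℕ)) :
            ZMod (q + 1))) = fun lc => if lc.1 = i then ((t' (.inr (.inl lc.2)) : ℕ) :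
            ZMod (q + 1)) else ((α lc : ℕ) : ZMod (q + 1)) := by
          funext x
          split <;> rfl
        rw [e] at hsem
        exact hsem
      · intro x y
        exact hc4 (Sum.elim x y)
    refine sem_union _ _ hS1 hsem2 (fun x hx => new_disj hs hA hnew hx)
      (fun x hx => Comp.notT hx) ?_ ?_ hcomb
    · intro x hx y hxy
      by_cases hy : ∀ l, y ≠ T l
      · exact Or.inl (Reg.closed hs hA hx hxy hy)
      · push Not at hy; exact Or.inr hy
    · intro x hx y hxy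
      by_cases hy : ∀ l, y ≠ T l
      · exact Or.inl (Comp.tail hx hxy hy)
      · push Not at hy; exact Or.inr hy

/-- **Soundness.** -/
theorem sound (hs : ∀ x y, A x y → A y x) (hA : ∀ x y, A x y → y < N) {D : ℕ}
    {XX : StRel k} (hind : Inductive k D N A XX) (hacc : Acc k D N A XX) :
    ∃ q, q < N ^ D ∧ (q + 1).Prime ∧ ∃ p : ℕ → Fin 3 → ZMod (q + 1), PR N A p := by
  obtain ⟨⟨q, v, j, T, α, K, ⟨b1, b2, b3, b4, b5, b6⟩, rfl, hj, hT, hXX⟩, hconn⟩ := hacc
  obtain ⟨hprime, p, -, hp⟩ := sem_of_xx hs hA hind b1 b2 b3 b4 b5 b6 hXX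
  refine ⟨q, b1, hprime, p, fun u hu hpin x hx c => ?_⟩
  rw [hj] at hp
  have hsat : SatS A (Reg N A T 0 N) p u :=
    ⟨fun x _ y hxy => hu x y hxy, fun x hx' => hpin x (Reg.lt hA hx')⟩
  have h0 : ∀ c, u 0 c = 0 := by
    intro c
    exact hpin 0 (by omega) c (Or.inl rfl)
  by_cases hx0 : x = 0
  · rw [hx0]; exact h0 c
  · refine (hp u hsat).2 (fun l c => by rw [hT l]; exact h0 c) x ?_ c
    have hcx : Comp N A T x x := Comp.refl hx (fun l => by rw [hT l]; exact hx0)
    exact ⟨hconn T hT x hx hx0, x, hx, hcx⟩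

end Pool.Agent.Lib.MP_37c7bf_co_h26tw

end SoundPart

section FinalPart

/-! # Generic rigidity in 3D is decidable in polynomial time on graphs of bounded treewidth -/

namespace Pool.Agent.Lib.MP_37c7bf_co_h26tw

open Pool.Agent.Lib.PolyTM Pool.Agent.Lib.FOLFP Function Turing Pool.Agent.H26R Pool.MP_35885f

/-- The small cases. -/
def smallRigid (n : ℕ) (H : SimpleGraph (Fin n)) : Prop := GenericallyRigid H

theorem small_iff (I : Graph) : Small smallRigid I.n (adjN I) ↔
    I.n ≤ 3 ∧ GenericallyRigid I.G := by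
  obtain ⟨n, G⟩ := I
  constructor
  · rintro ⟨n0, H, h1, h2, h3⟩
    have h2 : n = n0 := h2
    subst h2
    have hG : G = H := by
      ext i j
      rw [← h3 i j]
      constructor
      · intro h; exact ⟨i.2, j.2, h⟩
      · rintro ⟨_, _, h⟩; exact h
    subst hG
    exact ⟨by have := n0.2; change (n0 : ℕ) ≤ 3; omega, h1⟩
  · rintro ⟨h1, h2⟩
    have h1 : n ≤ 3 := h1
    refine ⟨⟨n, by omega⟩, G, h2, rfl, fun i j => ?_⟩
    constructor
    · rintro ⟨_, _, h⟩; exact h
    · intro h; exact ⟨i.2, j.2, h⟩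

theorem rigid_of_acc (I : Graph) {k : ℕ} {XX : StRel k} (hn : 3 < I.n)
    (hind : Inductive k 8 I.n (adjN I) XX) (hacc : Acc k 8 I.n (adjN I) XX) :
    GenericallyRigid I.G := by
  rw [generic_iff_mod (by omega)]
  exact sound (fun x y ⟨h1, h2, h3⟩ => ⟨h2, h1, h3.symm⟩) (fun x y h => h.2.1) hind hacc

theorem acc_of_rigid (I : Graph) {w : ℕ} {XX : StRel (w + 2)} (hn : 3 < I.n)
    (hcl : Closed (w + 2) 8 I.n (adjN I) XX) (D : TreeDecomp I.G)
    (hD : ∀ x, (D.bag x).card ≤ w + 1) (h : GenericallyRigid I.G) :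
    Acc (w + 2) 8 I.n (adjN I) XX := by
  rw [generic_iff_mod (by omega)] at h
  obtain ⟨q, hq, hprime, p, hp⟩ := h
  obtain ⟨τ, h1, h2, h3⟩ := exists_order I.G D w hD
  exact complete (fun x y ⟨h1, h2, h3⟩ => ⟨h2, h1, h3.symm⟩) (fun x y h => h.2.1)
    (fun x ⟨_, _, h⟩ => h.ne rfl) (by omega) (by omega) (Nat.le_self_pow (by norm_num) _) hprime hq
    hcl h1 h2 h3 hp

open Classical in
/-- **Main theorem.** -/
theorem main (w : ℕ) : ∃ (f : Graph → List Bool) (M : TM2ComputableInPolyTime Graph.encode id f),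
    (∀ k, Finite (M.tm.Γ k)) ∧
    (∀ I : Graph, TreewidthLE I.G w → f I = [decide (GenericallyRigid I.G)]) ∧
    ∀ I : Graph, f I = [true] → GenericallyRigid I.G := by
  obtain ⟨f, M, hM, hf⟩ := machine (w + 2) 7 smallRigid
  refine ⟨f, M, hM, fun I ⟨ι, hι, T, bag, hT, hconn, hedge, hD⟩ => ?_, fun I hI => ?_⟩
  · set D : TreeDecomp I.G := ⟨ι, hι, T, hT, bag, hconn, hedge⟩
    obtain ⟨XX, b, hcl, hind, hfb, hb⟩ := hf I
    rw [hfb, small_iff] at *
    have : b = decide (GenericallyRigid I.G) := by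
      rw [Bool.eq_iff_iff, hb, decide_eq_true_eq]
      constructor
      · rintro (⟨_, h⟩ | ⟨h1, h2⟩)
        · exact h
        · exact rigid_of_acc I h1 hind h2
      · intro h
        rcases Nat.lt_or_ge 3 I.n with hn | hn
        · exact Or.inr ⟨hn, acc_of_rigid I hn hcl D hD h⟩
        · exact Or.inl ⟨hn, h⟩
    rw [this]
  · obtain ⟨XX, b, hcl, hind, hfb, hb⟩ := hf I
    rw [hI] at hfb
    have hbt : b = true := by simpa using hfb.symm
    rw [small_iff] at hb
    rcases hb.1 hbt with ⟨_, h⟩ | ⟨h1, h2⟩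
    · exact h
    · exact rigid_of_acc I h1 hind h2

end Pool.Agent.Lib.MP_37c7bf_co_h26tw

end FinalPart
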