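import Pool.Agent.Lib.MP_37c7bf_co_h26tw.Dp
import Pool.Agent.Lib.FOLFP.Def

section ArithPart

/-! # Tables for modular arithmetic -/

namespace Pool.Agent.Lib.MP_37c7bf_co_h26tw

open Pool.Agent.Lib.PolyTM Pool.Agent.Lib.FOLFP Function

set_option linter.unusedSectionVars false

/-- Names of arrays: addition, multiplication, components, partial solutions, and clusters (not
used by the dynamic programme itself). -/
inductive Nm
  | pl | tm | cmp | xx | cl
  deriving DecidableEq, Fintype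

/-- Index places of the array of partial solutions: the modulus and two numbers, the positions
of the `k` pebbles, their coordinates, and a square matrix. -/
abbrev XI (k : ℕ) : Type :=
  Fin 3 ⊕ (Fin k ⊕ ((Fin k × Fin 3) ⊕ ((Fin k × Fin 3) × (Fin k × Fin 3))))

/-- Index places of the arrays. -/
abbrev idx (k : ℕ) : Nm → Type
  | .pl => Fin 4
  | .tm => Fin 4
  | .cmp => Fin k ⊕ Fin 2
  | .xx => XI k
  | .cl => Fin 14 ⊕ Unit

instance (k : ℕ) : ∀ w, Fintype (idx k w)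
  | .pl => inferInstanceAs (Fintype (Fin 4))
  | .tm => inferInstanceAs (Fintype (Fin 4))
  | .cmp => inferInstanceAs (Fintype (Fin k ⊕ Fin 2))
  | .xx => inferInstanceAs (Fintype (XI k))
  | .cl => inferInstanceAs (Fintype (Fin 14 ⊕ Unit))

instance (k : ℕ) : ∀ w, DecidableEq (idx k w)
  | .pl => inferInstanceAs (DecidableEq (Fin 4))
  | .tm => inferInstanceAs (DecidableEq (Fin 4))
  | .cmp => inferInstanceAs (DecidableEq (Fin k ⊕ Fin 2))
  | .xx => inferInstanceAs (DecidableEq (XI k))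
  | .cl => inferInstanceAs (DecidableEq (Fin 14 ⊕ Unit))

variable {k D : ℕ} {C : ℕ → Arr (Option Nm) → Prop} {κ : Type} [DecidableEq κ]

/-- Access to the addition table. -/
abbrev Pl (k D N : ℕ) (a : Arr (Option Nm)) (q x y z : ℕ) : Prop :=
  BA (idx k) D N a .pl ![q, x, y, z]

/-- Access to the multiplication table. -/
abbrev Tm (k D N : ℕ) (a : Arr (Option Nm)) (q x y z : ℕ) : Prop :=
  BA (idx k) D N a .tm ![q, x, y, z]

theorem bdef_pl (q x y z : κ) :
    BDef (idx k) D C κ (fun N a e => Pl k D N a (e q) (e x) (e y) (e z)) := by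
  refine (BDef.arr (ι := idx k) .pl ![q, x, y, z]).congr ?_
  intro N a e _ _
  have : e ∘ ![q, x, y, z] = ![e q, e x, e y, e z] := by
    funext i; fin_cases i <;> rfl
  rw [this]

theorem bdef_tm (q x y z : κ) :
    BDef (idx k) D C κ (fun N a e => Tm k D N a (e q) (e x) (e y) (e z)) := by
  refine (BDef.arr (ι := idx k) .tm ![q, x, y, z]).congr ?_
  intro N a e _ _
  have : e ∘ ![q, x, y, z] = ![e q, e x, e y, e z] := by
    funext i; fin_cases i <;> rfl
  rw [this]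

/-- The rule for addition modulo `E 0 + 1`. -/
def RPl (k D N : ℕ) (a : Arr (Option Nm)) (E : Fin 4 → ℕ) : Prop :=
  (E 1 = 0 ∧ E 2 = 0 ∧ E 3 = 0) ∨ ∃ t : Fin 2 → ℕ, (∀ l, t l < N ^ D) ∧
    (((E 1 = t 0 + 1 ∧ Pl k D N a (E 0) (t 0) (E 2) (t 1)) ∨
      (E 2 = t 0 + 1 ∧ Pl k D N a (E 0) (E 1) (t 0) (t 1))) ∧
    ((E 3 = t 1 + 1 ∧ t 1 < E 0) ∨ (t 1 = E 0 ∧ E 3 = 0)))

theorem bdef_RPl : BDef (idx k) D C (Fin 4) (RPl k D) := by
  have h : BDef (idx k) D C (Fin 4 ⊕ Fin 2) (fun N a e =>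
      (((e (.inl 1) = e (.inr 0) + 1 ∧
        Pl k D N a (e (.inl 0)) (e (.inr 0)) (e (.inl 2)) (e (.inr 1))) ∨
      (e (.inl 2) = e (.inr 0) + 1 ∧
        Pl k D N a (e (.inl 0)) (e (.inl 1)) (e (.inr 0)) (e (.inr 1)))) ∧
    ((e (.inl 3) = e (.inr 1) + 1 ∧ e (.inr 1) < e (.inl 0)) ∨
      (e (.inr 1) = e (.inl 0) ∧ e (.inl 3) = 0)))) :=
    (((BDef.isSucc _ _).and (bdef_pl _ _ _ _)).or ((BDef.isSucc _ _).and (bdef_pl _ _ _ _))).and
      (((BDef.isSucc _ _).and (BDef.lt _ _)).or ((BDef.eq _ _).and (BDef.isZero _)))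
  exact ((BDef.isZero 1).and ((BDef.isZero 2).and (BDef.isZero 3))).or h.ex

/-- The rule for multiplication modulo `E 0 + 1`. -/
def RTm (k D N : ℕ) (a : Arr (Option Nm)) (E : Fin 4 → ℕ) : Prop :=
  (E 2 = 0 ∧ E 3 = 0) ∨ ∃ t : Fin 2 → ℕ, (∀ l, t l < N ^ D) ∧
    (E 2 = t 0 + 1 ∧ Tm k D N a (E 0) (E 1) (t 0) (t 1) ∧ Pl k D N a (E 0) (t 1) (E 1) (E 3))

theorem bdef_RTm : BDef (idx k) D C (Fin 4) (RTm k D) := by
  have h : BDef (idx k) D C (Fin 4 ⊕ Fin 2) (fun N a e =>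
      (e (.inl 2) = e (.inr 0) + 1 ∧
        Tm k D N a (e (.inl 0)) (e (.inl 1)) (e (.inr 0)) (e (.inr 1)) ∧
        Pl k D N a (e (.inl 0)) (e (.inr 1)) (e (.inl 1)) (e (.inl 3)))) :=
    (BDef.isSucc _ _).and ((bdef_tm _ _ _ _).and (bdef_pl _ _ _ _))
  exact ((BDef.isZero 2).and (BDef.isZero 3)).or h.ex

/-- The addition table is correct. -/
def PlOK (k D N : ℕ) (a : Arr (Option Nm)) : Prop :=
  ∀ q x y z, q < N ^ D → x < N ^ D → y < N ^ D → z < N ^ D →
    (Pl k D N a q x y z ↔ z = (x + y) % (q + 1))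

/-- The multiplication table is correct. -/
def TmOK (k D N : ℕ) (a : Arr (Option Nm)) : Prop :=
  ∀ q x y z, q < N ^ D → x < N ^ D → y < N ^ D → z < N ^ D →
    (Tm k D N a q x y z ↔ z = (x * y) % (q + 1))

theorem BA_congr {N : ℕ} {a a' : Arr (Option Nm)} {w : Nm} (h : a (some w) = a' (some w))
    (E : idx k w → ℕ) : BA (idx k) D N a w E ↔ BA (idx k) D N a' w E := by
  unfold BA; rw [h]

theorem PlOK.congr {N : ℕ} {a a' : Arr (Option Nm)} (h : PlOK k D N a)
    (ha : a' (some .pl) = a (some .pl)) : PlOK k D N a' := by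
  intro q x y z hq hx hy hz
  rw [← h q x y z hq hx hy hz]
  exact BA_congr ha _

theorem TmOK.congr {N : ℕ} {a a' : Arr (Option Nm)} (h : TmOK k D N a)
    (ha : a' (some .tm) = a (some .tm)) : TmOK k D N a' := by
  intro q x y z hq hx hy hz
  rw [← h q x y z hq hx hy hz]
  exact BA_congr ha _

theorem vec4 (E : Fin 4 → ℕ) : ![E 0, E 1, E 2, E 3] = E := by
  funext i; fin_cases i <;> rfl

/-- Correctness of the addition table. -/
theorem pl_ok {N : ℕ} {σ τ : AS (Option Nm ⊕ Option Nm)}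
    (h : BSpec (idx k) D C .pl (RPl k D) N σ τ) (hC : C N (mn σ))
    (h0 : ∀ l, mn σ (some Nm.pl) l = false) : PlOK k D N (mn τ) := by
  obtain ⟨-, -, h3, h4⟩ := h hC h0
  have hsound : ∀ E : Fin 4 → ℕ, (∀ i, E i < N ^ D) → BA (idx k) D N (mn τ) .pl E →
      E 3 = (E 1 + E 2) % (E 0 + 1) := by
    refine h4 (fun E => E 3 = (E 1 + E 2) % (E 0 + 1)) ?_
    intro M _ hM E hE hR
    have hstep : ∀ z : ℕ, z = (z % (E 0 + 1)) →
        ((E 3 = z + 1 ∧ z < E 0) ∨ (z = E 0 ∧ E 3 = 0)) → E 3 = (z + 1) % (E 0 + 1) := by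
      rintro z hz (⟨h1, h2⟩ | ⟨h1, h2⟩)
      · rw [h1, Nat.mod_eq_of_lt (by omega)]
      · rw [h2, h1, Nat.mod_self]
    rcases hR with ⟨h1, h2, h3⟩ | ⟨t, ht, h1, h2⟩
    · simp [h1, h2, h3]
    · rcases h1 with ⟨h5, h6⟩ | ⟨h5, h6⟩
      · have h7 : t 1 = (t 0 + E 2) % (E 0 + 1) := by
          have := hM ![E 0, t 0, E 2, t 1]
            (by intro i; fin_cases i; exacts [hE 0, ht 0, hE 2, ht 1]) h6
          exact this
        have := hstep (t 1) (by rw [h7]; simp) h2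
        change E 3 = (E 1 + E 2) % (E 0 + 1)
        rw [this, h7, h5, Nat.mod_add_mod]
        congr 1
        omega
      · have h7 : t 1 = (E 1 + t 0) % (E 0 + 1) := by
          have := hM ![E 0, E 1, t 0, t 1]
            (by intro i; fin_cases i; exacts [hE 0, hE 1, ht 0, ht 1]) h6
          exact this
        have := hstep (t 1) (by rw [h7]; simp) h2
        change E 3 = (E 1 + E 2) % (E 0 + 1)
        rw [this, h7, h5, Nat.mod_add_mod]
        congr 1
  have hsucc : ∀ q s : ℕ, ((s + 1) % (q + 1) = s % (q + 1) + 1 ∧ s % (q + 1) < q) ∨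
      (s % (q + 1) = q ∧ (s + 1) % (q + 1) = 0) := by
    intro q s
    have h1 : s % (q + 1) < q + 1 := Nat.mod_lt _ (by omega)
    rcases Nat.lt_or_ge (s % (q + 1)) q with h | h
    · left
      refine ⟨?_, h⟩
      rw [Nat.add_mod]
      rcases Nat.eq_zero_or_pos q with hq | hq
      · omega
      · rw [Nat.mod_eq_of_lt (a := 1) (by omega), Nat.mod_eq_of_lt (by omega)]
    · right
      have h2 : s % (q + 1) = q := by omega
      refine ⟨h2, ?_⟩
      rcases Nat.eq_zero_or_pos q with hq | hq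
      · subst hq; simp [Nat.mod_one]
      · rw [Nat.add_mod, h2, Nat.mod_eq_of_lt (a := 1) (by omega), Nat.mod_self]
  have hlt : ∀ q s : ℕ, q < N ^ D → s % (q + 1) < N ^ D := fun q s hq =>
    lt_of_le_of_lt (Nat.lt_succ_iff.1 (Nat.mod_lt _ (by omega))) hq
  have hcomp : ∀ q, q < N ^ D → ∀ x, x < N ^ D → ∀ y, y < N ^ D →
      Pl k D N (mn τ) q x y ((x + y) % (q + 1)) := by
    intro q hq x
    induction x with
    | zero =>
      intro hx y
      induction y with
      | zero =>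
        intro hy
        refine h3 _ (by intro i; fin_cases i; exacts [hq, hx, hy, hlt q _ hq]) (Or.inl ?_)
        simp
      | succ y ih =>
        intro hy
        have := ih (by omega)
        refine h3 _ (by intro i; fin_cases i; exacts [hq, hx, hy, hlt q _ hq])
          (Or.inr ⟨![y, (0 + y) % (q + 1)], ?_, Or.inr ⟨rfl, this⟩, ?_⟩)
        · intro l
          fin_cases l
          · change y < N ^ D; omega
          · exact hlt q _ hq
        · exact hsucc q (0 + y)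
    | succ x ih =>
      intro hx y hy
      have := ih (by omega) y hy
      refine h3 _ (by intro i; fin_cases i; exacts [hq, hx, hy, hlt q _ hq])
          (Or.inr ⟨![x, (x + y) % (q + 1)], ?_, Or.inl ⟨rfl, this⟩, ?_⟩)
      · intro l
        fin_cases l
        · change x < N ^ D; omega
        · exact hlt q _ hq
      · have := hsucc q (x + y)
        rw [show x + y + 1 = x + 1 + y by ring] at this
        exact this
  intro q x y z hq hx hy hz
  constructor
  · intro h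
    exact hsound ![q, x, y, z] (by intro i; fin_cases i; exacts [hq, hx, hy, hz]) h
  · rintro rfl
    exact hcomp q hq x hx y hy

/-- Correctness of the multiplication table. -/
theorem tm_ok {N : ℕ} {σ τ : AS (Option Nm ⊕ Option Nm)}
    (h : BSpec (idx k) D C .tm (RTm k D) N σ τ) (hC : C N (mn σ))
    (h0 : ∀ l, mn σ (some Nm.tm) l = false) (hP : PlOK k D N (mn σ)) :
    TmOK k D N (mn τ) := by
  obtain ⟨-, h2', h3, h4⟩ := h hC h0
  have hP' : PlOK k D N (mn τ) := hP.congr (h2' _ (by simp))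
  have hsound : ∀ E : Fin 4 → ℕ, (∀ i, E i < N ^ D) → BA (idx k) D N (mn τ) .tm E →
      E 3 = (E 1 * E 2) % (E 0 + 1) := by
    refine h4 (fun E => E 3 = (E 1 * E 2) % (E 0 + 1)) ?_
    intro M hM' hM E hE hR
    have hPM : PlOK k D N M := hP'.congr (hM' _ (by simp))
    rcases hR with ⟨h1, h2⟩ | ⟨t, ht, h1, h2, h3⟩
    · simp [h1, h2]
    · have h5 : t 1 = (E 1 * t 0) % (E 0 + 1) :=
        hM ![E 0, E 1, t 0, t 1] (by intro i; fin_cases i; exacts [hE 0, hE 1, ht 0, ht 1]) h2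
      have h6 := (hPM _ _ _ _ (hE 0) (ht 1) (hE 1) (hE 3)).1 h3
      change E 3 = (E 1 * E 2) % (E 0 + 1)
      rw [h6, h5, h1, Nat.mod_add_mod]
      congr 1
  have hlt : ∀ q s : ℕ, q < N ^ D → s % (q + 1) < N ^ D := fun q s hq =>
    lt_of_le_of_lt (Nat.lt_succ_iff.1 (Nat.mod_lt _ (by omega))) hq
  have hcomp : ∀ q, q < N ^ D → ∀ x, x < N ^ D → ∀ y, y < N ^ D →
      Tm k D N (mn τ) q x y ((x * y) % (q + 1)) := by
    intro q hq x hx y
    induction y with
    | zero =>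
      intro hy
      refine h3 _ (by intro i; fin_cases i; exacts [hq, hx, hy, hlt q _ hq]) (Or.inl ?_)
      simp
    | succ y ih =>
      intro hy
      have := ih (by omega)
      refine h3 _ (by intro i; fin_cases i; exacts [hq, hx, hy, hlt q _ hq])
        (Or.inr ⟨![y, (x * y) % (q + 1)], ?_, rfl, this, ?_⟩)
      · intro l
        fin_cases l
        · change y < N ^ D; omega
        · exact hlt q _ hq
      · refine (hP' _ _ _ _ hq (hlt q _ hq) hx (hlt q _ hq)).2 ?_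
        change (x * (y + 1)) % (q + 1) = _
        rw [Nat.mod_add_mod]
        congr 1
  intro q x y z hq hx hy hz
  constructor
  · intro h
    exact hsound ![q, x, y, z] (by intro i; fin_cases i; exacts [hq, hx, hy, hz]) h
  · rintro rfl
    exact hcomp q hq x hx y hy

end Pool.Agent.Lib.MP_37c7bf_co_h26tw

end ArithPart

section FieldPart

/-! # Definability of expressions over a prime field -/

namespace Pool.Agent.Lib.MP_37c7bf_co_h26tw

open Pool.Agent.Lib.PolyTM Pool.Agent.Lib.FOLFP Function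

set_option linter.unusedSectionVars false

/-- The tables are correct. -/
def ArOK (k D N : ℕ) (a : Arr (Option Nm)) : Prop := PlOK k D N a ∧ TmOK k D N a

variable {k D : ℕ} {C : ℕ → Arr (Option Nm) → Prop} {κ κ' lam : Type} [DecidableEq κ]
  [DecidableEq κ'] [DecidableEq lam]

theorem mod_lt_of {q s M : ℕ} (hq : q < M) : s % (q + 1) < M :=
  lt_of_le_of_lt (Nat.lt_succ_iff.1 (Nat.mod_lt _ (by omega))) hq

theorem cast_eq_iff {m x y : ℕ} : ((x : ZMod m) = (y : ZMod m)) ↔ x % m = y % m := by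
  rw [ZMod.natCast_eq_natCast_iff']

theorem val_bound {q M : ℕ} (hq : q < M) (x : ZMod (q + 1)) : x.val < M := by
  have := ZMod.val_lt x
  omega

theorem bdef_cast_eq (hC : ∀ N a, C N a → ArOK k D N a) (q x y : κ) :
    BDef (idx k) D C κ (fun _ _ e => ((e x : ℕ) : ZMod (e q + 1)) = ((e y : ℕ) : ZMod (e q + 1)))
    := by
  have h : BDef (idx k) D C (κ ⊕ Fin 2) (fun N a e => e (.inr 0) = 0 ∧
      Pl k D N a (e (.inl q)) (e (.inl x)) (e (.inr 0)) (e (.inr 1)) ∧
      Pl k D N a (e (.inl q)) (e (.inl y)) (e (.inr 0)) (e (.inr 1))) :=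
    (BDef.isZero _).and ((bdef_pl _ _ _ _).and (bdef_pl _ _ _ _))
  refine h.ex.congr ?_
  intro N a e ha he
  obtain ⟨hp, -⟩ := hC N a ha
  simp only [Sum.elim_inl, Sum.elim_inr]
  rw [cast_eq_iff]
  constructor
  · rintro ⟨t, ht, h0, h1, h2⟩
    rw [hp _ _ _ _ (he _) (he _) (ht _) (ht _), h0, add_zero] at h1 h2
    rw [← h1, ← h2]
  · intro h
    have h0 : 0 < N ^ D := lt_of_le_of_lt (Nat.zero_le _) (he q)
    refine ⟨![0, e x % (e q + 1)], ?_, rfl, ?_, ?_⟩
    · intro l; fin_cases l; exacts [h0, mod_lt_of (he q)]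
    · exact (hp _ _ _ _ (he _) (he _) h0 (mod_lt_of (he q))).2 (by simp)
    · exact (hp _ _ _ _ (he _) (he _) h0 (mod_lt_of (he q))).2 (by simpa using h)

theorem bdef_cast_add (hC : ∀ N a, C N a → ArOK k D N a) (q x y z : κ) :
    BDef (idx k) D C κ (fun _ _ e => ((e x : ℕ) : ZMod (e q + 1)) =
      ((e y : ℕ) : ZMod (e q + 1)) + ((e z : ℕ) : ZMod (e q + 1))) := by
  have h : BDef (idx k) D C (κ ⊕ Fin 2) (fun N a e => e (.inr 0) = 0 ∧
      Pl k D N a (e (.inl q)) (e (.inl x)) (e (.inr 0)) (e (.inr 1)) ∧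
      Pl k D N a (e (.inl q)) (e (.inl y)) (e (.inl z)) (e (.inr 1))) :=
    (BDef.isZero _).and ((bdef_pl _ _ _ _).and (bdef_pl _ _ _ _))
  refine h.ex.congr ?_
  intro N a e ha he
  obtain ⟨hp, -⟩ := hC N a ha
  simp only [Sum.elim_inl, Sum.elim_inr]
  rw [← Nat.cast_add, cast_eq_iff]
  constructor
  · rintro ⟨t, ht, h0, h1, h2⟩
    rw [hp _ _ _ _ (he _) (he _) (ht _) (ht _)] at h1
    rw [hp _ _ _ _ (he _) (he _) (he _) (ht _)] at h2
    rw [h0, add_zero] at h1
    rw [← h1, ← h2]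
  · intro h
    have h0 : 0 < N ^ D := lt_of_le_of_lt (Nat.zero_le _) (he q)
    refine ⟨![0, e x % (e q + 1)], ?_, rfl, ?_, ?_⟩
    · intro l; fin_cases l; exacts [h0, mod_lt_of (he q)]
    · exact (hp _ _ _ _ (he _) (he _) h0 (mod_lt_of (he q))).2 (by simp)
    · exact (hp _ _ _ _ (he _) (he _) (he _) (mod_lt_of (he q))).2 h

theorem bdef_cast_mul (hC : ∀ N a, C N a → ArOK k D N a) (q x y z : κ) :
    BDef (idx k) D C κ (fun _ _ e => ((e x : ℕ) : ZMod (e q + 1)) =
      ((e y : ℕ) : ZMod (e q + 1)) * ((e z : ℕ) : ZMod (e q + 1))) := by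
  have h : BDef (idx k) D C (κ ⊕ Fin 2) (fun N a e => e (.inr 0) = 0 ∧
      Pl k D N a (e (.inl q)) (e (.inl x)) (e (.inr 0)) (e (.inr 1)) ∧
      Tm k D N a (e (.inl q)) (e (.inl y)) (e (.inl z)) (e (.inr 1))) :=
    (BDef.isZero _).and ((bdef_pl _ _ _ _).and (bdef_tm _ _ _ _))
  refine h.ex.congr ?_
  intro N a e ha he
  obtain ⟨hp, hm⟩ := hC N a ha
  simp only [Sum.elim_inl, Sum.elim_inr]
  rw [← Nat.cast_mul, cast_eq_iff]
  constructor
  · rintro ⟨t, ht, h0, h1, h2⟩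
    rw [hp _ _ _ _ (he _) (he _) (ht _) (ht _)] at h1
    rw [hm _ _ _ _ (he _) (he _) (he _) (ht _)] at h2
    rw [h0, add_zero] at h1
    rw [← h1, ← h2]
  · intro h
    have h0 : 0 < N ^ D := lt_of_le_of_lt (Nat.zero_le _) (he q)
    refine ⟨![0, e x % (e q + 1)], ?_, rfl, ?_, ?_⟩
    · intro l; fin_cases l; exacts [h0, mod_lt_of (he q)]
    · exact (hp _ _ _ _ (he _) (he _) h0 (mod_lt_of (he q))).2 (by simp)
    · exact (hm _ _ _ _ (he _) (he _) (he _) (mod_lt_of (he q))).2 h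

/-- Quantification over vectors of field elements. -/
theorem BDef.exF [Fintype lam] (q : κ)
    {S : ∀ m : ℕ, ℕ → Arr (Option Nm) → (κ → ℕ) → (lam → ZMod m) → Prop}
    (h : BDef (idx k) D C (κ ⊕ lam) (fun N a e =>
      S (e (Sum.inl q) + 1) N a (e ∘ Sum.inl) (fun l => ((e (Sum.inr l) : ℕ) : ZMod _)))) :
    BDef (idx k) D C κ (fun N a e => ∃ x : lam → ZMod (e q + 1), S (e q + 1) N a e x) := by
  refine h.ex.congr ?_
  intro N a e _ he
  constructor
  · rintro ⟨t, -, h⟩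
    exact ⟨_, h⟩
  · rintro ⟨x, h⟩
    refine ⟨fun l => (x l).val, fun l => val_bound (he q) _, ?_⟩
    have : (fun l => (((x l).val : ℕ) : ZMod (e q + 1))) = x := by
      funext l
      exact ZMod.natCast_zmod_val _
    change S (e q + 1) N a e (fun l => (((x l).val : ℕ) : ZMod (e q + 1)))
    rw [this]
    exact h

theorem BDef.allF [Fintype lam] (q : κ)
    {S : ∀ m : ℕ, ℕ → Arr (Option Nm) → (κ → ℕ) → (lam → ZMod m) → Prop}
    (h : BDef (idx k) D C (κ ⊕ lam) (fun N a e =>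
      S (e (Sum.inl q) + 1) N a (e ∘ Sum.inl) (fun l => ((e (Sum.inr l) : ℕ) : ZMod _)))) :
    BDef (idx k) D C κ (fun N a e => ∀ x : lam → ZMod (e q + 1), S (e q + 1) N a e x) := by
  refine (BDef.exF q (S := fun m N a e x => ¬ S m N a e x) h.not).not.congr ?_
  intro N a e _ _
  push Not
  rfl

/-- Definability of a field-valued function. -/
def FDef (k D : ℕ) (C : ℕ → Arr (Option Nm) → Prop) (κ : Type) [DecidableEq κ] (q : κ)
    (g : ∀ m : ℕ, ℕ → Arr (Option Nm) → (κ → ℕ) → ZMod m) : Prop :=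
  BDef (idx k) D C (κ ⊕ Unit) (fun N a e =>
    ((e (Sum.inr ()) : ℕ) : ZMod (e (Sum.inl q) + 1)) = g (e (Sum.inl q) + 1) N a (e ∘ Sum.inl))

namespace FDef

variable {q : κ} {g g' : ∀ m : ℕ, ℕ → Arr (Option Nm) → (κ → ℕ) → ZMod m}

theorem lift [Fintype κ] (f : κ → κ') (h : FDef k D C κ q g) :
    FDef k D C κ' (f q) (fun m N a e => g m N a (e ∘ f)) :=
  BDef.subst (κ' := κ' ⊕ Unit) (Sum.map f id) h

theorem bind {S : ∀ m : ℕ, ℕ → Arr (Option Nm) → (κ → ℕ) → ZMod m → Prop}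
    (h : FDef k D C κ q g) (hS : BDef (idx k) D C (κ ⊕ Unit) (fun N a e =>
      S (e (Sum.inl q) + 1) N a (e ∘ Sum.inl) ((e (Sum.inr ()) : ℕ) : ZMod _))) :
    BDef (idx k) D C κ (fun N a e => S (e q + 1) N a e (g (e q + 1) N a e)) := by
  have h1 := BDef.and h hS
  refine (BDef.exF (lam := Unit) q (S := fun m N a e x => x () = g m N a e ∧ S m N a e (x ()))
    h1).congr ?_
  intro N a e _ _
  constructor
  · rintro ⟨x, h1, h2⟩
    rw [← h1]; exact h2
  · intro h
    exact ⟨fun _ => g _ N a e, rfl, h⟩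

theorem var (hC : ∀ N a, C N a → ArOK k D N a) (x : κ) :
    FDef k D C κ q (fun _ _ _ e => ((e x : ℕ) : ZMod _)) :=
  bdef_cast_eq hC (Sum.inl q) (Sum.inr ()) (Sum.inl x)

theorem zero (hC : ∀ N a, C N a → ArOK k D N a) : FDef k D C κ q (fun _ _ _ _ => 0) := by
  have h : BDef (idx k) D C ((κ ⊕ Unit) ⊕ Unit) (fun _ _ e => e (Sum.inr ()) = 0 ∧
      ((e (Sum.inl (Sum.inr ())) : ℕ) : ZMod (e (Sum.inl (Sum.inl q)) + 1)) =
        ((e (Sum.inr ()) : ℕ) : ZMod (e (Sum.inl (Sum.inl q)) + 1))) :=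
    (BDef.isZero _).and (bdef_cast_eq hC _ _ _)
  refine h.ex1.congr ?_
  intro N a e _ he
  change (∃ t < N ^ D, t = 0 ∧ ((e (Sum.inr ()) : ℕ) : ZMod (e (Sum.inl q) + 1)) =
    ((t : ℕ) : ZMod (e (Sum.inl q) + 1))) ↔
    ((e (Sum.inr ()) : ℕ) : ZMod (e (Sum.inl q) + 1)) = 0
  constructor
  · rintro ⟨t, _, rfl, h⟩
    simpa using h
  · intro h
    exact ⟨0, lt_of_le_of_lt (Nat.zero_le _) (he (Sum.inl q)), rfl, by simpa using h⟩

theorem one (hC : ∀ N a, C N a → ArOK k D N a) : FDef k D C κ q (fun _ _ _ _ => 1) := by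
  have h : BDef (idx k) D C ((κ ⊕ Unit) ⊕ Unit) (fun _ _ e => e (Sum.inr ()) = 1 ∧
      ((e (Sum.inl (Sum.inr ())) : ℕ) : ZMod (e (Sum.inl (Sum.inl q)) + 1)) =
        ((e (Sum.inr ()) : ℕ) : ZMod (e (Sum.inl (Sum.inl q)) + 1))) :=
    (BDef.isConst 1 _).and (bdef_cast_eq hC _ _ _)
  refine (h.ex1.or ((BDef.isZero (Sum.inl q)))).congr ?_
  intro N a e _ he
  change ((∃ t < N ^ D, t = 1 ∧ ((e (Sum.inr ()) : ℕ) : ZMod (e (Sum.inl q) + 1)) =
    ((t : ℕ) : ZMod (e (Sum.inl q) + 1))) ∨ e (Sum.inl q) = 0) ↔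
    ((e (Sum.inr ()) : ℕ) : ZMod (e (Sum.inl q) + 1)) = 1
  constructor
  · rintro (⟨t, _, rfl, h⟩ | h)
    · simpa using h
    · have : e (Sum.inl q) + 1 = 1 := by omega
      have h1 : Subsingleton (ZMod (e (Sum.inl q) + 1)) := by
        rw [this]; infer_instance
      exact Subsingleton.elim _ _
  · intro h
    rcases Nat.eq_zero_or_pos (e (Sum.inl q)) with h0 | h0
    · exact Or.inr h0
    · exact Or.inl ⟨1, lt_of_le_of_lt h0 (he (Sum.inl q)), rfl, by simpa using h⟩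

theorem eq [Fintype κ] (hC : ∀ N a, C N a → ArOK k D N a) (h : FDef k D C κ q g)
    (h' : FDef k D C κ q g') :
    BDef (idx k) D C κ (fun N a e => g (e q + 1) N a e = g' (e q + 1) N a e) := by
  refine h'.bind (S := fun m N a e y => g m N a e = y) ?_
  refine (h.lift Sum.inl).bind (S := fun m N a e x => x = ((e (Sum.inr ()) : ℕ) : ZMod m)) ?_
  exact bdef_cast_eq hC _ _ _

theorem add [Fintype κ] (hC : ∀ N a, C N a → ArOK k D N a) (h : FDef k D C κ q g)
    (h' : FDef k D C κ q g') : FDef k D C κ q (fun m N a e => g m N a e + g' m N a e) := by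
  refine (h'.lift Sum.inl).bind (S := fun m N a e y => ((e (Sum.inr ()) : ℕ) : ZMod m) =
    g m N a (e ∘ Sum.inl) + y) ?_
  refine ((h.lift Sum.inl).lift Sum.inl).bind (S := fun m N a e x =>
    ((e (Sum.inl (Sum.inr ())) : ℕ) : ZMod m) = x + ((e (Sum.inr ()) : ℕ) : ZMod m)) ?_
  exact bdef_cast_add hC _ _ _ _

theorem mul [Fintype κ] (hC : ∀ N a, C N a → ArOK k D N a) (h : FDef k D C κ q g)
    (h' : FDef k D C κ q g') : FDef k D C κ q (fun m N a e => g m N a e * g' m N a e) := by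
  refine (h'.lift Sum.inl).bind (S := fun m N a e y => ((e (Sum.inr ()) : ℕ) : ZMod m) =
    g m N a (e ∘ Sum.inl) * y) ?_
  refine ((h.lift Sum.inl).lift Sum.inl).bind (S := fun m N a e x =>
    ((e (Sum.inl (Sum.inr ())) : ℕ) : ZMod m) = x * ((e (Sum.inr ()) : ℕ) : ZMod m)) ?_
  exact bdef_cast_mul hC _ _ _ _

theorem sub [Fintype κ] (hC : ∀ N a, C N a → ArOK k D N a) (h : FDef k D C κ q g)
    (h' : FDef k D C κ q g') : FDef k D C κ q (fun m N a e => g m N a e - g' m N a e) := by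
  have key : BDef (idx k) D C (κ ⊕ Unit) (fun N a e => g (e (Sum.inl q) + 1) N a (e ∘ Sum.inl) =
      ((e (Sum.inr ()) : ℕ) : ZMod (e (Sum.inl q) + 1)) +
        g' (e (Sum.inl q) + 1) N a (e ∘ Sum.inl)) := by
    refine (h.lift Sum.inl).bind (S := fun m N a e x => x =
      ((e (Sum.inr ()) : ℕ) : ZMod m) + g' m N a (e ∘ Sum.inl)) ?_
    refine ((h'.lift Sum.inl).lift Sum.inl).bind (S := fun m N a e x =>
      ((e (Sum.inr ()) : ℕ) : ZMod m) = ((e (Sum.inl (Sum.inr ())) : ℕ) : ZMod m) + x) ?_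
    exact bdef_cast_add hC _ _ _ _
  refine key.congr ?_
  intro N a e _ _
  rw [eq_comm, ← eq_sub_iff_add_eq]

theorem congr (h : FDef k D C κ q g) (hg : ∀ m N a e, g m N a e = g' m N a e) :
    FDef k D C κ q g' := by
  have : g = g' := by
    funext m N a e
    exact hg m N a e
  rwa [← this]

theorem sum [Fintype κ] (hC : ∀ N a, C N a → ArOK k D N a) {J : Type*} [Fintype J]
    {g : J → ∀ m : ℕ, ℕ → Arr (Option Nm) → (κ → ℕ) → ZMod m}
    (h : ∀ j, FDef k D C κ q (g j)) : FDef k D C κ q (fun m N a e => ∑ j, g j m N a e) := by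
  classical
  have key : ∀ s : Finset J, FDef k D C κ q (fun m N a e => ∑ j ∈ s, g j m N a e) := by
    intro s
    induction s using Finset.induction_on with
    | empty => simpa using zero hC
    | insert j s hj ih =>
      refine ((h j).add hC ih).congr ?_
      intro m N a e
      rw [Finset.sum_insert hj]
  exact key Finset.univ

end FDef

end Pool.Agent.Lib.MP_37c7bf_co_h26tw

end FieldPart

section DpDefPart

/-! # Definability of the rules of the dynamic programme -/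

namespace Pool.Agent.Lib.MP_37c7bf_co_h26tw

open Pool.Agent.Lib.PolyTM Pool.Agent.Lib.FOLFP Function

set_option linter.unusedSectionVars false

variable {k D : ℕ} {C : ℕ → Arr (Option Nm) → Prop} {κ κ' lam : Type} [DecidableEq κ]
  [DecidableEq κ'] [DecidableEq lam]

/-! ### Components -/

/-- The rule for components. -/
def RCmp (k D N : ℕ) (a : Arr (Option Nm)) (E : Fin k ⊕ Fin 2 → ℕ) : Prop :=
  E (.inr 0) < N ∧ (∀ l, E (.inr 0) ≠ E (.inl l)) ∧ (E (.inr 1) = E (.inr 0) ∨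
    ∃ t < N ^ D, BA (idx k) D N a .cmp (Sum.elim (fun l => E (.inl l)) ![E (.inr 0), t]) ∧
      BAdj N a t (E (.inr 1)) ∧ ∀ l, E (.inr 1) ≠ E (.inl l))

theorem bdef_cmp (T : Fin k → κ) (z y : κ) : BDef (idx k) D C κ (fun N a e =>
    BA (idx k) D N a .cmp (Sum.elim (fun l => e (T l)) ![e z, e y])) := by
  refine (BDef.arr (ι := idx k) .cmp (Sum.elim T ![z, y])).congr ?_
  intro N a e _ _
  have : e ∘ (Sum.elim T ![z, y]) = Sum.elim (fun l => e (T l)) ![e z, e y] := by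
    funext i
    rcases i with i | i
    · rfl
    · fin_cases i <;> rfl
  rw [this]

theorem bdef_RCmp : BDef (idx k) (D + 1) C (Fin k ⊕ Fin 2) (RCmp k (D + 1)) := by
  have h : BDef (idx k) (D + 1) C ((Fin k ⊕ Fin 2) ⊕ Unit) (fun N a e =>
      BA (idx k) (D + 1) N a .cmp (Sum.elim (fun l => e (.inl (.inl l)))
        ![e (.inl (.inr 0)), e (.inr ())]) ∧
      BAdj N a (e (.inr ())) (e (.inl (.inr 1))) ∧
      ∀ l, ¬ e (.inl (.inr 1)) = e (.inl (.inl l))) :=
    (bdef_cmp _ _ _).and ((BDef.adj _ _).and (BDef.forall' fun l => (BDef.eq _ _).not))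
  exact (BDef.isVert _).and ((BDef.forall' fun l => (BDef.eq _ _).not).and
    ((BDef.eq _ _).or h.ex1))

/-- The table of components is correct. -/
def CmpOK (k D N : ℕ) (a : Arr (Option Nm)) : Prop :=
  ∀ (T : Fin k → ℕ) (z y : ℕ), (∀ l, T l < N ^ D) → z < N ^ D → y < N ^ D →
    (BA (idx k) D N a .cmp (Sum.elim T ![z, y]) ↔ Comp N (BAdj N a) T z y)

theorem CmpOK.congr {N : ℕ} {a a' : Arr (Option Nm)} (h : CmpOK k D N a)
    (ha : a' (some .cmp) = a (some .cmp)) (ha' : a' none = a none) : CmpOK k D N a' := by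
  intro T z y hT hz hy
  have h1 : BAdj N a' = BAdj N a := by
    funext x y
    unfold BAdj
    rw [ha']
  rw [h1, ← h T z y hT hz hy]
  exact BA_congr ha _

theorem pow_ge {N D : ℕ} {x : ℕ} (h : x < N) : x < N ^ (D + 1) := by
  have h1 : 0 < N ^ D := pow_pos (by omega) _
  calc x < N := h
    _ ≤ N ^ D * N := Nat.le_mul_of_pos_left _ h1
    _ = N ^ (D + 1) := (pow_succ _ _).symm

theorem Comp.lt {N : ℕ} {A : ℕ → ℕ → Prop} (hA : ∀ x y, A x y → y < N) {T : Fin k → ℕ}
    {z y : ℕ} (h : Comp N A T z y) : y < N := by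
  obtain ⟨h1, h2, h3⟩ := h
  rcases Relation.ReflTransGen.cases_tail h3 with h | ⟨b, _, hb, _⟩
  · exact h ▸ h1
  · exact hA _ _ hb

/-- Correctness of the table of components. -/
theorem cmp_ok {N : ℕ} {σ τ : AS (Option Nm ⊕ Option Nm)}
    (h : BSpec (idx k) (D + 1) C .cmp (RCmp k (D + 1)) N σ τ) (hC : C N (mn σ))
    (h0 : ∀ l, mn σ (some Nm.cmp) l = false) : CmpOK k (D + 1) N (mn τ) := by
  obtain ⟨-, h2, h3, h4⟩ := h hC h0
  intro T z y hT hz hy
  have hbd : ∀ (T : Fin k → ℕ) (z y : ℕ), (∀ l, T l < N ^ (D + 1)) → z < N ^ (D + 1) →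
      y < N ^ (D + 1) → ∀ i, (Sum.elim T ![z, y] : Fin k ⊕ Fin 2 → ℕ) i < N ^ (D + 1) := by
    intro T z y hT hz hy i
    rcases i with i | i
    · exact hT i
    · fin_cases i; exacts [hz, hy]
  constructor
  · intro h
    have key := h4 (fun E => Comp N (BAdj N (mn τ)) (fun l => E (.inl l)) (E (.inr 0))
      (E (.inr 1))) ?_ (Sum.elim T ![z, y]) (hbd T z y hT hz hy) h
    · exact key
    · rintro M hM hMP E hE ⟨r1, r2, r3⟩
      rcases r3 with r3 | ⟨t, ht, r3, r4, r5⟩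
      · refine ⟨r1, r2, ?_⟩
        change Relation.ReflTransGen _ (E (.inr 0)) (E (.inr 1))
        rw [r3]
      · obtain ⟨g1, g2, g3⟩ := hMP _ (hbd _ _ _ (fun l => hE _) (hE _) ht) r3
        refine ⟨r1, r2, Relation.ReflTransGen.tail g3 ⟨?_, r5⟩⟩
        have e1 : BAdj N (mn τ) = BAdj N M := by
          funext x y
          unfold BAdj
          rw [hM none (by simp)]
        rw [e1]
        exact r4
  · rintro ⟨g1, g2, g3⟩
    clear hy
    induction g3 with
    | refl => exact h3 _ (hbd _ _ _ hT hz hz) ⟨g1, g2, Or.inl rfl⟩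
    | tail hb hab ih =>
      rename_i b c
      have hb' : b < N := hab.1.1
      have hc' : c < N := hab.1.2.1
      exact h3 _ (hbd _ _ _ hT hz (pow_ge hc'))
        ⟨g1, g2, Or.inr ⟨b, pow_ge hb', ih, hab.1, hab.2⟩⟩

/-! ### Definability of the rules -/

/-- All tables are correct. -/
def AllOK (k D N : ℕ) (a : Arr (Option Nm)) : Prop := ArOK k D N a ∧ CmpOK k D N a

variable [Fintype κ] (hC : ∀ N a, C N a → AllOK k (D + 1) N a)
include hC

theorem bdef_comp (T : Fin k → κ) (z y : κ) : BDef (idx k) (D + 1) C κ (fun N a e =>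
    Comp N (BAdj N a) (fun l => e (T l)) (e z) (e y)) := by
  refine (bdef_cmp T z y).congr ?_
  intro N a e ha he
  exact (hC N a ha).2 _ _ _ (fun l => he _) (he _) (he _)

theorem hC' : ∀ N a, C N a → ArOK k (D + 1) N a := fun N a h => (hC N a h).1

theorem bdef_isNew (T : Fin k → κ) (v j : κ) : BDef (idx k) (D + 1) C κ (fun N a e =>
    IsNew N (BAdj N a) (fun l => e (T l)) (e v) (e j)) := by
  have h1 : BDef (idx k) (D + 1) C (κ ⊕ Unit) (fun N a e =>
      Comp N (BAdj N a) (fun l => e (.inl (T l))) (e (.inl j)) (e (.inr ())) ∧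
      BAdj N a (e (.inl v)) (e (.inr ()))) :=
    (bdef_comp hC (fun l => Sum.inl (T l)) _ _).and (BDef.adj _ _)
  have h2 : BDef (idx k) (D + 1) C (κ ⊕ Unit) (fun N a e =>
      e (.inr ()) < e (.inl j) →
      ¬ Comp N (BAdj N a) (fun l => e (.inl (T l))) (e (.inl j)) (e (.inr ()))) :=
    (BDef.lt _ _).imp (bdef_comp hC (fun l => Sum.inl (T l)) _ _).not
  refine (h1.ex1.and h2.all1).congr ?_
  intro N a e _ he
  unfold IsNew
  refine and_congr ?_ ?_
  · constructor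
    · rintro ⟨t, _, h⟩; exact ⟨t, h⟩
    · rintro ⟨t, h⟩
      exact ⟨t, pow_ge (h.1.lt (fun x y h => h.2.1)), h⟩
  · constructor
    · intro h z hz; exact h z (lt_trans hz (he j)) hz
    · intro h z _ hz; exact h z hz

theorem bdef_kills {q : κ} {gK : KI k × KI k → ∀ m : ℕ, ℕ → Arr (Option Nm) → (κ → ℕ) → ZMod m}
    {gx : KI k → ∀ m : ℕ, ℕ → Arr (Option Nm) → (κ → ℕ) → ZMod m}
    (hK : ∀ x, FDef k (D + 1) C κ q (gK x)) (hx : ∀ x, FDef k (D + 1) C κ q (gx x)) :
    BDef (idx k) (D + 1) C κ (fun N a e => Kills (fun x => gK x (e q + 1) N a e)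
      (fun x => gx x (e q + 1) N a e)) := by
  have h := hC' hC
  exact BDef.forall' fun r => FDef.eq h
    (FDef.sum h (g := fun c m N a e => gK (r, c) m N a e * gx c m N a e)
      fun c => (hK (r, c)).mul h (hx c)) (FDef.zero h)

theorem bdef_cons {q : κ} (T : Fin k → κ)
    {gx : KI k → ∀ m : ℕ, ℕ → Arr (Option Nm) → (κ → ℕ) → ZMod m}
    (hx : ∀ x, FDef k (D + 1) C κ q (gx x)) :
    BDef (idx k) (D + 1) C κ (fun N a e => Cons (fun l => e (T l))
      (fun x => gx x (e q + 1) N a e)) := by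
  have h := hC' hC
  exact BDef.forall' fun l => BDef.forall' fun l' => (BDef.eq _ _).imp
    (BDef.forall' fun c => FDef.eq h (hx (l, c)) (hx (l', c)))

theorem bdef_pins {q v : κ} {gx : Fin 3 → ∀ m : ℕ, ℕ → Arr (Option Nm) → (κ → ℕ) → ZMod m}
    (hx : ∀ x, FDef k (D + 1) C κ q (gx x)) :
    BDef (idx k) (D + 1) C κ (fun N a e => Pins (e v) (fun x => gx x (e q + 1) N a e)) := by
  have h := hC' hC
  exact BDef.forall' fun c => ((BDef.isZero _).or (((BDef.isConst 1 _).and (BDef.const _)).or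
    ((BDef.isConst 2 _).and (BDef.const _)))).imp (FDef.eq h (hx c) (FDef.zero h))

theorem bdef_prime (q : κ) : BDef (idx k) (D + 1) C κ (fun _ _ e => (e q + 1).Prime) := by
  have h := hC' hC
  have h1 : BDef (idx k) (D + 1) C κ (fun N a e => ∀ x : Fin 2 → ZMod (e q + 1),
      x 0 * x 1 = 0 → x 0 = 0 ∨ x 1 = 0) := by
    refine BDef.allF q (S := fun m _ _ _ (x : Fin 2 → ZMod m) => x 0 * x 1 = 0 → x 0 = 0 ∨ x 1 = 0) ?_
    exact (FDef.eq (q := Sum.inl q) h ((FDef.var h (Sum.inr 0)).mul h (FDef.var h (Sum.inr 1)))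
      (FDef.zero h)).imp ((FDef.eq (q := Sum.inl q) h (FDef.var h (Sum.inr 0)) (FDef.zero h)).or
        (FDef.eq (q := Sum.inl q) h (FDef.var h (Sum.inr 1)) (FDef.zero h)))
  have h2 : BDef (idx k) (D + 1) C κ (fun N a e => ¬ (0 : ZMod (e q + 1)) = 1) :=
    (FDef.eq (q := q) h (FDef.zero h) (FDef.one h)).not
  refine (h1.and h2).congr ?_
  intro N a e _ _
  generalize hm : e q + 1 = m
  constructor
  · rintro ⟨g1, g2⟩
    rw [Nat.prime_iff]
    refine ⟨by omega, ?_, ?_⟩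
    · intro hu
      have : m = 1 := Nat.isUnit_iff.1 hu
      subst this
      exact g2 (Subsingleton.elim _ _)
    · intro x y hxy
      have := g1 ![(x : ZMod m), (y : ZMod m)] (by
        change (x : ZMod m) * (y : ZMod m) = 0
        rw [← Nat.cast_mul]
        exact (ZMod.natCast_eq_zero_iff _ _).2 hxy)
      rcases this with h | h
      · exact Or.inl ((ZMod.natCast_eq_zero_iff _ _).1 h)
      · exact Or.inr ((ZMod.natCast_eq_zero_iff _ _).1 h)
  · intro hp
    have : Fact m.Prime := ⟨hp⟩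
    exact ⟨fun x hx => mul_eq_zero.1 hx, zero_ne_one⟩

end Pool.Agent.Lib.MP_37c7bf_co_h26tw

end DpDefPart

section DpDef2Part

/-! # Definability of the rules of the dynamic programme, continued -/

namespace Pool.Agent.Lib.MP_37c7bf_co_h26tw

open Pool.Agent.Lib.PolyTM Pool.Agent.Lib.FOLFP Function

set_option linter.unusedSectionVars false

variable {k D : ℕ} {C : ℕ → Arr (Option Nm) → Prop} {κ κ' lam : Type} [DecidableEq κ]
  [DecidableEq κ'] [DecidableEq lam]

variable [Fintype κ] (hC : ∀ N a, C N a → AllOK k (D + 1) N a)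
include hC

/-- The relation on states given by the arrays. -/
def XXa (k D N : ℕ) (a : Arr (Option Nm)) : StRel k := fun q v j T α K =>
  BA (idx k) D N a .xx (Sum.elim ![q, v, j] (Sum.elim T (Sum.elim α K)))

omit hC [Fintype κ] in
theorem bdef_xx (q v j : κ) (T : Fin k → κ) (α : KI k → κ) (K : KI k × KI k → κ) :
    BDef (idx k) D C κ (fun N a e => XXa k D N a (e q) (e v) (e j) (fun l => e (T l))
      (fun x => e (α x)) (fun x => e (K x))) := by
  refine (BDef.arr (ι := idx k) .xx (Sum.elim ![q, v, j] (Sum.elim T (Sum.elim α K)))).congr ?_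
  intro N a e _ _
  have : e ∘ (Sum.elim ![q, v, j] (Sum.elim T (Sum.elim α K))) =
      Sum.elim ![e q, e v, e j] (Sum.elim (fun l => e (T l)) (Sum.elim (fun x => e (α x))
        (fun x => e (K x)))) := by
    funext i
    rcases i with i | i | i | i
    · fin_cases i <;> rfl
    · rfl
    · rfl
    · rfl
  rw [this]
  rfl

theorem bdef_projAt {q v : κ} (i : Fin k) (T : Fin k → κ) (α : KI k → κ) (β : Fin 3 → κ)
    (K K' : KI k × KI k → κ)
    {x : KI k → ∀ m : ℕ, ℕ → Arr (Option Nm) → (κ → ℕ) → ZMod m}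
    {y : Fin 3 → ∀ m : ℕ, ℕ → Arr (Option Nm) → (κ → ℕ) → ZMod m}
    (hx : ∀ c, FDef k (D + 1) C κ q (x c)) (hy : ∀ c, FDef k (D + 1) C κ q (y c)) :
    BDef (idx k) (D + 1) C κ (fun N a e => ProjAt (m := e q + 1) (BAdj N a) (fun l => e (T l)) i
      (e v) (fun c => ((e (α c) : ℕ) : ZMod (e q + 1))) (fun c => ((e (β c) : ℕ) : ZMod (e q + 1)))
      (fun c => ((e (K c) : ℕ) : ZMod (e q + 1))) (fun c => ((e (K' c) : ℕ) : ZMod (e q + 1)))
      (fun c => x c (e q + 1) N a e) (fun c => y c (e q + 1) N a e)) := by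
  have h := hC' hC
  have hup : ∀ lc : KI k, FDef k (D + 1) C κ q
      (fun m N a e => if lc.1 = i then y lc.2 m N a e else x lc m N a e) := by
    intro lc
    by_cases hl : lc.1 = i
    · simpa [hl] using hy lc.2
    · simpa [hl] using hx lc
  refine (bdef_cons hC T hx).imp (BDef.imp ?_ (BDef.imp (bdef_pins hC hy) (BDef.imp
    (bdef_kills hC (fun c => FDef.var h (K' c)) hup)
    ((bdef_kills hC (fun c => FDef.var h (K c)) hx).and ?_))))
  · refine BDef.forall' fun l => (BDef.const _).imp ((BDef.adj _ _).imp ?_)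
    exact FDef.eq h (FDef.sum h (g := fun c m N a e => (((e (β c) : ℕ) : ZMod m) -
      ((e (α (l, c)) : ℕ) : ZMod m)) * (y c m N a e - x (l, c) m N a e)) fun c =>
        ((FDef.var h _).sub h (FDef.var h _)).mul h ((hy c).sub h (hx (l, c)))) (FDef.zero h)
  · exact (BDef.forall' fun lc => FDef.eq h (hx lc) (FDef.zero h)).imp
      (BDef.forall' fun c => FDef.eq h (hy c) (FDef.zero h))

end Pool.Agent.Lib.MP_37c7bf_co_h26tw

end DpDef2Part

section DpDef3Part

/-! # Definability of the rules of the dynamic programme, continued -/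

namespace Pool.Agent.Lib.MP_37c7bf_co_h26tw

open Pool.Agent.Lib.PolyTM Pool.Agent.Lib.FOLFP Function

set_option linter.unusedSectionVars false

variable {k D : ℕ} {C : ℕ → Arr (Option Nm) → Prop} {κ κ' lam : Type} [DecidableEq κ]
  [DecidableEq κ'] [DecidableEq lam]

variable [Fintype κ] (hC : ∀ N a, C N a → AllOK k (D + 1) N a)

/-- The number is `N - 1`. -/
theorem bdef_last (j : κ) : BDef (idx k) (D + 1) C κ (fun N _ e => e j + 1 = N) := by
  have h2 : BDef (idx k) (D + 1) C (κ ⊕ Unit) (fun N _ e =>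
    e (.inr ()) < N → e (.inr ()) ≤ e (.inl j)) :=
    (BDef.isVert _).imp (BDef.le _ _)
  refine ((BDef.isVert j).and h2.all1).congr ?_
  intro N a e _ he
  simp only [Sum.elim_inl, Sum.elim_inr]
  constructor
  · rintro ⟨g1, g2⟩
    have := g2 (N - 1) (pow_ge (by omega)) (by omega)
    omega
  · intro g
    exact ⟨by omega, fun t _ ht => by omega⟩

include hC

theorem bdef_free (i : Fin k) (z : κ) (T : Fin k → κ) :
    BDef (idx k) (D + 1) C κ (fun N a e => (∃ l, l ≠ i ∧ e (T l) = e (T i)) ∨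
      ∀ y, Comp N (BAdj N a) (fun l => e (T l)) (e z) y → ¬ BAdj N a y (e (T i))) := by
  refine BDef.or ?_ ?_
  · exact BDef.exists' fun l => (BDef.const _).and (BDef.eq _ _)
  · have h1 : BDef (idx k) (D + 1) C (κ ⊕ Unit) (fun N a e =>
        Comp N (BAdj N a) (fun l => e (.inl (T l))) (e (.inl z)) (e (.inr ())) →
        ¬ BAdj N a (e (.inr ())) (e (.inl (T i)))) :=
      (bdef_comp hC (fun l => Sum.inl (T l)) _ _).imp (BDef.adj _ _).not
    refine h1.all1.congr ?_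
    intro N a e _ _
    constructor
    · intro g y hy
      exact g y (pow_ge (hy.lt (fun x y h => h.2.1))) hy
    · intro g y _ hy
      exact g y hy

omit hC [Fintype κ] in
theorem bdef_xxup (i : Fin k) (q : κ) (T : Fin k → κ) (α : KI k → κ) :
    BDef (idx k) D C (κ ⊕ L1 k) (fun N a e => XXa k D N a (e (.inl q))
        (e (.inr (.inl 0))) (e (.inr (.inl 1)))
        (fun l => if l = i then e (.inr (.inl 0)) else e (.inl (T l)))
        (fun lc => if lc.1 = i then e (.inr (.inr (.inl lc.2))) else e (.inl (α lc)))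
        (fun x => e (.inr (.inr (.inr x))))) := by
  refine (bdef_xx (Sum.inl q) (Sum.inr (Sum.inl 0)) (Sum.inr (Sum.inl 1))
    (fun l => if l = i then Sum.inr (Sum.inl 0) else Sum.inl (T l))
    (fun lc => if lc.1 = i then Sum.inr (Sum.inr (Sum.inl lc.2)) else Sum.inl (α lc))
    (fun x => Sum.inr (Sum.inr (Sum.inr x)))).congr ?_
  intro N a e _ _
  simp only [apply_ite e]

end Pool.Agent.Lib.MP_37c7bf_co_h26tw

end DpDef3Part

section DpDef4Part

/-! # Definability of the rules of the dynamic programme, continued -/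

namespace Pool.Agent.Lib.MP_37c7bf_co_h26tw

open Pool.Agent.Lib.PolyTM Pool.Agent.Lib.FOLFP Function

set_option linter.unusedSectionVars false

variable {k D : ℕ} {C : ℕ → Arr (Option Nm) → Prop} {κ κ' lam : Type} [DecidableEq κ]
  [DecidableEq κ'] [DecidableEq lam]

variable [Fintype κ] (hC : ∀ N a, C N a → AllOK k (D + 1) N a)

include hC

set_option maxHeartbeats 400000 in
theorem bdef_proj (i : Fin k) (q : κ) (T : Fin k → κ) (α : KI k → κ) (K : KI k × KI k → κ) :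
    BDef (idx k) (D + 1) C (κ ⊕ L1 k) (fun N a e =>
        ∀ xy : KI k ⊕ Fin 3 → ZMod (e (.inl q) + 1), ProjAt (BAdj N a) (fun l => e (.inl (T l))) i
        (e (.inr (.inl 0))) (fun x => ((e (.inl (α x)) : ℕ) : ZMod (e (.inl q) + 1)))
        (fun c => ((e (.inr (.inr (.inl c))) : ℕ) : ZMod (e (.inl q) + 1)))
        (fun x => ((e (.inl (K x)) : ℕ) : ZMod (e (.inl q) + 1)))
        (fun x => ((e (.inr (.inr (.inr x))) : ℕ) : ZMod (e (.inl q) + 1)))
        (fun x => xy (.inl x)) (fun c => xy (.inr c))) := by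
  refine BDef.allF (Sum.inl q) (S := fun m N a (e : κ ⊕ L1 k → ℕ) (xy : KI k ⊕ Fin 3 → ZMod m) =>
    ProjAt (BAdj N a) (fun l => e (.inl (T l))) i
    (e (.inr (.inl 0))) (fun x => ((e (.inl (α x)) : ℕ) : ZMod m))
    (fun c => ((e (.inr (.inr (.inl c))) : ℕ) : ZMod m))
    (fun x => ((e (.inl (K x)) : ℕ) : ZMod m))
    (fun x => ((e (.inr (.inr (.inr x))) : ℕ) : ZMod m))
    (fun x => xy (.inl x)) (fun c => xy (.inr c))) ?_
  have := bdef_projAt (q := Sum.inl (Sum.inl q)) (v := Sum.inl (Sum.inr (Sum.inl 0))) hC i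
    (fun l => (Sum.inl (Sum.inl (T l)) : (κ ⊕ L1 k) ⊕ (KI k ⊕ Fin 3)))
    (fun x => Sum.inl (Sum.inl (α x)))
    (fun c => Sum.inl (Sum.inr (Sum.inr (Sum.inl c)))) (fun x => Sum.inl (Sum.inl (K x)))
    (fun x => Sum.inl (Sum.inr (Sum.inr (Sum.inr x))))
    (x := fun c _ _ _ e => ((e (Sum.inr (Sum.inl c)) : ℕ) : ZMod _))
    (y := fun c _ _ _ e => ((e (Sum.inr (Sum.inr c)) : ℕ) : ZMod _))
    (fun c => FDef.var (hC' hC) (Sum.inr (Sum.inl c)))
    (fun c => FDef.var (hC' hC) (Sum.inr (Sum.inr c)))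
  exact this

end Pool.Agent.Lib.MP_37c7bf_co_h26tw

end DpDef4Part

section DpDef5Part

/-! # Definability of the rules of the dynamic programme, continued -/

namespace Pool.Agent.Lib.MP_37c7bf_co_h26tw

open Pool.Agent.Lib.PolyTM Pool.Agent.Lib.FOLFP Function

set_option linter.unusedSectionVars false

variable {k D : ℕ} {C : ℕ → Arr (Option Nm) → Prop} {κ κ' lam : Type} [DecidableEq κ]
  [DecidableEq κ'] [DecidableEq lam]

variable [Fintype κ] (hC : ∀ N a, C N a → AllOK k (D + 1) N a)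

include hC

set_option maxHeartbeats 400000 in
theorem bdef_R1 (q z : κ) (T : Fin k → κ) (α : KI k → κ) (K : KI k × KI k → κ) :
    BDef (idx k) (D + 1) C κ (fun N a e => R1 k (D + 1) N (BAdj N a) (XXa k (D + 1) N a) (e q) (e z)
      (fun l => e (T l)) (fun x => e (α x)) (fun x => e (K x))) := by
  refine BDef.exists' fun i => (bdef_free hC i z T).and ?_
  have h1 := bdef_comp (κ := κ ⊕ L1 k) hC (fun l => Sum.inl (T l)) (Sum.inl z)
    (Sum.inr (Sum.inl 0))
  have h2 := bdef_last (κ := κ ⊕ L1 k) (k := k) (D := D) (C := C) (Sum.inr (Sum.inl 1))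
  have h3 := bdef_xxup (C := C) (D := D + 1) i q T α
  have h4 := bdef_proj hC i q T α K
  exact (BDef.and h1 (BDef.and h2 (BDef.and h3 h4))).ex

set_option maxHeartbeats 400000 in
theorem bdef_rx1 (q v j : κ) (T : Fin k → κ) (α : KI k → κ) :
    BDef (idx k) (D + 1) C (κ ⊕ L2 k) (fun N a e =>
      ∃ j' < N ^ (D + 1), e (.inl j) = j' + 1 ∧ XXa k (D + 1) N a (e (.inl q)) (e (.inl v)) j'
        (fun l => e (.inl (T l))) (fun x => e (.inl (α x))) (fun x => e (.inr (.inl x)))) := by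
  have h2 : BDef (idx k) (D + 1) C ((κ ⊕ L2 k) ⊕ Unit) (fun N a e =>
    e (.inl (.inl j)) = e (.inr ()) + 1 ∧ XXa k (D + 1) N a (e (.inl (.inl q)))
      (e (.inl (.inl v))) (e (.inr ()))
      (fun l => e (.inl (.inl (T l)))) (fun x => e (.inl (.inl (α x))))
      (fun x => e (.inl (.inr (.inl x))))) :=
    (BDef.isSucc _ _).and (bdef_xx _ _ _ (fun l => Sum.inl (Sum.inl (T l)))
      (fun x => Sum.inl (Sum.inl (α x))) (fun x => Sum.inl (Sum.inr (Sum.inl x))))
  exact h2.ex1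

set_option maxHeartbeats 400000 in
theorem bdef_rx3 (q : κ) (T : Fin k → κ) (K : KI k × KI k → κ) :
    BDef (idx k) (D + 1) C (κ ⊕ L2 k) (fun N a e =>
      ∀ x : KI k → ZMod (e (.inl q) + 1), Cons (fun l => e (.inl (T l))) x →
        Kills (fun x => ((e (.inr (.inl x)) : ℕ) : ZMod (e (.inl q) + 1))) x →
        Kills (fun x => ((e (.inr (.inr x)) : ℕ) : ZMod (e (.inl q) + 1))) x →
        Kills (fun x => ((e (.inl (K x)) : ℕ) : ZMod (e (.inl q) + 1))) x) := by
  refine BDef.allF (Sum.inl q) (S := fun m N a (e : κ ⊕ L2 k → ℕ) (x : KI k → ZMod m) =>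
    Cons (fun l => e (.inl (T l))) x →
      Kills (fun x => ((e (.inr (.inl x)) : ℕ) : ZMod m)) x →
      Kills (fun x => ((e (.inr (.inr x)) : ℕ) : ZMod m)) x →
      Kills (fun x => ((e (.inl (K x)) : ℕ) : ZMod m)) x) ?_
  have h := hC' hC
  have hx : ∀ c : KI k, FDef k (D + 1) C ((κ ⊕ L2 k) ⊕ KI k) (Sum.inl (Sum.inl q))
      (fun _ _ _ e => ((e (Sum.inr c) : ℕ) : ZMod _)) := fun c => FDef.var h (Sum.inr c)
  have h1 := bdef_cons hC (fun l => (Sum.inl (Sum.inl (T l)) : (κ ⊕ L2 k) ⊕ KI k)) hx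
  have h2 := bdef_kills hC (fun c => FDef.var h (Sum.inl (Sum.inr (Sum.inl c)))) hx
  have h3 := bdef_kills hC (fun c => FDef.var h (Sum.inl (Sum.inr (Sum.inr c)))) hx
  have h4 := bdef_kills hC (fun c => FDef.var h (Sum.inl (Sum.inl (K c)))) hx
  exact BDef.imp h1 (BDef.imp h2 (BDef.imp h3 h4))

set_option maxHeartbeats 400000 in
theorem bdef_rx5 (q v j : κ) (T : Fin k → κ) (α : KI k → κ) :
    BDef (idx k) (D + 1) C (κ ⊕ L2 k) (fun N a e =>
      ((¬ IsNew N (BAdj N a) (fun l => e (.inl (T l))) (e (.inl v)) (e (.inl j)) ∧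
        ∀ x, ((e (.inr (.inr x)) : ℕ) : ZMod (e (.inl q) + 1)) = 0) ∨
      (IsNew N (BAdj N a) (fun l => e (.inl (T l))) (e (.inl v)) (e (.inl j)) ∧
        R1 k (D + 1) N (BAdj N a) (XXa k (D + 1) N a) (e (.inl q)) (e (.inl j))
          (fun l => e (.inl (T l))) (fun x => e (.inl (α x))) (fun x => e (.inr (.inr x)))))) := by
  have h := hC' hC
  have h1 := bdef_isNew (κ := κ ⊕ L2 k) hC (fun l => Sum.inl (T l)) (Sum.inl v) (Sum.inl j)
  have h2 := bdef_R1 (κ := κ ⊕ L2 k) hC (Sum.inl q) (Sum.inl j) (fun l => Sum.inl (T l))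
    (fun x => Sum.inl (α x)) (fun x => Sum.inr (Sum.inr x))
  have h3 : BDef (idx k) (D + 1) C (κ ⊕ L2 k) (fun N a e =>
      ∀ x, ((e (.inr (.inr x)) : ℕ) : ZMod (e (.inl q) + 1)) = 0) :=
    BDef.forall' fun c => FDef.eq (q := Sum.inl q) h (FDef.var h _) (FDef.zero h)
  exact BDef.or (BDef.and h1.not h3) (BDef.and h1 h2)

set_option maxHeartbeats 400000 in
theorem bdef_RX (q v j : κ) (T : Fin k → κ) (α : KI k → κ) (K : KI k × KI k → κ) :
    BDef (idx k) (D + 1) C κ (fun N a e => RX k (D + 1) N (BAdj N a) (XXa k (D + 1) N a) (e q) (e v)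
      (e j) (fun l => e (T l)) (fun x => e (α x)) (fun x => e (K x))) := by
  have h := hC' hC
  refine (bdef_prime hC q).and ((bdef_cons hC T (fun c => FDef.var h (α c))).and ?_)
  have h4 : BDef (idx k) (D + 1) C (κ ⊕ L2 k) (fun N a e =>
      (e (.inl j) = 0 ∧ ∀ x, ((e (.inr (.inl x)) : ℕ) : ZMod (e (.inl q) + 1)) = 0)) :=
    (BDef.isZero _).and (BDef.forall' fun c => FDef.eq (q := Sum.inl q) h (FDef.var h _)
      (FDef.zero h))
  exact (BDef.and (BDef.or h4 (bdef_rx1 hC q v j T α))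
    (BDef.and (bdef_rx5 hC q v j T α) (bdef_rx3 hC q T K))).ex

end Pool.Agent.Lib.MP_37c7bf_co_h26tw

end DpDef5Part

section ProgramPart

/-! # The program and its Turing machine -/

namespace Pool.Agent.Lib.MP_37c7bf_co_h26tw

open Pool.Agent.Lib.PolyTM Pool.Agent.Lib.FOLFP Function Turing

set_option linter.unusedSectionVars false

variable {k D : ℕ} {C : ℕ → Arr (Option Nm) → Prop} {κ : Type} [DecidableEq κ]

theorem bdef_lt_card (c : ℕ) : BDef (idx k) (D + 1) C κ (fun N _ _ => c < N) := by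
  have h : BDef (idx k) (D + 1) C (κ ⊕ Unit) (fun N _ e => e (.inr ()) < N ∧ e (.inr ()) = c) :=
    (BDef.isVert _).and (BDef.isConst c _)
  refine h.ex1.congr ?_
  intro N a e _ _
  constructor
  · rintro ⟨t, _, h1, h2⟩
    have h1 : t < N := h1
    have h2 : t = c := h2
    omega
  · intro h
    exact ⟨c, pow_ge h, h, rfl⟩

theorem bdef_card (c : ℕ) : BDef (idx k) (D + 1) C κ (fun N _ _ => N = c) := by
  have h : BDef (idx k) (D + 1) C κ (fun N _ _ => (c = 0 ∨ c - 1 < N) ∧ ¬ c < N) :=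
    ((BDef.const _).or (bdef_lt_card _)).and (bdef_lt_card _).not
  refine h.congr ?_
  intro N a e _ _
  omega

theorem bdef_adjConst (c d : ℕ) : BDef (idx k) (D + 1) C κ (fun N a _ => BAdj N a c d) := by
  have h : BDef (idx k) (D + 1) C (κ ⊕ Fin 2) (fun N a e => e (.inr 0) = c ∧
      e (.inr 1) = d ∧ BAdj N a (e (.inr 0)) (e (.inr 1))) :=
    (BDef.isConst c _).and ((BDef.isConst d _).and (BDef.adj _ _))
  refine h.ex.congr ?_
  intro N a e _ _
  constructor
  · rintro ⟨t, _, h1, h2, h3⟩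
    have h1 : t 0 = c := h1
    have h2 : t 1 = d := h2
    have h3 : BAdj N a (t 0) (t 1) := h3
    rwa [h1, h2] at h3
  · intro h
    refine ⟨![c, d], ?_, rfl, rfl, h⟩
    intro l
    fin_cases l
    · exact pow_ge h.1
    · exact pow_ge h.2.1

/-- The finitely many small cases. -/
def Small (small : ∀ n, SimpleGraph (Fin n) → Prop) (N : ℕ) (A : ℕ → ℕ → Prop) : Prop :=
  ∃ n : Fin 4, ∃ H : SimpleGraph (Fin n), small n H ∧ N = n ∧
    ∀ i j : Fin n, A i j ↔ H.Adj i j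

theorem bdef_small (small : ∀ n, SimpleGraph (Fin n) → Prop) :
    BDef (idx k) (D + 1) C κ (fun N a _ => Small small N (BAdj N a)) := by
  refine BDef.exists' fun n => BDef.exists' fun H => (BDef.const _).and ((bdef_card _).and ?_)
  exact BDef.forall' fun i => BDef.forall' fun j => (bdef_adjConst _ _).iff (BDef.const _)

section

variable (hC : ∀ N a, C N a → AllOK k (D + 1) N a)
include hC

set_option maxHeartbeats 400000 in
theorem bdef_acc1 : BDef (idx k) (D + 1) C Empty (fun N a _ =>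
    (∃ (q v j : ℕ) (T : Fin k → ℕ) (α : KI k → ℕ) (K : KI k × KI k → ℕ),
      (q < N ^ (D + 1) ∧ v < N ^ (D + 1) ∧ j < N ^ (D + 1) ∧ (∀ l, T l < N ^ (D + 1)) ∧
        (∀ x, α x < N ^ (D + 1)) ∧ ∀ x, K x < N ^ (D + 1)) ∧
      (v = 0 ∧ j + 1 = N ∧ (∀ l, T l = 0) ∧ XXa k (D + 1) N a q v j T α K))) := by
  have h : BDef (idx k) (D + 1) C (Empty ⊕ XI k) (fun N a e =>
      e (.inr (.inl 1)) = 0 ∧ e (.inr (.inl 2)) + 1 = N ∧ (∀ l, e (.inr (.inr (.inl l))) = 0) ∧
      XXa k (D + 1) N a (e (.inr (.inl 0))) (e (.inr (.inl 1))) (e (.inr (.inl 2)))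
        (fun l => e (.inr (.inr (.inl l)))) (fun x => e (.inr (.inr (.inr (.inl x)))))
        (fun x => e (.inr (.inr (.inr (.inr x)))))) :=
    (BDef.isZero _).and ((bdef_last _).and ((BDef.forall' fun l => BDef.isZero _).and
      (bdef_xx _ _ _ (fun l => Sum.inr (Sum.inr (Sum.inl l)))
        (fun x => Sum.inr (Sum.inr (Sum.inr (Sum.inl x))))
        (fun x => Sum.inr (Sum.inr (Sum.inr (Sum.inr x)))))))
  refine h.ex.congr ?_
  intro N a e _ _
  constructor
  · rintro ⟨t, ht, h1, h2, h3, h4⟩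
    exact ⟨t (.inl 0), t (.inl 1), t (.inl 2), fun l => t (.inr (.inl l)),
      fun x => t (.inr (.inr (.inl x))), fun x => t (.inr (.inr (.inr x))),
      ⟨ht _, ht _, ht _, fun _ => ht _, fun _ => ht _, fun _ => ht _⟩, h1, h2, h3, h4⟩
  · rintro ⟨q, v, j, T, α, K, ⟨b1, b2, b3, b4, b5, b6⟩, h1, h2, h3, h4⟩
    refine ⟨Sum.elim ![q, v, j] (Sum.elim T (Sum.elim α K)), ?_, h1, h2, h3, h4⟩
    intro l
    rcases l with l | l | l | l
    · fin_cases l
      · exact b1
      · exact b2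
      · exact b3
    · exact b4 l
    · exact b5 l
    · exact b6 l

set_option maxHeartbeats 400000 in
theorem bdef_acc2 : BDef (idx k) (D + 1) C Empty (fun N a _ =>
    ∀ (T : Fin k → ℕ), (∀ l, T l = 0) → ∀ y < N, y ≠ 0 →
      ∃ y1, Comp N (BAdj N a) T y y1 ∧ BAdj N a 0 y1) := by
  have h1 : BDef (idx k) (D + 1) C (((Empty ⊕ Fin k) ⊕ Fin 2) ⊕ Unit) (fun N a e =>
      Comp N (BAdj N a) (fun l => e (.inl (.inl (.inr l)))) (e (.inl (.inr 0))) (e (.inr ())) ∧
      BAdj N a (e (.inl (.inr 1))) (e (.inr ()))) :=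
    (bdef_comp hC (fun l => Sum.inl (Sum.inl (Sum.inr l))) _ _).and (BDef.adj _ _)
  have h2 : BDef (idx k) (D + 1) C ((Empty ⊕ Fin k) ⊕ Fin 2) (fun N a e =>
      (∀ l, e (.inl (.inr l)) = 0) → e (.inr 0) < N → ¬ e (.inr 0) = 0 → e (.inr 1) = 0 →
      ∃ t < N ^ (D + 1), Comp N (BAdj N a) (fun l => e (.inl (.inr l))) (e (.inr 0)) t ∧
        BAdj N a (e (.inr 1)) t) :=
    (BDef.forall' fun l => BDef.isZero _).imp ((BDef.isVert _).imp ((BDef.isZero _).not.imp
      ((BDef.isZero _).imp h1.ex1)))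
  refine h2.all'.all'.congr ?_
  intro N a e _ _
  constructor
  · intro g T hT y hy hy0
    have hN : 0 < N ^ (D + 1) := pow_ge (by omega)
    obtain ⟨t, _, ht⟩ := g T (fun l => by rw [hT l]; exact hN) ![y, 0] (by
      intro l; fin_cases l; exacts [pow_ge hy, hN]) hT hy hy0 rfl
    exact ⟨t, ht⟩
  · intro g T _ s _ hT hs hs0 hs1
    obtain ⟨t, ht1, ht2⟩ := g T hT (s 0) hs hs0
    refine ⟨t, pow_ge (ht1.lt (fun x y h => h.2.1)), ht1, ?_⟩
    have hs1 : s 1 = 0 := hs1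
    change BAdj N a (s 1) t
    rw [hs1]
    exact ht2

theorem bdef_fin (small : ∀ n, SimpleGraph (Fin n) → Prop) :
    BDef (idx k) (D + 1) C Empty (fun N a _ => Small small N (BAdj N a) ∨
      (3 < N ∧ Acc k (D + 1) N (BAdj N a) (XXa k (D + 1) N a))) :=
  (bdef_small small).or ((bdef_lt_card 3).and ((bdef_acc1 hC).and (bdef_acc2 hC)))

end

end Pool.Agent.Lib.MP_37c7bf_co_h26tw

end ProgramPart

section MachinePart

/-! # The Turing machine computing the dynamic programme -/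

namespace Pool.Agent.Lib.MP_37c7bf_co_h26tw

open Pool.Agent.Lib.PolyTM Pool.Agent.Lib.FOLFP Function Turing

set_option linter.unusedSectionVars false

variable {k D : ℕ}

/-- The rule for the main array. -/
def RXx (k D N : ℕ) (a : Arr (Option Nm)) (E : XI k → ℕ) : Prop :=
  RX k D N (BAdj N a) (XXa k D N a) (E (.inl 0)) (E (.inl 1)) (E (.inl 2))
    (fun l => E (.inr (.inl l))) (fun x => E (.inr (.inr (.inl x))))
    (fun x => E (.inr (.inr (.inr x))))

theorem bdef_RXx : BDef (idx k) (D + 1) (fun N a => AllOK k (D + 1) N a) (XI k)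
    (RXx k (D + 1)) :=
  bdef_RX (fun _ _ h => h) (Sum.inl 0) (Sum.inl 1) (Sum.inl 2) (fun l => Sum.inr (Sum.inl l))
    (fun x => Sum.inr (Sum.inr (Sum.inl x))) (fun x => Sum.inr (Sum.inr (Sum.inr x)))

theorem AllOK.congr {N : ℕ} {a a' : Arr (Option Nm)} (h : AllOK k D N a)
    (ha : ∀ w, w ≠ some .xx → a' w = a w) : AllOK k D N a' :=
  ⟨⟨h.1.1.congr (ha _ (by simp)), h.1.2.congr (ha _ (by simp))⟩,
    h.2.congr (ha _ (by simp)) (ha _ (by simp))⟩

/-- Splitting of an index tuple of the main array. -/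
theorem xi_eta (E : XI k → ℕ) : Sum.elim ![E (.inl 0), E (.inl 1), E (.inl 2)]
    (Sum.elim (fun l => E (.inr (.inl l))) (Sum.elim (fun x => E (.inr (.inr (.inl x))))
      (fun x => E (.inr (.inr (.inr x)))))) = E := by
  funext i
  rcases i with i | i | i | i
  · fin_cases i <;> rfl
  · rfl
  · rfl
  · rfl

theorem xi_bd {M : ℕ} {q v j : ℕ} {T : Fin k → ℕ} {α : KI k → ℕ} {K : KI k × KI k → ℕ}
    (b1 : q < M) (b2 : v < M) (b3 : j < M) (b4 : ∀ l, T l < M) (b5 : ∀ x, α x < M)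
    (b6 : ∀ x, K x < M) (l : XI k) :
    (Sum.elim ![q, v, j] (Sum.elim T (Sum.elim α K)) : XI k → ℕ) l < M := by
  rcases l with l | l | l | l
  · fin_cases l
    · exact b1
    · exact b2
    · exact b3
  · exact b4 l
  · exact b5 l
  · exact b6 l

theorem xx_ok {N : ℕ} {σ τ : AS (Option Nm ⊕ Option Nm)}
    (h : BSpec (idx k) D (fun N a => AllOK k D N a) .xx (RXx k D) N σ τ)
    (hC : AllOK k D N (mn σ)) (h0 : ∀ l, mn σ (some Nm.xx) l = false) :
    Closed k D N (BAdj N (mn σ)) (XXa k D N (mn τ)) ∧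
      Inductive k D N (BAdj N (mn σ)) (XXa k D N (mn τ)) := by
  obtain ⟨-, h2, h3, h4⟩ := h hC h0
  have hadj : BAdj N (mn τ) = BAdj N (mn σ) := by
    funext x y
    unfold BAdj
    rw [h2 none (by simp)]
  refine ⟨?_, ?_⟩
  · intro q v j T α K b1 b2 b3 b4 b5 b6 hR
    refine h3 (Sum.elim ![q, v, j] (Sum.elim T (Sum.elim α K))) (xi_bd b1 b2 b3 b4 b5 b6) ?_
    unfold RXx
    rw [hadj]
    exact hR
  · intro P hP q v j T α K b1 b2 b3 b4 b5 b6 hX
    have key := h4 (fun E => P (E (.inl 0)) (E (.inl 1)) (E (.inl 2))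
      (fun l => E (.inr (.inl l))) (fun x => E (.inr (.inr (.inl x))))
      (fun x => E (.inr (.inr (.inr x))))) ?_ (Sum.elim ![q, v, j] (Sum.elim T (Sum.elim α K)))
      (xi_bd b1 b2 b3 b4 b5 b6) hX
    · exact key
    · intro M hM hMP E hE hR
      refine hP (XXa k D N M) ?_ _ _ _ _ _ _ (hE _) (hE _) (hE _) (fun _ => hE _)
        (fun _ => hE _) (fun _ => hE _) ?_
      · intro q v j T α K b1 b2 b3 b4 b5 b6 hX
        exact hMP (Sum.elim ![q, v, j] (Sum.elim T (Sum.elim α K))) (xi_bd b1 b2 b3 b4 b5 b6) hX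
      · have hadj' : BAdj N M = BAdj N (mn σ) := by
          rw [← hadj]
          funext x y
          unfold BAdj
          rw [hM none (by simp)]
        rw [← hadj']
        exact hR

/-- The program of the dynamic programme. -/
theorem dp_pdef (k D : ℕ) (small : ∀ n, SimpleGraph (Fin n) → Prop) :
    PDef (Sum.elim (bar (idx k) (D + 1)) (bar (idx k) (D + 1))) (fun N σ τ =>
      (∀ w, w ≠ Nm.cl → ∀ l : List ℕ, mn σ (some w) l = false) →
      ∃ (XX : StRel k) (b : Bool), Closed k (D + 1) N (BAdj N (mn σ)) XX ∧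
        Inductive k (D + 1) N (BAdj N (mn σ)) XX ∧ τ.o = σ.o ++ [b] ∧
        (b = true ↔ Small small N (BAdj N (mn σ)) ∨
          (3 < N ∧ Acc k (D + 1) N (BAdj N (mn σ)) XX))) := by
  have s1 := blfp_step (C := fun _ _ => True) (ι := idx k) Nm.pl (bdef_RPl (k := k) (D := D + 1))
    (fun _ _ _ _ _ => trivial)
  have s2 := blfp_step (C := fun _ _ => True) (ι := idx k) Nm.tm (bdef_RTm (k := k) (D := D + 1))
    (fun _ _ _ _ _ => trivial)
  have s3 := blfp_step (C := fun _ _ => True) (ι := idx k) Nm.cmp (bdef_RCmp (k := k) (D := D))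
    (fun _ _ _ _ _ => trivial)
  have s4 := blfp_step (C := fun N a => AllOK k (D + 1) N a) (ι := idx k) Nm.xx (bdef_RXx (k := k) (D := D))
    (fun _ _ _ h h' => AllOK.congr h' h)
  have s5 := emit_step (bdef_fin (C := fun N a => AllOK k (D + 1) N a) (k := k) (D := D)
    (fun _ _ h => h) small)
  refine ((((s1.seq s2).seq s3).seq s4).seq s5).mono ?_
  rintro N σ τ ⟨ρ4, ⟨ρ3, ⟨ρ2, ⟨ρ1, q1, q2⟩, q3⟩, q4⟩, q5⟩ e0
  obtain ⟨o1, u1, -, -⟩ := q1 trivial (e0 _ (by simp))
  have ok1 := pl_ok q1 trivial (e0 _ (by simp))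
  have e1 : ∀ (w : Nm), w ≠ .cl → w ≠ .pl → ∀ (l : List ℕ), mn ρ1 (some w) l = false := by
    intro w hw0 hw l
    rw [u1 _ (by simpa using hw)]
    exact e0 w hw0 l
  obtain ⟨o2, u2, -, -⟩ := q2 trivial (e1 _ (by simp) (by simp))
  have ok2 := tm_ok q2 trivial (e1 _ (by simp) (by simp)) ok1
  have ok2' : PlOK k (D + 1) N (mn ρ2) := ok1.congr (u2 _ (by simp))
  have e2 : ∀ (w : Nm), w ≠ .cl → w ≠ .pl → w ≠ .tm → ∀ (l : List ℕ),
      mn ρ2 (some w) l = false := by
    intro w hw0 hw hw' l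
    rw [u2 _ (by simpa using hw')]
    exact e1 w hw0 hw l
  obtain ⟨o3, u3, -, -⟩ := q3 trivial (e2 _ (by simp) (by simp) (by simp))
  have ok3 := cmp_ok q3 trivial (e2 _ (by simp) (by simp) (by simp))
  have e3 : ∀ (l : List ℕ), mn ρ3 (some .xx) l = false := by
    intro l
    rw [u3 _ (by simp)]
    exact e2 _ (by simp) (by simp) (by simp) l
  have hall : AllOK k (D + 1) N (mn ρ3) :=
    ⟨⟨ok2'.congr (u3 _ (by simp)), ok2.congr (u3 _ (by simp))⟩, ok3⟩
  obtain ⟨o4, u4, -, -⟩ := q4 hall e3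
  obtain ⟨c1, c2⟩ := xx_ok q4 hall e3
  have hadj : BAdj N (mn ρ3) = BAdj N (mn σ) := by
    funext x y
    unfold BAdj
    rw [u3 none (by simp), u2 none (by simp), u1 none (by simp)]
  have hadj4 : BAdj N (mn ρ4) = BAdj N (mn σ) := by
    rw [← hadj]
    funext x y
    unfold BAdj
    rw [u4 none (by simp)]
  rw [hadj] at c1 c2
  have hall4 : AllOK k (D + 1) N (mn ρ4) := AllOK.congr hall u4
  obtain ⟨b, hb1, hb2⟩ := q5 hall4
  rw [hadj4] at hb2
  exact ⟨XXa k (D + 1) N (mn ρ4), b, c1, c2, by rw [hb1, o4, o3, o2, o1], hb2⟩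

/-- **The machine.** -/
theorem machine (k D : ℕ) (small : ∀ n, SimpleGraph (Fin n) → Prop) :
    ∃ (f : Graph → List Bool) (M : TM2ComputableInPolyTime Graph.encode id f),
      (∀ k, Finite (M.tm.Γ k)) ∧ ∀ I : Graph, ∃ (XX : StRel k) (b : Bool),
        Closed k (D + 1) I.n (adjN I) XX ∧ Inductive k (D + 1) I.n (adjN I) XX ∧ f I = [b] ∧
        (b = true ↔ Small small I.n (adjN I) ∨ (3 < I.n ∧ Acc k (D + 1) I.n (adjN I) XX)) := by
  obtain ⟨f, M, hM, hf⟩ := machine_of_PDef (dp_pdef k D small)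
  refine ⟨f, M, hM, fun I => ?_⟩
  obtain ⟨τ, q, hfI⟩ := hf I
  obtain ⟨XX, b, c1, c2, hb1, hb2⟩ := q fun w _ l => init_some I w l
  have hadj : BAdj I.n (mn (init Nm I)) = adjN I := by
    funext x y
    exact propext (init_adj (W1 := Nm) I x y)
  rw [hadj] at c1 c2 hb2
  refine ⟨XX, b, c1, c2, ?_, hb2⟩
  rw [hfI, hb1]
  rfl

end Pool.Agent.Lib.MP_37c7bf_co_h26tw

end MachinePart
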